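import Pool.Agent.Work.MP_d2a4bb_nt.NC.Gen

/-!
# Block [d2a4bb CV]: holomorphic Hecke forms do not concentrate on curves

THEOREM C: `μ_f (r-neighbourhood of a C^{1,α} arc) ≤ C r ^ δ` for `α > 1 / 2`, uniformly in the weight, so
all weak-* limits give mass zero to all `C^{1,α}` curves, in particular to all `C²` curves.
The new points in comparison with the block NC: the duality inequality with an orientation (item TTo),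
which removes the elements that reverse the direction of the curve, and the count of the elements
which map a short piece of the curve to itself with its direction (items CB1, CB2, BoxG).
-/

set_option autoImplicit false

open MeasureTheory UpperHalfPlane Matrix HQ Set
open scoped MatrixGroups ModularForm Manifold ENNReal Classical ComplexConjugate

noncomputable section

namespace Pool.Agent.HoloQUE

/-- The derivative `det g / (c u + d)²` of `g` at `u` has nonnegative real part (`det g > 0`). -/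
def Or (g : G2) (u : ℍ) : Prop := 0 ≤ ((denom g u) ^ 2).re

/-- The quadratic polynomial `- c z² + (a - d) z + b = (c z + d) (g z - z)`. -/
def Qf (g : Mat) (z : ℂ) : ℂ :=
  -((g 1 0 : ℝ) : ℂ) * z ^ 2 + ((g 0 0 - g 1 1 : ℝ) : ℂ) * z + ((g 0 1 : ℝ) : ℂ)

/-- The elements which move `z₀` by at most `2`, with bounds for `c`, and for the components of
`Qf g z₀` in the direction `v₀` and in the normal direction. -/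
def Bx (z₀ : ℍ) (v₀ : ℂ) (κ₁ κ₂ κ₃ : ℝ) : Set G2 :=
  {g | g ∈ Sb z₀ 2 ∧ |(g : Mat) 1 0| ≤ κ₁ * √(g : Mat).det ∧
    |(Qf (g : Mat) z₀ * conj v₀).re| ≤ κ₂ * √(g : Mat).det ∧
    |(Qf (g : Mat) z₀ * conj v₀).im| ≤ κ₃ * √(g : Mat).det}

/-- `γ : [0, 1] → ℍ` is a `C^{1,α}` arc with bounds `M`; `γ'` is its derivative. -/
structure Arc (α M : ℝ) (γ : ℝ → ℍ) (γ' : ℝ → ℂ) : Prop where
  hd : ∀ t ∈ Icc (0 : ℝ) 1, HasDerivWithinAt (fun s => ((γ s : ℍ) : ℂ)) (γ' t) (Icc 0 1) t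
  lo : ∀ t ∈ Icc (0 : ℝ) 1, 1 / M ≤ ‖γ' t‖
  hi : ∀ t ∈ Icc (0 : ℝ) 1, ‖γ' t‖ ≤ M
  hol : ∀ s ∈ Icc (0 : ℝ) 1, ∀ t ∈ Icc (0 : ℝ) 1, ‖γ' s - γ' t‖ ≤ M * |s - t| ^ α
  pos : ∀ t ∈ Icc (0 : ℝ) 1, dist (γ t) I ≤ M

/-- The closed `r`-neighbourhood of the piece `γ [s₀, s₀ + τ]`. -/
def Nb (γ : ℝ → ℍ) (s₀ τ r : ℝ) : Set ℍ := {z | ∃ s ∈ Icc s₀ (s₀ + τ), dist z (γ s) ≤ r}

/-- Item TTo: the duality inequality with an orientation. Proof. As TT (see `NC/I_TT.lean`). For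
`x ∈ E`, `γ ∈ Γ` and `z ∈ ℍ` let `a(x,γ,z) = h_B (x⁻¹ γ z)` (`h_B = F` on `B`, `0` outside), so
`H z = ∑_{x,γ} a(x,γ,z)`, and `ζ(x,γ,z) = (denom (h⁻¹ x⁻¹ γ) z)²` (a nonzero number, it does not depend
on the lift of `γ` to `normOne`). Let `s(ζ)` be the pair of truth values of `0 ≤ re ζ`, `0 ≤ im ζ`, and
`H_s z` the part of the sum with `s(ζ) = s`. `H² = (∑_s H_s)² ≤ 4 ∑_s H_s²`, and `∑_s H_s²` is the sum of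
`a(x,γ,z) a(y,γ',z)` over the pairs with equal `s`; these have `re (ζ conj ζ') ≥ 0` (products of numbers
of the same sign). So `∫_D H² ≤ 4 ∫_D ∑_{x,γ,y,γ'} a a' [re (ζ conj ζ') ≥ 0]`. Replacing `z` by `δ z` and
`γ, γ'` by `γ δ⁻¹, γ' δ⁻¹` multiplies `ζ` and `ζ'` by the same number (`denom_cocycle`), so the condition
is invariant and unfolding gives, as in TT, `4 ∑_{x,y,γ} ∫_ℍ h_B(x⁻¹ γ z) h_B(y⁻¹ z) [..] dz`, and with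
`z = y u`, `u = h v`, `β = x⁻¹ γ y`: `ζ / ζ' = (denom (h⁻¹ β h) v)²` by the cocycle relation, so the
condition is `Or (h⁻¹ β h) (h⁻¹ u)`. Finally `h_B(β u) h_B(u) ≤ (F(β u)² + F(u)²) / 2` on the set
`{u ∈ B, β u ∈ B, Or}`, and the substitution `u' = β u` maps this set to the set for `β⁻¹`
(`denom (g) (g⁻¹ v) = 1 / denom (g⁻¹) v` and `re (1 / w²) ≥ 0` iff `re (w²) ≥ 0`). -/
def S_TTo : Prop :=
  ∀ (O : Subring Mat) (F : ℍ → ℝ) (D B : Set ℍ) (E : Finset G2) (w : ℝ) (h : G2), QOrder O →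
    Continuous F → (∀ z, 0 ≤ F z) → (∀ g ∈ normOne O, ∀ z, F (g • z) = F z) →
    IsFundamentalDomain (Gam O) D volume → MeasurableSet B → 0 ≤ w → 0 < (h : Mat).det →
    (∀ x ∈ E, 0 < (x : Mat).det) → (∀ z ∈ B, F z ≤ w * ∑ x ∈ E, F (x • z)) →
    ms F B ^ 2 ≤ ENNReal.ofReal (4 * w ^ 2) * ms F D *
      ∑' t : Tri O E Set.univ, ms F {z ∈ B | (t.1.1⁻¹ * t.1.2.2 * t.1.2.1) • z ∈ B ∧
        Or (h⁻¹ * (t.1.1⁻¹ * t.1.2.2 * t.1.2.1) * h) (h⁻¹ • z)}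

/-- Item TTp: the split form. Proof (from TTo), as TTs: with `m = ms F B < ∞`,
`m² ≤ 4 w² K₁ m + 4 w² K₂ c`, which gives `m ≤ 4 w² K₁ + 2 w √(K₂ c)`. -/
def S_TTp : Prop :=
  ∀ (O : Subring Mat) (F : ℍ → ℝ) (D B : Set ℍ) (E : Finset G2) (w : ℝ) (h : G2) (S₁ S₂ : Set G2)
    (K₁ K₂ : ℕ) (c : ℝ),
    QOrder O →
    Continuous F → (∀ z, 0 ≤ F z) → (∀ g ∈ normOne O, ∀ z, F (g • z) = F z) →
    IsFundamentalDomain (Gam O) D volume → ms F D = 1 → MeasurableSet B → 0 ≤ w →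
    0 < (h : Mat).det →
    (∀ z ∈ B, F z ≤ w * ∑ x ∈ E, F (x • z)) → Bornology.IsBounded B →
    (∀ x ∈ E, 0 < (x : Mat).det) → 0 ≤ c →
    (∀ g : G2, 0 < (g : Mat).det → ∀ z ∈ B, g • z ∈ B → g ∈ S₂) →
    (∀ g : G2, 0 < (g : Mat).det → g ∉ S₁ →
      ms F {z ∈ B | g • z ∈ B ∧ Or (h⁻¹ * g * h) (h⁻¹ • z)} ≤ ENNReal.ofReal c) →
    (Tri O E S₁).encard ≤ K₁ → (Tri O E S₂).encard ≤ K₂ →
    ms F B ≤ ENNReal.ofReal (4 * w ^ 2 * K₁ + 2 * w * √(K₂ * c))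

/-- Item CB1: counting in the boxes. Proof. Let `g` be in the set, `n = det g ≤ X`. The trace of `g` is
an integer with `tr² ≤ 2 n (cosh 2 + 1)` (Geo for `h⁻¹ g h`, `h • I = z₀`, for example
`h = z₀.toSL2R`; Iso). Let `x₀ = 2 g - tr g ∈ O`, traceless, lower left entry `2 c`,
`Qf x₀ z₀ = 2 Qf g z₀`. `z₀ = x + i y`, `y ≥ e^{-M}`, `|z₀| ≤ 2 e^M`. A traceless matrix is recovered
from its lower left entry and `Qf`: `im Qf = - 2 c x y + (a - d) y`, `re Qf = - c (x² - y²) + (a - d) x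
+ b`; so its entries are at most `C_M (|c| + |Qf|)`. So if two matrices `x₀` have the same
`(⌊K c⌋, ⌊K re (Qf conj v₀)⌋, ⌊K im (Qf conj v₀)⌋)` with `K = K_M` large then the determinant of their
difference is less than `1` in modulus, so they are equal (`dt`, `ne`). So there are at most
`C (1 + √X κ₁) (1 + √X κ₂) (1 + √X κ₃)` matrices `x₀`, and `(x₀, tr g)` determines `g`. -/
def S_CB1 : Prop :=
  ∀ M : ℝ, 1 ≤ M → ∃ C : ℝ, 0 < C ∧ ∀ (O : Subring Mat) (z₀ : ℍ) (v₀ : ℂ) (κ₁ κ₂ κ₃ X : ℝ),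
    QOrder O → dist z₀ I ≤ M → ‖v₀‖ = 1 → 0 ≤ κ₁ → 0 ≤ κ₂ → 0 ≤ κ₃ → 1 ≤ X →
    (C1 O (Bx z₀ v₀ κ₁ κ₂ κ₃) X).Finite ∧ ((C1 O (Bx z₀ v₀ κ₁ κ₂ κ₃) X).ncard : ℝ) ≤
      C * √X * ((1 + √X * κ₁) * (1 + √X * κ₂) * (1 + √X * κ₃))

/-- Item CB2: counting in the boxes, norm a square. Proof. As CB1 for the number of matrices `x₀`
(`√(det g) = m ≤ Y`); if `x₀ ≠ 0` then `4 m² - t² = det x₀`, `t = tr g`, is a nonzero integer of modulus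
at most `C Y²`, so there are at most `2 d(|det x₀|) ≤ C_ε Y ^ ε` elements `g` with this `x₀` (see C2b
and `NC/I_C2b.lean`, `NC/I_Sp2.lean`: `XSp2.fib`); if `x₀ = 0` then `g = ± m`. -/
def S_CB2 : Prop :=
  ∀ M ε : ℝ, 1 ≤ M → 0 < ε → ∃ C : ℝ, 0 < C ∧
    ∀ (O : Subring Mat) (z₀ : ℍ) (v₀ : ℂ) (κ₁ κ₂ κ₃ Y : ℝ),
    QOrder O → dist z₀ I ≤ M → ‖v₀‖ = 1 → 0 ≤ κ₁ → 0 ≤ κ₂ → 0 ≤ κ₃ → 1 ≤ Y →
    (C2 O (Bx z₀ v₀ κ₁ κ₂ κ₃) Y).Finite ∧ ((C2 O (Bx z₀ v₀ κ₁ κ₂ κ₃) Y).ncard : ℝ) ≤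
      C * (Y ^ ε * ((1 + Y * κ₁) * (1 + Y * κ₂) * (1 + Y * κ₃)) + Y)

/-- Item Scx: the boxes are invariant under scalars. Proof. Both sides are multiplied by `|a|`;
`Sb` is invariant (Sc). -/
def S_Scx : Prop := ∀ (z₀ : ℍ) (v₀ : ℂ) (κ₁ κ₂ κ₃ : ℝ), ScInv (Bx z₀ v₀ κ₁ κ₂ κ₃)

/-- Item Cmp: comparison of the hyperbolic and the euclidean distance on an arc. Proof.
`UpperHalfPlane.dist_coe_le`, `dist_le_dist_coe_div_sqrt`, `im_div_exp_dist_le`: on the ball of radius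
`M + 1` about `i` the imaginary part is between `e^{-M-1}` and `e^{M+1}`. The last statement is the
mean value inequality: `|γ t - γ s - (t - s) γ' s₀| ≤ |t - s| M τ^α` for `s, t ∈ [s₀, s₀ + τ]`
(`Convex.norm_image_sub_le_of_norm_hasDerivWithin_le` for `γ - γ' s₀ * id`). -/
def S_Cmp : Prop :=
  ∀ M : ℝ, 1 ≤ M → ∃ K : ℝ, 1 ≤ K ∧
    (∀ z w : ℍ, dist z I ≤ M + 1 → dist w I ≤ M + 1 →
      dist (z : ℂ) w ≤ K * dist z w ∧ dist z w ≤ K * dist (z : ℂ) w ∧ 1 / K ≤ z.im ∧ z.im ≤ K) ∧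
    ∀ (α : ℝ) (γ : ℝ → ℍ) (γ' : ℝ → ℂ), 0 < α → Arc α M γ γ' →
      (∀ s ∈ Icc (0 : ℝ) 1, ∀ t ∈ Icc (0 : ℝ) 1, dist (γ s) (γ t) ≤ K * |s - t|) ∧
      ∀ s₀ τ s t : ℝ, 0 ≤ s₀ → s₀ + τ ≤ 1 → s ∈ Icc s₀ (s₀ + τ) → t ∈ Icc s₀ (s₀ + τ) →
        ‖((γ t : ℍ) : ℂ) - ((γ s : ℍ) : ℂ) - ((t - s : ℝ) : ℂ) * γ' s₀‖ ≤ |t - s| * (M * τ ^ α)

/-- Item BoxG: an element which moves two distant points of the neighbourhood of a short piece to this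
neighbourhood, and does not reverse the direction, is in a small box. Proof. Constants depend on `M`.
Divide `g` by `√(det g)`, so `det g = 1` (`Or`, `Bx` are invariant). Let `z₀ = γ s₀`, `z_i' = g z_i`,
`j_i = c z_i + d`. All points are within `C τ` of `z₀` (Cmp), so `dist (g z₀) z₀ ≤ 2` for small `τ₀`
(Iso), and the entries of `g` are bounded (Geo for the conjugate with `z₀.toSL2R`), so `|j_i|` is
between `1 / C` and `C`. (1) `z₁' - z₂' = (z₁ - z₂) / (j₁ j₂)`. Choose `s_i, t_i` with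
`dist z_i (γ s_i) ≤ r`, `dist z_i' (γ t_i) ≤ r`. By Cmp `z₁ - z₂ = (s₁ - s₂) γ'(s₀) (1 + e)`,
`|e| ≤ C (τ^α + r / ρ) ≤ C τ^α` (as `|z₁ - z₂| ≥ c ρ`, `r ≤ ρ τ^α`, so `|s₁ - s₂| ≥ c ρ`), the same for
`z₁' - z₂'` and `t₁ - t₂` (`dist z₁' z₂' = dist z₁ z₂`). So `j₁ j₂ = l (1 + e')` with `l` real, nonzero,
`|e'| ≤ C τ^α`; `j₂ = j₁ + c (z₂ - z₁) = j₁ (1 + O(τ))`, so `j₁² = l (1 + e'')`, `|e''| ≤ C τ^α`, and
`re (j₁²) ≥ 0` gives `l > 0` for small `τ₀`. So `j₁ = σ |j₁| (1 + O(τ^α))` with a sign `σ`: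
`|im j₁| ≤ C τ^α`. (2) `c = im j₁ / im z₁`, so `|c| ≤ C τ^α`. `|j₁|² = im z₁ / im z₁' = 1 + O(τ)`, so
`j₁ = σ + O(τ^α)`. (3) `Qf g z₁ = j₁ (z₁' - z₁)` and `z₁' - z₁ = (t₁ - s₁) γ'(s₀) + O(τ^{1+α} + r)`, so
`Qf g z₁ = σ (t₁ - s₁) γ'(s₀) + O(τ^{1+α})`. From its imaginary part `|a - d| ≤ C (τ + |c|) ≤ C τ^α`.
(4) `Qf g z₀ - Qf g z₁ = - c (z₀² - z₁²) + (a - d) (z₀ - z₁) = O(τ^{1+α})`. So the component of
`Qf g z₀` in the direction `γ'(s₀)` is `O(τ)` and the normal one is `O(τ^{1+α})`. -/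
def S_BoxG : Prop :=
  ∀ α M : ℝ, 1 / 2 ≤ α → α ≤ 1 → 1 ≤ M → ∃ C τ₀ : ℝ, 0 < C ∧ 0 < τ₀ ∧ τ₀ ≤ 1 ∧
    ∀ (γ : ℝ → ℍ) (γ' : ℝ → ℂ) (s₀ τ r ρ : ℝ) (g : G2) (z₁ z₂ : ℍ), Arc α M γ γ' → 0 ≤ s₀ → 0 < τ →
      τ ≤ τ₀ → s₀ + τ ≤ 1 → 0 < r → 0 < ρ → ρ ≤ τ → r ≤ ρ * τ ^ α → 0 < (g : Mat).det →
      z₁ ∈ Nb γ s₀ τ r → z₂ ∈ Nb γ s₀ τ r → g • z₁ ∈ Nb γ s₀ τ r → g • z₂ ∈ Nb γ s₀ τ r →
      ρ ≤ dist z₁ z₂ → Or g z₁ →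
      g ∈ Bx (γ s₀) (γ' s₀ / (‖γ' s₀‖ : ℂ)) (C * τ ^ α) (C * τ) (C * τ ^ (1 + α))

/-- Item Piece: the estimate for a short piece. Proof. `e = (2 + 2 α) / 3 = 1 + 2 σ`,
`σ = (2 α - 1) / 6 > 0`, `ε = σ / 8`, `N = ⌈τ ^ (-e)⌉ ≥ N₀ ε` for small `τ₀`, `ρ = τ ^ 150`, so
`r ≤ τ ^ 152 ≤ ρ τ^α`. `B = {z | h⁻¹ z ∈ Nb γ s₀ τ r}` is closed and bounded, of diameter at most `1` for
small `τ₀` (Cmp). `R = 3 N`, the elements of `P` in `(N, 3 N]`, `Pa`, `Pb`, `E`, `w` as in Ball/Tube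
(`NC/I_Tube.lean`: `XTube.avgA`, `avgB`, `triA`, `triB`, `trf`), `S₁ = cs h (Bx ..)` with the box of BoxG,
`S₂ = Sb (h • γ s₀) 2`. For `g ∉ S₁`, `det g > 0`, two points of `{z ∈ B | g z ∈ B ∧ Or ..}` have
distance less than `ρ` by BoxG for `h⁻¹ g h`, so its mass is at most `c = C ρ ^ (1/2) = C τ ^ 75` by
BallP (exponent `1/2`). `K₂ ≤ C N ^ 10` (Ma, Mb, C1b, C2b), so `w √(K₂ c) ≤ τ ^ 30` roughly. First type,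
`w² ≤ C N^{-3+2ε}`: CB1 with `X = 9 N²`: `#C1 ≤ C N (N τ^α) (N τ) = C N³ τ^{1+α}`
(`1 ≤ N τ^α`, `1 ≤ N τ`, `N τ^{1+α} ≤ C`), `#C1(1) ≤ C`, so `K₁ ≤ C (N³ τ^{1+α} + N²)` and
`w² K₁ ≤ C N^{2ε} (τ^{1+α} + N^{-1})`. Second type, `w² ≤ C N^{-4+2ε}`: CB2 with `Y = 9 N²`, here
`1 ≤ C Y τ^{1+α}`: `#C2 ≤ C N^{2ε} N⁶ τ^{2+2α}`; with `Y = 3 N`: `C N^ε N² τ^{1+α} + C N`; so
`K₁ ≤ C (N^{6+2ε} τ^{2+2α} + N^{3+ε} τ^{1+α} + N³)` and `w² K₁ ≤ C (N^{2+4ε} τ^{2+2α} + N^{-1+3ε})`. As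
`N` is `τ^{-e}` up to a constant and `2 + 2 α = 3 e`, everything is at most
`C τ^{e - 6 e ε} ≤ C τ^{1+σ}`. TTp. -/
def S_Piece : Prop :=
  ∀ (N₀ : ℝ → ℕ) (α M : ℝ), 1 / 2 < α → α ≤ 1 → 1 ≤ M → ∃ C τ₀ : ℝ, 0 < C ∧ 0 < τ₀ ∧ τ₀ ≤ 1 ∧
    ∀ (O : Subring Mat) (P : Set ℕ) (F : ℍ → ℝ) (D : Set ℍ),
    QOrder O → (∀ p ∈ P, Good O p) → Plenty P N₀ → AmpP O P F →
    IsFundamentalDomain (Gam O) D volume → ms F D = 1 →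
    ∀ (γ : ℝ → ℍ) (γ' : ℝ → ℂ) (h : G2) (s₀ τ r : ℝ), Arc α M γ γ' → 0 < (h : Mat).det →
      0 ≤ s₀ → 0 < τ → τ ≤ τ₀ → s₀ + τ ≤ 1 → 0 < r → r ≤ τ ^ 152 →
      ms F {z | h⁻¹ • z ∈ Nb γ s₀ τ r} ≤ ENNReal.ofReal (C * τ ^ (1 + (2 * α - 1) / 6))

/-- Item Curve: the estimate for an arc. Proof. For `r ≥ r₀`: the neighbourhood is covered by a bounded
number of balls of radius `2` about the points `h γ(i / n)` (Cmp, Iso), BallP. For `r < r₀` let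
`n = ⌊r ^ (-1/152)⌋ ≥ 1 / τ₀`, `τ = 1 / n`, so `r ≤ τ ^ 152` and `τ ≤ 2 r ^ (1/152)`. The neighbourhood is the
union of the sets of Piece for `s₀ = i / n`, `i < n`, so its mass is at most `n C τ ^ (1 + σ) =
C τ ^ σ ≤ C' r ^ (σ / 152)`, `σ = (2 α - 1) / 6`, and `σ / 152 ≥ (2 α - 1) / 1000`. -/
def S_Curve : Prop :=
  ∀ (N₀ : ℝ → ℕ) (α M : ℝ), 1 / 2 < α → α ≤ 1 → 1 ≤ M → ∃ C : ℝ, 0 < C ∧
    ∀ (O : Subring Mat) (P : Set ℕ) (F : ℍ → ℝ) (D : Set ℍ),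
    QOrder O → (∀ p ∈ P, Good O p) → Plenty P N₀ → AmpP O P F →
    IsFundamentalDomain (Gam O) D volume → ms F D = 1 →
    ∀ (γ : ℝ → ℍ) (γ' : ℝ → ℂ) (h : G2) (r : ℝ), Arc α M γ γ' → 0 < (h : Mat).det →
      0 < r → r ≤ 1 →
      ms F {z | ∃ t ∈ Icc (0 : ℝ) 1, dist z (h • γ t) ≤ r} ≤
        ENNReal.ofReal (C * r ^ ((2 * α - 1) / 1000))

/-! ### The final statement -/

/-- `γ` is a `C^{1,α}` arc for some `α > 1 / 2`: it is differentiable on `[0, 1]`, its derivative has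
no zero and is Hölder continuous with exponent `α`. -/
def IsHArc (γ : ℝ → ℍ) : Prop :=
  ∃ (α H : ℝ) (γ' : ℝ → ℂ), 1 / 2 < α ∧
    (∀ t ∈ Icc (0 : ℝ) 1, HasDerivWithinAt (fun s => ((γ s : ℍ) : ℂ)) (γ' t) (Icc 0 1) t) ∧
    (∀ t ∈ Icc (0 : ℝ) 1, γ' t ≠ 0) ∧
    ∀ s ∈ Icc (0 : ℝ) 1, ∀ t ∈ Icc (0 : ℝ) 1, ‖γ' s - γ' t‖ ≤ H * |s - t| ^ α

/-- Item ArcM. Proof: compactness of `[0, 1]` (the derivative is continuous, `γ` is continuous); one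
may decrease `α` to `min α 1` (`|s - t| ≤ 1`). -/
def S_ArcM : Prop :=
  ∀ γ : ℝ → ℍ, IsHArc γ → ∃ (α M : ℝ) (γ' : ℝ → ℂ), 1 / 2 < α ∧ α ≤ 1 ∧ 1 ≤ M ∧ Arc α M γ γ'

/-- Item ArcC: `C²` curves. Proof: the derivative of a `C²` function is Lipschitz on a compact
interval. -/
def S_ArcC : Prop :=
  ∀ (γ : ℝ → ℍ) (a b : ℝ), a < b → ContDiff ℝ 2 (fun t => ((γ t : ℍ) : ℂ)) →
    (∀ t, deriv (fun t => ((γ t : ℍ) : ℂ)) t ≠ 0) → IsHArc fun t => γ (a + (b - a) * t)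

/-- THEOREM C. Curves: the mass of the `r`-neighbourhood of an isometric image of an arc with bounds
`α > 1 / 2`, `M` is at most `C r ^ ((2 α - 1) / 1000)`, uniformly in the order, in the weight, in `f`,
in the arc and in the isometry; all weak-* limits give mass zero to all `C^{1,α}` arcs, `α > 1 / 2`, and
to all regular `C²` curves. -/
def FinalC : Prop :=
  ∀ (N₀ : ℝ → ℕ) (α M : ℝ), 1 / 2 < α → α ≤ 1 → 1 ≤ M → ∃ C : ℝ, 0 < C ∧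
    ∀ (Q : QuatOrder) (P : Set ℕ), GoodSet Q P N₀ →
    (∀ (k : ℕ) (f : ℍ → ℂ), HeckeP Q P k f → ∀ (γ : ℝ → ℍ) (γ' : ℝ → ℂ) (h : SL(2, ℝ)) (r : ℝ),
      Arc α M γ γ' → 0 < r → r ≤ 1 →
      mu k f {z | ∃ t ∈ Icc (0 : ℝ) 1, dist z (h • γ t) ≤ r} ≤
        ENNReal.ofReal (C * r ^ ((2 * α - 1) / 1000))) ∧
    ∀ (k : ℕ → ℕ) (f : ℕ → ℍ → ℂ) (ν : Measure ℍ), (∀ j, HeckeP Q P (k j) (f j)) →
      WeakLim k f ν → (∀ γ : ℝ → ℍ, IsHArc γ → ν (γ '' Icc 0 1) = 0) ∧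
        ∀ γ : ℝ → ℍ, ContDiff ℝ 2 (fun t => ((γ t : ℍ) : ℂ)) →
          (∀ t, deriv (fun t => ((γ t : ℍ) : ℂ)) t ≠ 0) → ν (range γ) = 0

end Pool.Agent.HoloQUE
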