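import Pool.Agent.Work.MP_d2a4bb_nt.CV.Stmts

set_option autoImplicit false

/-!
# [d2a4bb CV ArcC] regular `C²` curves are admissible arcs
-/

open UpperHalfPlane MeasureTheory Matrix Set
open scoped MatrixGroups Topology

namespace Pool.Agent.HoloQUE

namespace XArcC

/-- a continuously differentiable function is Lipschitz on compact intervals -/
lemma lip (f : ℝ → ℂ) (hf : ContDiff ℝ 1 f) (a b : ℝ) :
    ∃ C : ℝ, 0 ≤ C ∧ ∀ s ∈ Icc a b, ∀ t ∈ Icc a b, ‖f s - f t‖ ≤ C * |s - t| := by
  have hd : Continuous (deriv f) := hf.continuous_deriv (by norm_num)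
  obtain ⟨C, hC⟩ := (isCompact_Icc (a := a) (b := b)).exists_bound_of_continuousOn hd.continuousOn
  refine ⟨max C 0, le_max_right _ _, fun s hs t ht => ?_⟩
  have h1 := Convex.norm_image_sub_le_of_norm_deriv_le (f := f) (s := Icc a b) (C := max C 0)
    (fun x _ => (hf.differentiable (by norm_num)) x)
    (fun x hx => (hC x hx).trans (le_max_left _ _)) (convex_Icc a b) ht hs
  rw [Real.norm_eq_abs] at h1
  exact h1

end XArcC

/-- [d2a4bb CV ArcC] -/
theorem prf_ArcC : S_ArcC := by
  intro γ a b hab hc hne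
  set F : ℝ → ℂ := fun t => ((γ t : ℍ) : ℂ) with hF
  have hF' : ContDiff ℝ 1 (deriv F) := by
    have h2 : ContDiff ℝ (1 + 1) F := by
      have : (1 + 1 : WithTop ℕ∞) = 2 := by norm_num
      rw [this]; exact hc
    exact (contDiff_succ_iff_deriv.1 h2).2.2
  obtain ⟨C, hC0, hC⟩ := XArcC.lip (deriv F) hF' a b
  have hba : 0 < b - a := by linarith
  refine ⟨1, (b - a) * (C * (b - a)), fun t => ((b - a : ℝ) : ℂ) * deriv F (a + (b - a) * t),
    by norm_num, ?_, ?_, ?_⟩
  · intro t _
    have h1 : HasDerivAt F (deriv F (a + (b - a) * t)) (a + (b - a) * t) :=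
      (hc.differentiable (by norm_num) _).hasDerivAt
    have h2 : HasDerivAt (fun s : ℝ => a + (b - a) * s) (b - a) t := by
      simpa using ((hasDerivAt_id t).const_mul (b - a)).const_add a
    have h3 := h1.scomp t h2
    have h4 : HasDerivAt (fun s : ℝ => F (a + (b - a) * s))
        (((b - a : ℝ) : ℂ) * deriv F (a + (b - a) * t)) t := by
      simpa [Function.comp_def] using h3
    exact h4.hasDerivWithinAt
  · intro t _
    refine mul_ne_zero ?_ (hne _)
    exact_mod_cast hba.ne'
  · intro s hs t ht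
    have m1 : ∀ x ∈ Icc (0 : ℝ) 1, a + (b - a) * x ∈ Icc a b := by
      intro x hx
      constructor
      · nlinarith [hx.1]
      · nlinarith [hx.2]
    have h1 := hC _ (m1 s hs) _ (m1 t ht)
    rw [← mul_sub, norm_mul, Complex.norm_real, Real.norm_eq_abs, abs_of_pos hba, Real.rpow_one]
    have h2 : |a + (b - a) * s - (a + (b - a) * t)| = (b - a) * |s - t| := by
      rw [show a + (b - a) * s - (a + (b - a) * t) = (b - a) * (s - t) by ring, abs_mul,
        abs_of_pos hba]
    rw [h2] at h1
    calc (b - a) * ‖deriv F (a + (b - a) * s) - deriv F (a + (b - a) * t)‖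
        ≤ (b - a) * (C * ((b - a) * |s - t|)) := mul_le_mul_of_nonneg_left h1 hba.le
      _ = (b - a) * (C * (b - a)) * |s - t| := by ring

end Pool.Agent.HoloQUE
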