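import Pool.Agent.Work.MP_d2a4bb_nt.CV.Stmts

/-!
# Block [d2a4bb CV], item ArcM: a Hölder arc has uniform bounds
-/

set_option autoImplicit false

open MeasureTheory UpperHalfPlane Matrix HQ Set Filter Topology
open scoped MatrixGroups ModularForm Manifold ENNReal Classical ComplexConjugate

noncomputable section

namespace Pool.Agent.HoloQUE

namespace XArcM

/-- The Hölder exponent may be decreased. -/
theorem holder_min {γ' : ℝ → ℂ} {α H : ℝ} (hα : 1 / 2 < α)
    (hH : ∀ s ∈ Icc (0 : ℝ) 1, ∀ t ∈ Icc (0 : ℝ) 1, ‖γ' s - γ' t‖ ≤ H * |s - t| ^ α) :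
    ∀ s ∈ Icc (0 : ℝ) 1, ∀ t ∈ Icc (0 : ℝ) 1, ‖γ' s - γ' t‖ ≤ |H| * |s - t| ^ (min α 1) := by
  intro s hs t ht
  have h1 : |s - t| ≤ 1 := by
    rw [abs_le]
    constructor <;> linarith [hs.1, hs.2, ht.1, ht.2]
  have hb : 1 / 2 < min α 1 := lt_min hα (by norm_num)
  refine (hH s hs t ht).trans (mul_le_mul (le_abs_self H) ?_
    (Real.rpow_nonneg (abs_nonneg _) _) (abs_nonneg H))
  rcases eq_or_lt_of_le (abs_nonneg (s - t)) with h0 | h0
  · rw [← h0, Real.zero_rpow (by linarith), Real.zero_rpow (by linarith)]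
  · exact Real.rpow_le_rpow_of_exponent_ge h0 h1 (min_le_left _ _)

/-- A function with a Hölder bound is continuous. -/
theorem cont {γ' : ℝ → ℂ} {β H : ℝ} (hβ : 0 < β)
    (hH : ∀ s ∈ Icc (0 : ℝ) 1, ∀ t ∈ Icc (0 : ℝ) 1, ‖γ' s - γ' t‖ ≤ H * |s - t| ^ β) :
    ContinuousOn γ' (Icc 0 1) := by
  intro t ht
  rw [ContinuousWithinAt, tendsto_iff_norm_sub_tendsto_zero]
  have h2 : Continuous fun s : ℝ => H * |s - t| ^ β :=
    continuous_const.mul (((continuous_id.sub continuous_const).abs).rpow_const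
      (fun _ => _root_.Or.inr hβ.le))
  have h3 : Tendsto (fun s : ℝ => H * |s - t| ^ β) (𝓝[Icc 0 1] t) (𝓝 0) := by
    have h4 := h2.tendsto t
    rw [sub_self, abs_zero, Real.zero_rpow hβ.ne', mul_zero] at h4
    exact h4.mono_left nhdsWithin_le_nhds
  refine squeeze_zero' (Eventually.of_forall fun _ => norm_nonneg _) ?_ h3
  filter_upwards [self_mem_nhdsWithin] with s hs
  exact hH s hs t ht

end XArcM

open XArcM in
theorem prf_ArcM : S_ArcM := by
  rintro γ ⟨α, H, γ', hα, hd, hne, hH⟩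
  have hb : 1 / 2 < min α 1 := lt_min hα (by norm_num)
  have hol := holder_min hα hH
  have hc : ContinuousOn γ' (Icc 0 1) := cont (by linarith) hol
  have hγc : ContinuousOn (fun s => ((γ s : ℍ) : ℂ)) (Icc 0 1) := fun t ht =>
    (hd t ht).continuousWithinAt
  have hγ : ContinuousOn γ (Icc 0 1) := UpperHalfPlane.isEmbedding_coe.continuousOn_iff.2 hγc
  obtain ⟨B, hB⟩ := isCompact_Icc.exists_bound_of_continuousOn hc
  obtain ⟨t₀, ht₀, hmin⟩ := isCompact_Icc.exists_isMinOn (nonempty_Icc.2 zero_le_one) hc.norm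
  have hpos : 0 < ‖γ' t₀‖ := norm_pos_iff.2 (hne t₀ ht₀)
  have hdI : ContinuousOn (fun t => dist (γ t) (I : ℍ)) (Icc 0 1) :=
    (continuous_id.dist continuous_const).comp_continuousOn hγ
  obtain ⟨D, hD⟩ := isCompact_Icc.exists_bound_of_continuousOn hdI
  refine ⟨min α 1, max 1 (max (1 / ‖γ' t₀‖) (max B (max |H| D))), γ', hb, min_le_right _ _,
    le_max_left _ _, hd, fun t ht => ?_, fun t ht => ?_, fun s hs t ht => ?_, fun t ht => ?_⟩
  · have h1 : 1 / ‖γ' t₀‖ ≤ max 1 (max (1 / ‖γ' t₀‖) (max B (max |H| D))) :=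
      (le_max_left _ _).trans (le_max_right _ _)
    have h2 : 0 < max 1 (max (1 / ‖γ' t₀‖) (max B (max |H| D))) :=
      lt_of_lt_of_le one_pos (le_max_left _ _)
    have h3 : ‖γ' t₀‖ ≤ ‖γ' t‖ := hmin ht
    refine le_trans ?_ h3
    rw [div_le_iff₀ h2]
    rw [div_le_iff₀ hpos] at h1
    linarith
  · exact (hB t ht).trans ((le_max_left _ _).trans ((le_max_right _ _).trans (le_max_right _ _)))
  · refine (hol s hs t ht).trans (mul_le_mul_of_nonneg_right ?_ (Real.rpow_nonneg (abs_nonneg _) _))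
    exact (le_max_left _ _).trans ((le_max_right _ _).trans ((le_max_right _ _).trans
      (le_max_right _ _)))
  · have h1 := hD t ht
    rw [Real.norm_eq_abs, abs_of_nonneg dist_nonneg] at h1
    exact h1.trans ((le_max_right _ _).trans ((le_max_right _ _).trans ((le_max_right _ _).trans
      (le_max_right _ _))))

end Pool.Agent.HoloQUE
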