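import Pool.Agent.Work.MP_d2a4bb_nt.CV.Stmts

/-!
# Item BoxG: elements which move a short piece of an arc to its neighbourhood
-/

set_option autoImplicit false

open MeasureTheory UpperHalfPlane Matrix HQ Set
open scoped MatrixGroups ModularForm Manifold ENNReal Classical ComplexConjugate

noncomputable section

namespace Pool.Agent.HoloQUE

namespace XBoxG

theorem im_rel {a b c d : ℝ} {z w : ℂ} (hdet : a * d - b * c = 1)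
    (h : w * ((c : ℂ) * z + d) = a * z + b) :
    w.im * Complex.normSq ((c : ℂ) * z + d) = z.im := by
  have h1 : w * (Complex.normSq ((c : ℂ) * z + d) : ℂ) = (a * z + b) * conj ((c : ℂ) * z + d) := by
    rw [← h, mul_assoc, Complex.mul_conj]
  have h2 := congrArg Complex.im h1
  rw [Complex.im_mul_ofReal] at h2
  rw [h2]
  simp
  linear_combination z.im * hdet

theorem j_bd {L N x y : ℝ} (hL : 1 ≤ L) (hrel : y * N = x) (hx : 1 / L ≤ x) (hx' : x ≤ L)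
    (hy : 1 / L ≤ y) (hy' : y ≤ L) (hN : 0 ≤ N) : 1 / L ^ 2 ≤ N ∧ N ≤ L ^ 2 := by
  have hL0 : 0 < L := by linarith
  have hy1 : 1 ≤ L * y := by
    rw [div_le_iff₀ hL0] at hy
    linarith
  constructor
  · rw [div_le_iff₀ (by positivity)]
    rw [div_le_iff₀ hL0] at hx
    calc (1 : ℝ) ≤ x * L := hx
      _ = y * N * L := by rw [hrel]
      _ ≤ L * N * L := by gcongr
      _ = N * L ^ 2 := by ring
  · calc N = 1 * N := (one_mul N).symm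
      _ ≤ L * y * N := by gcongr
      _ = L * x := by rw [← hrel]; ring
      _ ≤ L * L := by gcongr
      _ = L ^ 2 := by ring

theorem stepB {L θ r ρ S : ℝ} {Z v : ℂ} (hL : 1 ≤ L) (hθ0 : 0 ≤ θ) (hθ : 36 * L ^ 4 * θ ≤ 1)
    (hv : 1 / L ≤ ‖v‖) (hv' : ‖v‖ ≤ L) (hr : r ≤ ρ * θ) (hρ : ρ ≤ L * ‖Z‖)
    (hE : ‖Z - (S : ℂ) * v‖ ≤ |S| * (L * θ) + 2 * L * r) :
    ‖Z‖ ≤ 4 * L * |S| ∧ ‖Z - (S : ℂ) * v‖ ≤ 9 * L ^ 3 * θ * |S| ∧ |S| ≤ 2 * L * ‖Z‖ := by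
  have hL0 : 0 < L := by linarith
  have hZ : 0 ≤ ‖Z‖ := norm_nonneg _
  have hS : 0 ≤ |S| := abs_nonneg _
  have hL2 : 1 ≤ L ^ 2 := one_le_pow₀ hL
  have hL24 : L ^ 2 ≤ L ^ 4 := pow_le_pow_right₀ hL (by norm_num)
  have hL4 : 1 ≤ L ^ 4 := one_le_pow₀ hL
  have hθ1 : θ ≤ 1 / 36 := by
    have : θ ≤ L ^ 4 * θ := le_mul_of_one_le_left hθ0 hL4
    linarith
  have hθ2 : L ^ 2 * θ ≤ 1 / 36 := by
    have : L ^ 2 * θ ≤ L ^ 4 * θ := by gcongr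
    linarith
  have hθ4 : L ^ 4 * θ ≤ 1 / 36 := by linarith
  have h2r : 2 * L * r ≤ 2 * (L ^ 2 * θ) * ‖Z‖ := by
    calc 2 * L * r ≤ 2 * L * (ρ * θ) := by gcongr
      _ ≤ 2 * L * (L * ‖Z‖ * θ) := by gcongr
      _ = 2 * (L ^ 2 * θ) * ‖Z‖ := by ring
  have hSv : ‖(S : ℂ) * v‖ = |S| * ‖v‖ := by
    rw [norm_mul, Complex.norm_real, Real.norm_eq_abs]
  have hZ1 : ‖Z‖ ≤ ‖Z - (S : ℂ) * v‖ + |S| * ‖v‖ := by
    have := norm_add_le (Z - (S : ℂ) * v) ((S : ℂ) * v)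
    rw [sub_add_cancel, hSv] at this
    exact this
  have hZ2 : |S| * ‖v‖ ≤ ‖Z - (S : ℂ) * v‖ + ‖Z‖ := by
    have := norm_sub_le Z (Z - (S : ℂ) * v)
    rw [sub_sub_cancel, hSv] at this
    linarith
  have hA : ‖Z‖ ≤ 4 * L * |S| := by
    have e1 : |S| * ‖v‖ ≤ |S| * L := by gcongr
    have e2 : |S| * (L * θ) ≤ |S| * (L * 1) := by
      gcongr
      linarith
    have e3 : 2 * (L ^ 2 * θ) * ‖Z‖ ≤ 2 * (1 / 36) * ‖Z‖ := by gcongr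
    nlinarith
  have hB : ‖Z - (S : ℂ) * v‖ ≤ 9 * L ^ 3 * θ * |S| := by
    have e1 : 2 * (L ^ 2 * θ) * ‖Z‖ ≤ 2 * (L ^ 2 * θ) * (4 * L * |S|) := by gcongr
    have e2 : |S| * (L * θ) ≤ |S| * (L ^ 3 * θ) := by
      gcongr
      calc L = L ^ 1 := (pow_one L).symm
        _ ≤ L ^ 3 := pow_le_pow_right₀ hL (by norm_num)
    nlinarith
  refine ⟨hA, hB, ?_⟩
  have e1 : 9 * L ^ 3 * θ * |S| * L ≤ 1 / 4 * |S| := by
    calc 9 * L ^ 3 * θ * |S| * L = 9 * (L ^ 4 * θ) * |S| := by ring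
      _ ≤ 9 * (1 / 36) * |S| := by gcongr
      _ = 1 / 4 * |S| := by ring
  have e2 : |S| ≤ |S| * ‖v‖ * L := by
    rw [div_le_iff₀ hL0] at hv
    calc |S| = |S| * 1 := (mul_one _).symm
      _ ≤ |S| * (‖v‖ * L) := by gcongr
      _ = _ := by ring
  have e3 : |S| * ‖v‖ * L ≤ (9 * L ^ 3 * θ * |S| + ‖Z‖) * L := by
    gcongr
    linarith
  have e4 : 0 ≤ ‖Z‖ * L := by positivity
  nlinarith

/-- Steps C and D: the square of `j` is almost real. -/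
theorem stepD {L θ τ r ρ S T c : ℝ} {Z W v j j₂ : ℂ} (hL : 1 ≤ L) (hθ0 : 0 ≤ θ)
    (hτθ : τ ≤ θ) (hθ : 36 * L ^ 4 * θ ≤ 1)
    (hv : 1 / L ≤ ‖v‖) (hv' : ‖v‖ ≤ L) (hr : r ≤ ρ * θ) (hρ0 : 0 < ρ) (hρ1 : ρ ≤ L * ‖Z‖)
    (hρ2 : ρ ≤ L * ‖W‖)
    (hE1 : ‖Z - (S : ℂ) * v‖ ≤ |S| * (L * θ) + 2 * L * r)
    (hE2 : ‖W - (T : ℂ) * v‖ ≤ |T| * (L * θ) + 2 * L * r) (hT : |T| ≤ τ)
    (hj : ‖j‖ ≤ L) (hj₂ : ‖j₂‖ ≤ L) (hc : |c| ≤ L ^ 2) (hZW : j * j₂ * W = Z)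
    (hjj : j = j₂ + c * Z) : |(j ^ 2).im| ≤ 209 * L ^ 10 * θ := by
  obtain ⟨hZ1, hZ2, hZ3⟩ := stepB hL hθ0 hθ hv hv' hr hρ1 hE1
  obtain ⟨hW1, hW2, hW3⟩ := stepB hL hθ0 hθ hv hv' hr hρ2 hE2
  have hL0 : 0 < L := by linarith
  have hW0 : 0 < ‖W‖ := by
    by_contra hcon
    have h1 : ‖W‖ ≤ 0 := not_lt.1 hcon
    have h2 : L * ‖W‖ ≤ 0 := mul_nonpos_of_nonneg_of_nonpos hL0.le h1
    linarith
  have hT0 : 0 < |T| := by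
    by_contra hcon
    have h1 : |T| ≤ 0 := not_lt.1 hcon
    have h2 : 4 * L * |T| ≤ 0 := mul_nonpos_of_nonneg_of_nonpos (by positivity) h1
    linarith
  have hS0 : 0 ≤ |S| := abs_nonneg _
  have hST : |S| ≤ 8 * L ^ 4 * |T| := by
    have h1 : ‖Z‖ ≤ L ^ 2 * (4 * L * |T|) := by
      rw [← hZW, norm_mul, norm_mul]
      calc ‖j‖ * ‖j₂‖ * ‖W‖ ≤ L * L * (4 * L * |T|) := by gcongr
        _ = _ := by ring
    calc |S| ≤ 2 * L * ‖Z‖ := hZ3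
      _ ≤ 2 * L * (L ^ 2 * (4 * L * |T|)) := by gcongr
      _ = 8 * L ^ 4 * |T| := by ring
  have hkey : v * ((T : ℂ) * j ^ 2 - S) =
      (Z - (S : ℂ) * v) + c * j * Z * W - j ^ 2 * (W - (T : ℂ) * v) := by
    have h1 : j ^ 2 * W = Z + c * j * Z * W := by
      calc j ^ 2 * W = j * j * W := by ring
        _ = j * (j₂ + c * Z) * W := by rw [← hjj]
        _ = j * j₂ * W + c * j * Z * W := by ring
        _ = _ := by rw [hZW]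
    linear_combination h1
  have hR : ‖v * ((T : ℂ) * j ^ 2 - S)‖ ≤ 209 * L ^ 9 * θ * |T| := by
    rw [hkey]
    have h1 := norm_sub_le ((Z - (S : ℂ) * v) + c * j * Z * W) (j ^ 2 * (W - (T : ℂ) * v))
    have h2 := norm_add_le (Z - (S : ℂ) * v) (c * j * Z * W)
    have h3 : ‖(c : ℂ) * j * Z * W‖ ≤ 128 * L ^ 9 * θ * |T| := by
      rw [norm_mul, norm_mul, norm_mul, Complex.norm_real, Real.norm_eq_abs]
      have e1 : ‖Z‖ ≤ 4 * L * (8 * L ^ 4 * |T|) := by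
        calc ‖Z‖ ≤ 4 * L * |S| := hZ1
          _ ≤ _ := by gcongr
      have e2 : ‖W‖ ≤ 4 * L * θ := by
        calc ‖W‖ ≤ 4 * L * |T| := hW1
          _ ≤ 4 * L * τ := by gcongr
          _ ≤ 4 * L * θ := by gcongr
      calc |c| * ‖j‖ * ‖Z‖ * ‖W‖ ≤ L ^ 2 * L * (4 * L * (8 * L ^ 4 * |T|)) * (4 * L * θ) := by
            gcongr
        _ = _ := by ring
    have h4 : ‖Z - (S : ℂ) * v‖ ≤ 72 * L ^ 9 * θ * |T| := by
      calc ‖Z - (S : ℂ) * v‖ ≤ 9 * L ^ 3 * θ * |S| := hZ2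
        _ ≤ 9 * L ^ 3 * θ * (8 * L ^ 4 * |T|) := by gcongr
        _ = 72 * L ^ 7 * θ * |T| := by ring
        _ ≤ 72 * L ^ 9 * θ * |T| := by
            have : L ^ 7 ≤ L ^ 9 := pow_le_pow_right₀ hL (by norm_num)
            gcongr
    have h5 : ‖j ^ 2 * (W - (T : ℂ) * v)‖ ≤ 9 * L ^ 9 * θ * |T| := by
      rw [norm_mul, norm_pow]
      calc ‖j‖ ^ 2 * ‖W - (T : ℂ) * v‖ ≤ L ^ 2 * (9 * L ^ 3 * θ * |T|) := by gcongr
        _ = 9 * L ^ 5 * θ * |T| := by ring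
        _ ≤ 9 * L ^ 9 * θ * |T| := by
            have : L ^ 5 ≤ L ^ 9 := pow_le_pow_right₀ hL (by norm_num)
            gcongr
    linarith
  have h6 : ‖(T : ℂ) * j ^ 2 - S‖ ≤ 209 * L ^ 10 * θ * |T| := by
    rw [norm_mul] at hR
    rw [div_le_iff₀ hL0] at hv
    calc ‖(T : ℂ) * j ^ 2 - S‖ = 1 * ‖(T : ℂ) * j ^ 2 - S‖ := (one_mul _).symm
      _ ≤ ‖v‖ * L * ‖(T : ℂ) * j ^ 2 - S‖ := by gcongr
      _ = ‖v‖ * ‖(T : ℂ) * j ^ 2 - S‖ * L := by ring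
      _ ≤ 209 * L ^ 9 * θ * |T| * L := by gcongr
      _ = _ := by ring
  have h7 : |T| * |(j ^ 2).im| ≤ 209 * L ^ 10 * θ * |T| := by
    have h8 := Complex.abs_im_le_norm ((T : ℂ) * j ^ 2 - S)
    rw [Complex.sub_im, Complex.im_ofReal_mul, Complex.ofReal_im, sub_zero, abs_mul] at h8
    linarith
  have h9 : |(j ^ 2).im| * |T| ≤ 209 * L ^ 10 * θ * |T| := by linarith
  exact le_of_mul_le_mul_right h9 hT0

/-- Step E: the imaginary part of `j` is small. -/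
theorem stepE {L D : ℝ} {j : ℂ} (hL : 1 ≤ L) (hD : 0 ≤ D) (hj : 1 / L ^ 2 ≤ ‖j‖ ^ 2)
    (hre : 0 ≤ (j ^ 2).re) (him : |(j ^ 2).im| ≤ D) : |j.im| ≤ L * D := by
  have hL0 : 0 < L := by linarith
  have h1 : ‖j‖ ^ 2 = j.re ^ 2 + j.im ^ 2 := by
    rw [Complex.sq_norm, Complex.normSq_apply]
    ring
  have h2 : (j ^ 2).re = j.re ^ 2 - j.im ^ 2 := by
    rw [sq, Complex.mul_re]
    ring
  have h3 : (j ^ 2).im = 2 * j.re * j.im := by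
    rw [sq, Complex.mul_im]
    ring
  rw [h1, div_le_iff₀ (by positivity)] at hj
  rw [h2] at hre
  rw [h3] at him
  have h4 : 1 ≤ 2 * j.re ^ 2 * L ^ 2 := by
    have : (j.re ^ 2 + j.im ^ 2) * L ^ 2 ≤ (2 * j.re ^ 2) * L ^ 2 := by
      gcongr
      linarith
    linarith
  have h5 : (2 * j.re * j.im) ^ 2 ≤ D ^ 2 := by
    rw [← sq_abs]
    gcongr
  have h6 : j.im ^ 2 ≤ (L * D) ^ 2 := by
    calc j.im ^ 2 = 1 * j.im ^ 2 := (one_mul _).symm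
      _ ≤ (2 * j.re ^ 2 * L ^ 2) * j.im ^ 2 := by gcongr
      _ = L ^ 2 * (2 * j.re * j.im) ^ 2 / 2 := by ring
      _ ≤ L ^ 2 * D ^ 2 / 2 := by gcongr
      _ ≤ (L * D) ^ 2 := by
        have : 0 ≤ (L * D) ^ 2 := sq_nonneg _
        have e : L ^ 2 * D ^ 2 = (L * D) ^ 2 := by ring
        rw [e]
        linarith
  exact abs_le_of_sq_le_sq h6 (by positivity)

theorem core {L θ τ r ρ a b c d s₁ s₂ t₁ t₂ : ℝ} {z₀ z₁ z₂ w₁ w₂ v : ℂ} (hL : 1 ≤ L)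
    (hτ0 : 0 < τ) (hτθ : τ ≤ θ) (hθ : 36 * L ^ 4 * θ ≤ 1) (hdet : a * d - b * c = 1)
    (hv : 1 / L ≤ ‖v‖) (hv' : ‖v‖ ≤ L)
    (hz₁ : 1 / L ≤ z₁.im) (hz₁' : z₁.im ≤ L) (hz₂ : 1 / L ≤ z₂.im) (hz₂' : z₂.im ≤ L)
    (hw₁ : 1 / L ≤ w₁.im) (hw₁' : w₁.im ≤ L) (hw₂ : 1 / L ≤ w₂.im) (hw₂' : w₂.im ≤ L)
    (hn₀ : ‖z₀‖ ≤ L) (hn₁ : ‖z₁‖ ≤ L)
    (h1 : w₁ * ((c : ℂ) * z₁ + d) = a * z₁ + b) (h2 : w₂ * ((c : ℂ) * z₂ + d) = a * z₂ + b)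
    (hT : |t₁ - t₂| ≤ τ) (hU : |t₁ - s₁| ≤ τ)
    (hE1 : ‖z₁ - z₂ - ((s₁ - s₂ : ℝ) : ℂ) * v‖ ≤ |s₁ - s₂| * (L * θ) + 2 * L * r)
    (hE2 : ‖w₁ - w₂ - ((t₁ - t₂ : ℝ) : ℂ) * v‖ ≤ |t₁ - t₂| * (L * θ) + 2 * L * r)
    (hE3 : ‖w₁ - z₁ - ((t₁ - s₁ : ℝ) : ℂ) * v‖ ≤ |t₁ - s₁| * (L * θ) + 2 * L * r)
    (hE0 : ‖z₀ - z₁‖ ≤ L * τ)
    (hr : r ≤ ρ * θ) (hρτ : ρ ≤ τ) (hρ0 : 0 < ρ) (hρ1 : ρ ≤ L * ‖z₁ - z₂‖)
    (hρ2 : ρ ≤ L * ‖w₁ - w₂‖) (hor : 0 ≤ (((c : ℂ) * z₁ + d) ^ 2).re) :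
    |c| ≤ 1053 * L ^ 14 * θ ∧
    |((-(c : ℂ) * z₀ ^ 2 + ((a - d : ℝ) : ℂ) * z₀ + b) * conj (v / (‖v‖ : ℂ))).re| ≤
      1053 * L ^ 14 * τ ∧
    |((-(c : ℂ) * z₀ ^ 2 + ((a - d : ℝ) : ℂ) * z₀ + b) * conj (v / (‖v‖ : ℂ))).im| ≤
      1053 * L ^ 14 * (τ * θ) := by
  have hL0 : 0 < L := by linarith
  have hθ0 : 0 ≤ θ := by linarith
  set j : ℂ := (c : ℂ) * z₁ + d with hj_def
  set j₂ : ℂ := (c : ℂ) * z₂ + d with hj₂_def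
  -- bounds for `j`, `j₂`
  obtain ⟨hN1, hN1'⟩ := j_bd hL (im_rel hdet h1) hz₁ hz₁' hw₁ hw₁' (Complex.normSq_nonneg _)
  obtain ⟨hN2, hN2'⟩ := j_bd hL (im_rel hdet h2) hz₂ hz₂' hw₂ hw₂' (Complex.normSq_nonneg _)
  rw [← Complex.sq_norm] at hN1 hN1' hN2 hN2'
  have hj : ‖j‖ ≤ L := (pow_le_pow_iff_left₀ (norm_nonneg _) hL0.le two_ne_zero).1 hN1'
  have hj₂ : ‖j₂‖ ≤ L := (pow_le_pow_iff_left₀ (norm_nonneg _) hL0.le two_ne_zero).1 hN2'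
  have hjim : j.im = c * z₁.im := by
    rw [hj_def]
    simp
  have hcj : |c| ≤ |j.im| * L := by
    rw [hjim, abs_mul]
    have h3 : |z₁.im| = z₁.im := abs_of_pos (lt_of_lt_of_le (by positivity) hz₁)
    rw [h3]
    rw [div_le_iff₀ hL0] at hz₁
    calc |c| = |c| * 1 := (mul_one _).symm
      _ ≤ |c| * (z₁.im * L) := by gcongr
      _ = _ := by ring
  have hc2 : |c| ≤ L ^ 2 := by
    calc |c| ≤ |j.im| * L := hcj
      _ ≤ ‖j‖ * L := by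
          gcongr
          exact Complex.abs_im_le_norm j
      _ ≤ L * L := by gcongr
      _ = L ^ 2 := by ring
  -- the relation between the differences
  have hdetC : (a : ℂ) * d - b * c = 1 := by exact_mod_cast hdet
  have hZW : j * j₂ * (w₁ - w₂) = z₁ - z₂ := by
    calc j * j₂ * (w₁ - w₂) = j₂ * (w₁ * j) - j * (w₂ * j₂) := by ring
      _ = j₂ * (a * z₁ + b) - j * (a * z₂ + b) := by rw [h1, h2]
      _ = (a * d - b * c) * (z₁ - z₂) := by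
          rw [hj_def, hj₂_def]
          ring
      _ = _ := by rw [hdetC, one_mul]
  have hjj : j = j₂ + c * (z₁ - z₂) := by
    rw [hj_def, hj₂_def]
    ring
  have hD := stepD hL hθ0 hτθ hθ hv hv' hr hρ0 hρ1 hρ2 hE1 hE2 hT hj hj₂ hc2 hZW hjj
  have hE := stepE hL (by positivity) hN1 hor hD
  have hy : |j.im| ≤ 209 * L ^ 11 * θ := by
    calc |j.im| ≤ L * (209 * L ^ 10 * θ) := hE
      _ = _ := by ring
  have hc : |c| ≤ 209 * L ^ 12 * θ := by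
    calc |c| ≤ |j.im| * L := hcj
      _ ≤ 209 * L ^ 11 * θ * L := by gcongr
      _ = _ := by ring
  -- step F
  have hrτ : r ≤ τ * θ := by
    calc r ≤ ρ * θ := hr
      _ ≤ τ * θ := by gcongr
  have he : ‖w₁ - z₁ - ((t₁ - s₁ : ℝ) : ℂ) * v‖ ≤ 3 * L * (τ * θ) := by
    calc ‖w₁ - z₁ - ((t₁ - s₁ : ℝ) : ℂ) * v‖ ≤ |t₁ - s₁| * (L * θ) + 2 * L * r := hE3
      _ ≤ τ * (L * θ) + 2 * L * (τ * θ) := by gcongr
      _ = _ := by ring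
  have hθ1 : θ ≤ 1 / 36 := by
    have hL4 : 1 ≤ L ^ 4 := one_le_pow₀ hL
    have : θ ≤ L ^ 4 * θ := le_mul_of_one_le_left hθ0 hL4
    linarith
  have huv : ‖((t₁ - s₁ : ℝ) : ℂ) * v‖ ≤ τ * L := by
    rw [norm_mul, Complex.norm_real, Real.norm_eq_abs]
    gcongr
  have hwz : ‖w₁ - z₁‖ ≤ 4 * L * τ := by
    have h3 := norm_add_le (w₁ - z₁ - ((t₁ - s₁ : ℝ) : ℂ) * v) (((t₁ - s₁ : ℝ) : ℂ) * v)
    rw [sub_add_cancel] at h3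
    have h4 : 3 * L * (τ * θ) ≤ 3 * L * (τ * 1) := by
      gcongr
      linarith
    linarith
  set Q₁ : ℂ := -(c : ℂ) * z₁ ^ 2 + ((a - d : ℝ) : ℂ) * z₁ + b with hQ₁
  set Q₀ : ℂ := -(c : ℂ) * z₀ ^ 2 + ((a - d : ℝ) : ℂ) * z₀ + b with hQ₀
  have hQ₁' : Q₁ = j * (w₁ - z₁) := by
    have h3 : j * (w₁ - z₁) = w₁ * j - z₁ * j := by ring
    rw [h3, h1, hQ₁, hj_def]
    push_cast
    ring
  have hQ₁n : ‖Q₁‖ ≤ 4 * L ^ 2 * τ := by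
    rw [hQ₁', norm_mul]
    calc ‖j‖ * ‖w₁ - z₁‖ ≤ L * (4 * L * τ) := by gcongr
      _ = _ := by ring
  have hF : ‖Q₁ - ((j.re * (t₁ - s₁) : ℝ) : ℂ) * v‖ ≤ 212 * L ^ 12 * (τ * θ) := by
    have h3 : Q₁ - ((j.re * (t₁ - s₁) : ℝ) : ℂ) * v =
        (j.im : ℂ) * Complex.I * (((t₁ - s₁ : ℝ) : ℂ) * v) +
          j * (w₁ - z₁ - ((t₁ - s₁ : ℝ) : ℂ) * v) := by
      have h4 : (j.im : ℂ) * Complex.I = j - j.re := by
        rw [eq_sub_iff_add_eq, add_comm]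
        exact Complex.re_add_im j
      rw [h4, hQ₁']
      push_cast
      ring
    rw [h3]
    have h5 : ‖(j.im : ℂ) * Complex.I * (((t₁ - s₁ : ℝ) : ℂ) * v)‖ ≤
        209 * L ^ 12 * (τ * θ) := by
      rw [norm_mul, norm_mul, Complex.norm_I, mul_one, Complex.norm_real, Real.norm_eq_abs]
      calc |j.im| * ‖((t₁ - s₁ : ℝ) : ℂ) * v‖ ≤ (209 * L ^ 11 * θ) * (τ * L) := by gcongr
        _ = _ := by ring
    have h6 : ‖j * (w₁ - z₁ - ((t₁ - s₁ : ℝ) : ℂ) * v)‖ ≤ 3 * L ^ 12 * (τ * θ) := by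
      rw [norm_mul]
      calc ‖j‖ * ‖w₁ - z₁ - ((t₁ - s₁ : ℝ) : ℂ) * v‖ ≤ L * (3 * L * (τ * θ)) := by gcongr
        _ = 3 * L ^ 2 * (τ * θ) := by ring
        _ ≤ 3 * L ^ 12 * (τ * θ) := by
            have : L ^ 2 ≤ L ^ 12 := pow_le_pow_right₀ hL (by norm_num)
            gcongr
    have h7 := norm_add_le ((j.im : ℂ) * Complex.I * (((t₁ - s₁ : ℝ) : ℂ) * v))
      (j * (w₁ - z₁ - ((t₁ - s₁ : ℝ) : ℂ) * v))
    linarith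
  -- the difference of the diagonal entries
  have had : |a - d| ≤ 422 * L ^ 13 * θ := by
    have h3 : Q₁.im = (a - d) * z₁.im - c * (2 * z₁.re * z₁.im) := by
      rw [hQ₁]
      simp [sq]
      ring
    have h4 : (a - d) * z₁.im = Q₁.im + c * (2 * z₁.re * z₁.im) := by linarith
    have h5 : |a - d| * z₁.im ≤ 4 * L ^ 2 * τ + 209 * L ^ 12 * θ * (2 * L * z₁.im) := by
      have h6 : |z₁.im| = z₁.im := abs_of_pos (lt_of_lt_of_le (by positivity) hz₁)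
      have h7 : |a - d| * z₁.im = |Q₁.im + c * (2 * z₁.re * z₁.im)| := by
        rw [← h4, abs_mul, h6]
      rw [h7]
      have h8 : |c * (2 * z₁.re * z₁.im)| ≤ 209 * L ^ 12 * θ * (2 * L * z₁.im) := by
        rw [abs_mul, abs_mul, abs_mul, h6, abs_two]
        have h9 : |z₁.re| ≤ L := (Complex.abs_re_le_norm _).trans hn₁
        have h10 : 0 ≤ z₁.im := by
          rw [← h6]
          exact abs_nonneg _
        gcongr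
      have h11 : |Q₁.im| ≤ 4 * L ^ 2 * τ := (Complex.abs_im_le_norm _).trans hQ₁n
      exact (abs_add_le _ _).trans (add_le_add h11 h8)
    have hzp : 0 < z₁.im := lt_of_lt_of_le (by positivity) hz₁
    have h12 : |a - d| * z₁.im ≤ 422 * L ^ 13 * θ * z₁.im := by
      have h13 : 4 * L ^ 2 * τ ≤ 4 * L ^ 13 * θ * z₁.im := by
        rw [div_le_iff₀ hL0] at hz₁
        calc 4 * L ^ 2 * τ ≤ 4 * L ^ 2 * θ := by gcongr
          _ = 4 * L ^ 2 * θ * 1 := (mul_one _).symm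
          _ ≤ 4 * L ^ 2 * θ * (z₁.im * L) := by gcongr
          _ = 4 * L ^ 3 * θ * z₁.im := by ring
          _ ≤ 4 * L ^ 13 * θ * z₁.im := by
              have : L ^ 3 ≤ L ^ 13 := pow_le_pow_right₀ hL (by norm_num)
              gcongr
      have h14 : 209 * L ^ 12 * θ * (2 * L * z₁.im) = 418 * L ^ 13 * θ * z₁.im := by ring
      linarith
    exact le_of_mul_le_mul_right h12 hzp
  -- step G
  have hG : ‖Q₀ - Q₁‖ ≤ 840 * L ^ 14 * (τ * θ) := by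
    have h3 : Q₀ - Q₁ = (z₀ - z₁) * (-(c : ℂ) * (z₀ + z₁) + ((a - d : ℝ) : ℂ)) := by
      rw [hQ₀, hQ₁]
      ring
    rw [h3, norm_mul]
    have h4 : ‖-(c : ℂ) * (z₀ + z₁) + ((a - d : ℝ) : ℂ)‖ ≤ 840 * L ^ 13 * θ := by
      have h5 := norm_add_le (-(c : ℂ) * (z₀ + z₁)) (((a - d : ℝ) : ℂ))
      have h6 : ‖-(c : ℂ) * (z₀ + z₁)‖ ≤ 418 * L ^ 13 * θ := by
        rw [norm_mul, norm_neg, Complex.norm_real, Real.norm_eq_abs]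
        have h7 : ‖z₀ + z₁‖ ≤ 2 * L := by
          have := norm_add_le z₀ z₁
          linarith
        calc |c| * ‖z₀ + z₁‖ ≤ 209 * L ^ 12 * θ * (2 * L) := by gcongr
          _ = _ := by ring
      have h8 : ‖((a - d : ℝ) : ℂ)‖ ≤ 422 * L ^ 13 * θ := by
        rw [Complex.norm_real, Real.norm_eq_abs]
        exact had
      linarith
    calc ‖z₀ - z₁‖ * ‖-(c : ℂ) * (z₀ + z₁) + ((a - d : ℝ) : ℂ)‖
        ≤ (L * τ) * (840 * L ^ 13 * θ) := by gcongr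
      _ = _ := by ring
  -- step H
  have hvn : 0 < ‖v‖ := lt_of_lt_of_le (by positivity) hv
  have hvc : (‖v‖ : ℂ) ≠ 0 := by exact_mod_cast hvn.ne'
  have hv₀ : ‖conj (v / (‖v‖ : ℂ))‖ = 1 := by
    rw [RCLike.norm_conj, norm_div, Complex.norm_real, norm_norm, div_self hvn.ne']
  have hvv : v * conj (v / (‖v‖ : ℂ)) = (‖v‖ : ℂ) := by
    rw [map_div₀, Complex.conj_ofReal, mul_div_assoc', Complex.mul_conj, div_eq_iff hvc,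
      Complex.normSq_eq_norm_sq]
    push_cast
    ring
  set E : ℂ := (Q₀ - ((j.re * (t₁ - s₁) : ℝ) : ℂ) * v) * conj (v / (‖v‖ : ℂ)) with hE_def
  have hEn : ‖E‖ ≤ 1052 * L ^ 14 * (τ * θ) := by
    rw [hE_def, norm_mul, hv₀, mul_one]
    have h3 := norm_add_le (Q₀ - Q₁) (Q₁ - ((j.re * (t₁ - s₁) : ℝ) : ℂ) * v)
    rw [sub_add_sub_cancel] at h3
    have h4 : 212 * L ^ 12 * (τ * θ) ≤ 212 * L ^ 14 * (τ * θ) := by
      have : L ^ 12 ≤ L ^ 14 := pow_le_pow_right₀ hL (by norm_num)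
      gcongr
    linarith
  have hQE : Q₀ * conj (v / (‖v‖ : ℂ)) = ((j.re * (t₁ - s₁) * ‖v‖ : ℝ) : ℂ) + E := by
    rw [hE_def, sub_mul, mul_assoc _ v, hvv]
    push_cast
    ring
  have hL12 : L ^ 12 ≤ L ^ 14 := pow_le_pow_right₀ hL (by norm_num)
  have hL14 : 1 ≤ L ^ 14 := one_le_pow₀ hL
  refine ⟨?_, ?_, ?_⟩
  · calc |c| ≤ 209 * L ^ 12 * θ := hc
      _ ≤ 1053 * L ^ 14 * θ := by gcongr; norm_num
  · rw [hQE, Complex.add_re, Complex.ofReal_re]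
    have h3 : |j.re * (t₁ - s₁) * ‖v‖| ≤ L ^ 14 * τ := by
      rw [abs_mul, abs_mul, abs_norm]
      have h4 : |j.re| ≤ L := (Complex.abs_re_le_norm _).trans hj
      calc |j.re| * |t₁ - s₁| * ‖v‖ ≤ L * τ * L := by gcongr
        _ = L ^ 2 * τ := by ring
        _ ≤ L ^ 14 * τ := by
            have : L ^ 2 ≤ L ^ 14 := pow_le_pow_right₀ hL (by norm_num)
            gcongr
    have h5 : |E.re| ≤ 1052 * L ^ 14 * τ := by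
      calc |E.re| ≤ ‖E‖ := Complex.abs_re_le_norm _
        _ ≤ 1052 * L ^ 14 * (τ * θ) := hEn
        _ ≤ 1052 * L ^ 14 * (τ * 1) := by
            gcongr
            linarith
        _ = _ := by ring
    have h6 := abs_add_le (j.re * (t₁ - s₁) * ‖v‖) E.re
    linarith
  · rw [hQE, Complex.add_im, Complex.ofReal_im, zero_add]
    calc |E.im| ≤ ‖E‖ := Complex.abs_im_le_norm _
      _ ≤ 1052 * L ^ 14 * (τ * θ) := hEn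
      _ ≤ 1053 * L ^ 14 * (τ * θ) := by gcongr; norm_num

end XBoxG

open XBoxG

theorem prf_BoxG (h1 : S_Iso) (h3 : S_Cmp) : S_BoxG := by
  intro α M hα1 hα2 hM
  obtain ⟨K, hK, hcmp, harc⟩ := h3 M hM
  have hK0 : 0 < K := by linarith
  have hM0 : 0 < M := by linarith
  have hα0 : 0 < α := by linarith
  have hK2 : K ≤ K ^ 2 := by nlinarith
  have hK21 : 1 ≤ K ^ 2 := one_le_pow₀ hK
  have hKM : K * M ≤ K ^ 2 * M := by gcongr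
  have hKM1 : K ^ 2 ≤ K ^ 2 * M := le_mul_of_one_le_right (by positivity) hM
  have hMK : M ≤ K * M := le_mul_of_one_le_left hM0.le hK
  have hKM' : K ≤ K * M := le_mul_of_one_le_right hK0.le hM
  set L : ℝ := 3 * K ^ 2 * M with hL_def
  have hKL : K ≤ L := by rw [hL_def]; nlinarith
  have hML : M ≤ L := by rw [hL_def]; nlinarith
  have h2K : 2 * K ^ 2 ≤ L := by rw [hL_def]; nlinarith
  have hn : K * (M + 1) + 1 ≤ L := by rw [hL_def]; nlinarith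
  have hL : 1 ≤ L := hK.trans hKL
  have hL0 : 0 < L := by linarith
  have hL4 : 1 ≤ L ^ 4 := one_le_pow₀ hL
  have hcL : 1 / (36 * L ^ 4) ≤ 1 := by
    rw [div_le_one (by positivity)]
    linarith
  have hcL0 : 0 < 1 / (36 * L ^ 4) := by positivity
  refine ⟨1053 * L ^ 14, (1 / (36 * L ^ 4)) ^ 2, by positivity, by positivity,
    pow_le_one₀ hcL0.le hcL, ?_⟩
  intro γ γ' s₀ τ r ρ g z₁ z₂ hγ hs₀ hτ hτ₀ hsτ hr hρ hρτ hrρ hg hz₁ hz₂ hw₁ hw₂ hd hor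
  have hτ1 : τ ≤ 1 := hτ₀.trans (pow_le_one₀ hcL0.le hcL)
  have hτc : τ ≤ 1 / (36 * L ^ 4) := by
    refine hτ₀.trans ?_
    rw [sq]
    exact mul_le_of_le_one_left hcL0.le hcL
  have hθ_half : τ ^ α ≤ 1 / (36 * L ^ 4) := by
    calc τ ^ α ≤ τ ^ (1 / 2 : ℝ) := Real.rpow_le_rpow_of_exponent_ge hτ hτ1 hα1
      _ = √τ := (Real.sqrt_eq_rpow τ).symm
      _ ≤ √((1 / (36 * L ^ 4)) ^ 2) := Real.sqrt_le_sqrt hτ₀
      _ = 1 / (36 * L ^ 4) := Real.sqrt_sq hcL0.le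
  have hθ0 : 0 < τ ^ α := Real.rpow_pos_of_pos hτ α
  have hτθ : τ ≤ τ ^ α := by
    calc τ = τ ^ (1 : ℝ) := (Real.rpow_one τ).symm
      _ ≤ τ ^ α := Real.rpow_le_rpow_of_exponent_ge hτ hτ1 hα2
  have hτα : τ ^ (1 + α) = τ * τ ^ α := by
    rw [Real.rpow_add hτ, Real.rpow_one]
  rw [hτα]
  set θ : ℝ := τ ^ α with hθ_def
  have hθL : 36 * L ^ 4 * θ ≤ 1 := by
    rw [le_div_iff₀ (by positivity)] at hθ_half
    linarith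
  have hθ1 : θ ≤ 1 := hθ_half.trans hcL
  have hrτ : r ≤ τ := by
    calc r ≤ ρ * θ := hrρ
      _ ≤ τ * 1 := by gcongr
      _ = τ := mul_one τ
  have hr1 : r ≤ 1 := hrτ.trans hτ1
  obtain ⟨harc1, harc2⟩ := harc α γ γ' hα0 hγ
  have hmem : ∀ s ∈ Icc s₀ (s₀ + τ), s ∈ Icc (0 : ℝ) 1 := fun s hs =>
    ⟨hs₀.trans hs.1, hs.2.trans hsτ⟩
  have hs₀m : s₀ ∈ Icc s₀ (s₀ + τ) := ⟨le_rfl, by linarith⟩
  have hI : dist I I ≤ M + 1 := by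
    rw [dist_self]
    linarith
  -- points near the piece
  have hpt : ∀ (z : ℍ) (s : ℝ), s ∈ Icc s₀ (s₀ + τ) → dist z (γ s) ≤ r → dist z I ≤ M + 1 ∧
      ‖(z : ℂ) - (γ s : ℂ)‖ ≤ K * r ∧ 1 / L ≤ z.im ∧ z.im ≤ L ∧ ‖(z : ℂ)‖ ≤ L := by
    intro z s hs hzs
    have e1 : dist (γ s) I ≤ M := hγ.pos s (hmem s hs)
    have e2 : dist z I ≤ M + 1 := by
      have := dist_triangle z (γ s) I
      linarith
    obtain ⟨e3, -, e4, e5⟩ := hcmp z (γ s) e2 (by linarith)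
    obtain ⟨e6, -, -, -⟩ := hcmp z I e2 hI
    have e7 : 1 / L ≤ 1 / K := by gcongr
    refine ⟨e2, ?_, e7.trans e4, e5.trans hKL, ?_⟩
    · rw [← Complex.dist_eq]
      calc dist (z : ℂ) (γ s : ℂ) ≤ K * dist z (γ s) := e3
        _ ≤ K * r := by gcongr
    · rw [Complex.dist_eq] at e6
      have e8 : ‖(z : ℂ)‖ ≤ ‖(z : ℂ) - ((I : ℍ) : ℂ)‖ + ‖((I : ℍ) : ℂ)‖ := by
        have := norm_add_le ((z : ℂ) - ((I : ℍ) : ℂ)) ((I : ℍ) : ℂ)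
        rwa [sub_add_cancel] at this
      have e9 : ‖((I : ℍ) : ℂ)‖ = 1 := by simp
      have e10 : K * dist z I ≤ K * (M + 1) := by gcongr
      linarith
  have hEE : ∀ (z z' : ℍ) (s s' : ℝ), s ∈ Icc s₀ (s₀ + τ) → s' ∈ Icc s₀ (s₀ + τ) →
      dist z (γ s) ≤ r → dist z' (γ s') ≤ r →
      ‖(z : ℂ) - (z' : ℂ) - ((s - s' : ℝ) : ℂ) * γ' s₀‖ ≤ |s - s'| * (L * θ) + 2 * L * r := by
    intro z z' s s' hs hs' hz hz'
    obtain ⟨-, e1, -⟩ := hpt z s hs hz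
    obtain ⟨-, e2, -⟩ := hpt z' s' hs' hz'
    have e3 := harc2 s₀ τ s' s hs₀ hsτ hs' hs
    have e4 : (z : ℂ) - (z' : ℂ) - ((s - s' : ℝ) : ℂ) * γ' s₀ =
        (((z : ℂ) - (γ s : ℂ)) - ((z' : ℂ) - (γ s' : ℂ))) +
          ((γ s : ℂ) - (γ s' : ℂ) - ((s - s' : ℝ) : ℂ) * γ' s₀) := by ring
    rw [e4]
    have e5 := norm_add_le (((z : ℂ) - (γ s : ℂ)) - ((z' : ℂ) - (γ s' : ℂ)))
      ((γ s : ℂ) - (γ s' : ℂ) - ((s - s' : ℝ) : ℂ) * γ' s₀)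
    have e6 := norm_sub_le ((z : ℂ) - (γ s : ℂ)) ((z' : ℂ) - (γ s' : ℂ))
    have e7 : |s - s'| * (M * θ) ≤ |s - s'| * (L * θ) := by gcongr
    have e8 : K * r ≤ L * r := by gcongr
    have e9 : ‖(γ s : ℂ) - (γ s' : ℂ) - ((s - s' : ℝ) : ℂ) * γ' s₀‖ ≤ |s - s'| * (M * θ) := e3
    linarith
  obtain ⟨s₁, hs₁, hd₁⟩ := hz₁
  obtain ⟨s₂, hs₂, hd₂⟩ := hz₂
  obtain ⟨t₁, ht₁, he₁⟩ := hw₁
  obtain ⟨t₂, ht₂, he₂⟩ := hw₂
  obtain ⟨pz₁, -, qz₁, qz₁', nz₁⟩ := hpt z₁ s₁ hs₁ hd₁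
  obtain ⟨pz₂, -, qz₂, qz₂', nz₂⟩ := hpt z₂ s₂ hs₂ hd₂
  obtain ⟨pw₁, -, qw₁, qw₁', -⟩ := hpt (g • z₁) t₁ ht₁ he₁
  obtain ⟨pw₂, -, qw₂, qw₂', -⟩ := hpt (g • z₂) t₂ ht₂ he₂
  obtain ⟨pz₀, -, -, -, nz₀⟩ := hpt (γ s₀) s₀ hs₀m (by rw [dist_self]; exact hr.le)
  have hss : ∀ s t : ℝ, s ∈ Icc s₀ (s₀ + τ) → t ∈ Icc s₀ (s₀ + τ) → |s - t| ≤ τ := by
    intro s t hs ht
    rw [abs_le]
    constructor <;> linarith [hs.1, hs.2, ht.1, ht.2]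
  -- the entries
  have hgd : (g : Mat).det = (g : Mat) 0 0 * (g : Mat) 1 1 - (g : Mat) 0 1 * (g : Mat) 1 0 :=
    Matrix.det_fin_two _
  set δ : ℝ := √(g : Mat).det with hδ_def
  have hδ : 0 < δ := Real.sqrt_pos.2 hg
  have hδ2 : δ ^ 2 = (g : Mat).det := Real.sq_sqrt hg.le
  have hδc : (δ : ℂ) ≠ 0 := by exact_mod_cast hδ.ne'
  have hdet : (g : Mat) 0 0 / δ * ((g : Mat) 1 1 / δ) -
      (g : Mat) 0 1 / δ * ((g : Mat) 1 0 / δ) = 1 := by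
    field_simp
    rw [hδ2, hgd]
  have hact : ∀ z : ℍ, ((g • z : ℍ) : ℂ) * ((((g : Mat) 1 0 / δ : ℝ) : ℂ) * z +
      (((g : Mat) 1 1 / δ : ℝ) : ℂ)) = (((g : Mat) 0 0 / δ : ℝ) : ℂ) * z +
      (((g : Mat) 0 1 / δ : ℝ) : ℂ) := by
    intro z
    have hg' : 0 < g.det.val := hg
    have e1 := denom_ne_zero g z
    have e2 : ((g • z : ℍ) : ℂ) * denom g z = num g z := by
      rw [coe_smul_of_det_pos hg', div_mul_cancel₀ _ e1]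
    have e3 : ((((g : Mat) 1 0 / δ : ℝ) : ℂ) * z + (((g : Mat) 1 1 / δ : ℝ) : ℂ)) =
        denom g z / δ := by
      simp only [denom]
      push_cast
      field_simp
    have e4 : (((g : Mat) 0 0 / δ : ℝ) : ℂ) * z + (((g : Mat) 0 1 / δ : ℝ) : ℂ) =
        num g z / δ := by
      simp only [num]
      push_cast
      field_simp
    rw [e3, e4, ← e2]
    ring
  have hs0' : s₀ ∈ Icc (0 : ℝ) 1 := hmem s₀ hs₀m
  have hv : 1 / L ≤ ‖γ' s₀‖ := by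
    have : 1 / L ≤ 1 / M := by gcongr
    exact this.trans (hγ.lo s₀ hs0')
  have hv' : ‖γ' s₀‖ ≤ L := (hγ.hi s₀ hs0').trans hML
  have hd01 : dist (γ s₀) z₁ ≤ K * τ + r := by
    have e1 := harc1 s₀ hs0' s₁ (hmem s₁ hs₁)
    have e2 : K * |s₀ - s₁| ≤ K * τ := by
      have := hss s₀ s₁ hs₀m hs₁
      gcongr
    have e3 := dist_triangle (γ s₀) (γ s₁) z₁
    rw [dist_comm (γ s₁) z₁] at e3
    linarith
  have hE0 : ‖((γ s₀ : ℍ) : ℂ) - (z₁ : ℂ)‖ ≤ L * τ := by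
    obtain ⟨e1, -⟩ := hcmp (γ s₀) z₁ pz₀ pz₁
    rw [Complex.dist_eq] at e1
    calc ‖((γ s₀ : ℍ) : ℂ) - (z₁ : ℂ)‖ ≤ K * dist (γ s₀) z₁ := e1
      _ ≤ K * (K * τ + τ) := by
          gcongr
          linarith
      _ ≤ K * (K * τ + K * τ) := by
          have : τ ≤ K * τ := le_mul_of_one_le_left hτ.le hK
          gcongr
      _ = 2 * K ^ 2 * τ := by ring
      _ ≤ L * τ := by gcongr
  have hρ1 : ρ ≤ L * ‖(z₁ : ℂ) - (z₂ : ℂ)‖ := by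
    obtain ⟨-, e1, -⟩ := hcmp z₁ z₂ pz₁ pz₂
    rw [Complex.dist_eq] at e1
    calc ρ ≤ dist z₁ z₂ := hd
      _ ≤ K * ‖(z₁ : ℂ) - (z₂ : ℂ)‖ := e1
      _ ≤ _ := by gcongr
  have hρ2 : ρ ≤ L * ‖((g • z₁ : ℍ) : ℂ) - ((g • z₂ : ℍ) : ℂ)‖ := by
    obtain ⟨-, e1, -⟩ := hcmp (g • z₁) (g • z₂) pw₁ pw₂
    rw [Complex.dist_eq, h1] at e1
    calc ρ ≤ dist z₁ z₂ := hd
      _ ≤ K * ‖((g • z₁ : ℍ) : ℂ) - ((g • z₂ : ℍ) : ℂ)‖ := e1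
      _ ≤ _ := by gcongr
  have hor' : 0 ≤ (((((g : Mat) 1 0 / δ : ℝ) : ℂ) * (z₁ : ℂ) +
      (((g : Mat) 1 1 / δ : ℝ) : ℂ)) ^ 2).re := by
    have e1 : denom g z₁ = (δ : ℂ) * ((((g : Mat) 1 0 / δ : ℝ) : ℂ) * (z₁ : ℂ) +
        (((g : Mat) 1 1 / δ : ℝ) : ℂ)) := by
      simp only [denom]
      push_cast
      field_simp
    have e2 : 0 ≤ ((denom g z₁) ^ 2).re := hor
    rw [e1, mul_pow] at e2
    have e3 : ((δ : ℂ)) ^ 2 = ((δ ^ 2 : ℝ) : ℂ) := by push_cast; rfl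
    rw [e3, Complex.re_ofReal_mul] at e2
    exact nonneg_of_mul_nonneg_right e2 (by positivity)
  obtain ⟨c1, c2, c3⟩ := core hL hτ hτθ hθL hdet hv hv' qz₁ qz₁' qz₂ qz₂' qw₁ qw₁' qw₂ qw₂'
    nz₀ nz₁ (hact z₁) (hact z₂) (hss t₁ t₂ ht₁ ht₂) (hss t₁ s₁ ht₁ hs₁)
    (hEE z₁ z₂ s₁ s₂ hs₁ hs₂ hd₁ hd₂) (hEE (g • z₁) (g • z₂) t₁ t₂ ht₁ ht₂ he₁ he₂)
    (hEE (g • z₁) z₁ t₁ s₁ ht₁ hs₁ he₁ hd₁) hE0 hrρ hρτ hρ hρ1 hρ2 hor'
  have hQf : ∀ u : ℂ, Qf (g : Mat) (γ s₀) * u = (δ : ℂ) *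
      ((-(((g : Mat) 1 0 / δ : ℝ) : ℂ) * (γ s₀ : ℂ) ^ 2 +
        (((g : Mat) 0 0 / δ - (g : Mat) 1 1 / δ : ℝ) : ℂ) * (γ s₀ : ℂ) +
          (((g : Mat) 0 1 / δ : ℝ) : ℂ)) * u) := by
    intro u
    simp only [Qf]
    push_cast
    field_simp
  refine ⟨⟨hg, ?_⟩, ?_, ?_, ?_⟩
  · -- the displacement of the base point
    have e1 := dist_triangle (g • γ s₀) (g • z₁) (γ s₀)
    rw [h1] at e1
    have e2 := dist_triangle (g • z₁) (γ t₁) (γ s₀)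
    have e3 := harc1 t₁ (hmem t₁ ht₁) s₀ hs0'
    have e4 : K * |t₁ - s₀| ≤ K * τ := by
      have := hss t₁ s₀ ht₁ hs₀m
      gcongr
    have e5 : K * τ ≤ 1 / 36 := by
      calc K * τ ≤ L * (1 / (36 * L ^ 4)) := by gcongr
        _ = 1 / 36 * (1 / L ^ 3) := by
            field_simp
        _ ≤ 1 / 36 * 1 := by
            gcongr
            rw [div_le_one (by positivity)]
            exact one_le_pow₀ hL
        _ = 1 / 36 := mul_one _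
    have e6 : τ ≤ K * τ := le_mul_of_one_le_left hτ.le hK
    linarith
  · have e1 : (g : Mat) 1 0 = (g : Mat) 1 0 / δ * δ := by field_simp
    rw [e1, abs_mul, abs_of_pos hδ]
    gcongr
  · rw [hQf, Complex.re_ofReal_mul, abs_mul, abs_of_pos hδ, mul_comm δ]
    gcongr
  · rw [hQf, Complex.im_ofReal_mul, abs_mul, abs_of_pos hδ, mul_comm δ]
    gcongr

end Pool.Agent.HoloQUE
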