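import Pool.Agent.Work.MP_d2a4bb_nt.CV.Stmts
import Pool.Agent.Work.MP_d2a4bb_nt.NC.I_C1b
import Pool.Agent.Work.MP_d2a4bb_nt.NC.I_C2b

/-!
# Items CB1, CB2: counting in the boxes
-/

set_option autoImplicit false

open MeasureTheory UpperHalfPlane Matrix HQ Set
open scoped MatrixGroups ModularForm Manifold ENNReal Classical ComplexConjugate

noncomputable section

namespace Pool.Agent.HoloQUE

namespace XCB

open XC2b (X0 X0_mem recover)

/-- The cell of a matrix. -/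
def cl (K : ℝ) (z₀ : ℍ) (v₀ : ℂ) (x : Mat) : ℤ × ℤ × ℤ :=
  (⌊K * x 1 0⌋, ⌊K * (Qf x z₀ * conj v₀).re⌋, ⌊K * (Qf x z₀ * conj v₀).im⌋)

theorem Qf_re (x : Mat) (z : ℍ) : (Qf x z).re =
    -(x 1 0) * (z.re ^ 2 - z.im ^ 2) + (x 0 0 - x 1 1) * z.re + x 0 1 := by
  unfold Qf
  simp only [Complex.add_re, Complex.mul_re, Complex.neg_re, Complex.neg_im, Complex.ofReal_re,
    Complex.ofReal_im, sq, Complex.mul_im, coe_re, coe_im]
  ring

theorem Qf_im (x : Mat) (z : ℍ) : (Qf x z).im =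
    -(x 1 0) * (2 * z.re * z.im) + (x 0 0 - x 1 1) * z.im := by
  unfold Qf
  simp only [Complex.add_im, Complex.mul_re, Complex.neg_re, Complex.neg_im, Complex.ofReal_re,
    Complex.ofReal_im, sq, Complex.mul_im, coe_re, coe_im]
  ring

theorem det_X0b (x : Mat) (z : ℍ) : (X0 x).det =
    -(((Qf x z).im / z.im) ^ 2 + 4 * x 1 0 * (Qf x z).re - 4 * (x 1 0) ^ 2 * z.im ^ 2) := by
  have hz := z.im_ne_zero
  have h1 : (Qf x z).im / z.im = -(x 1 0) * (2 * z.re) + (x 0 0 - x 1 1) := by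
    rw [Qf_im]
    field_simp
  rw [h1, Qf_re]
  simp [X0, Matrix.det_fin_two, Matrix.trace_fin_two]
  ring

theorem X0_sub (x y : Mat) : X0 x - X0 y = X0 (x - y) := by
  unfold X0
  rw [Matrix.trace_sub, smul_sub, sub_smul]
  abel

theorem Qf_sub (x y : Mat) (z : ℂ) : Qf (x - y) z = Qf x z - Qf y z := by
  unfold Qf
  simp only [Matrix.sub_apply]
  push_cast
  ring

theorem abs_lt_of_floor {K u v : ℝ} (hK : 0 < K) (h : ⌊K * u⌋ = ⌊K * v⌋) : |u - v| < 1 / K := by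
  have h1 := Int.abs_sub_lt_one_of_floor_eq_floor h
  rw [← mul_sub, abs_mul, abs_of_pos hK] at h1
  rw [lt_div_iff₀ hK]
  linarith

/-- the size of a complex number by its components -/
theorem cmp_le {q v : ℂ} {a b : ℝ} (hv : ‖v‖ = 1) (h1 : |(q * conj v).re| ≤ a)
    (h2 : |(q * conj v).im| ≤ b) : |q.re| ≤ a + b ∧ |q.im| ≤ a + b := by
  have h3 : ‖q‖ ≤ a + b := by
    calc ‖q‖ = ‖q * conj v‖ := by rw [norm_mul, Complex.norm_conj, hv, mul_one]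
      _ ≤ |(q * conj v).re| + |(q * conj v).im| := Complex.norm_le_abs_re_add_abs_im _
      _ ≤ a + b := add_le_add h1 h2
  exact ⟨(Complex.abs_re_le_norm q).trans h3, (Complex.abs_im_le_norm q).trans h3⟩

theorem im_bd {M : ℝ} {z : ℍ} (hz : dist z I ≤ M) : z.im ≤ Real.exp M ∧ 1 / z.im ≤ Real.exp M := by
  have h1 := UpperHalfPlane.im_le_im_mul_exp_dist z I
  have h2 := UpperHalfPlane.im_le_im_mul_exp_dist I z
  rw [I_im, one_mul] at h1
  rw [I_im, dist_comm] at h2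
  have h3 : Real.exp (dist z I) ≤ Real.exp M := Real.exp_le_exp.mpr hz
  refine ⟨h1.trans h3, ?_⟩
  rw [div_le_iff₀ z.im_pos]
  have := mul_le_mul_of_nonneg_left h3 z.im_pos.le
  linarith

/-- The box constant. -/
def KK (M : ℝ) : ℝ := 4 * Real.exp M

theorem KK_pos (M : ℝ) : 0 < KK M := by
  unfold KK
  positivity

theorem X0_eq {O : Subring Mat} (hO : QOrder O) {M : ℝ} (hM : 0 ≤ M) {z₀ : ℍ} {v₀ : ℂ}
    (hz : dist z₀ I ≤ M) (hv : ‖v₀‖ = 1) {x y : Mat} (hx : x ∈ O) (hy : y ∈ O)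
    (h : cl (KK M) z₀ v₀ x = cl (KK M) z₀ v₀ y) : X0 x = X0 y := by
  unfold cl at h
  simp only [Prod.mk.injEq] at h
  obtain ⟨a1, a2, a3⟩ := h
  have hK := KK_pos M
  have f1 := abs_lt_of_floor hK a1
  have f2 := abs_lt_of_floor hK a2
  have f3 := abs_lt_of_floor hK a3
  rw [← Complex.sub_re, ← sub_mul, ← Qf_sub] at f2
  rw [← Complex.sub_im, ← sub_mul, ← Qf_sub] at f3
  rw [← Matrix.sub_apply] at f1
  obtain ⟨g1, g2⟩ := cmp_le hv f2.le f3.le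
  obtain ⟨i1, i2⟩ := im_bd hz
  by_contra hne
  have hmem : X0 x - X0 y ∈ O := O.sub_mem (X0_mem hO hx) (X0_mem hO hy)
  have hdet := hO.ne _ hmem (sub_ne_zero.mpr hne)
  obtain ⟨n, hn⟩ := hO.dt _ hmem
  rw [hn] at hdet
  have hn0 : n ≠ 0 := by
    intro h0
    apply hdet
    rw [h0]
    simp
  rw [X0_sub, det_X0b (x - y) z₀] at hn
  set q := Qf (x - y) z₀ with hq
  set c := (x - y) 1 0 with hc
  set L := Real.exp M with hL
  have hL1 : 1 ≤ L := Real.one_le_exp hM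
  have hKL : KK M = 4 * L := rfl
  rw [hKL] at f1 f2 f3 g1 g2
  have e1 : |q.im / z₀.im| ≤ 1 / 2 := by
    rw [abs_div, abs_of_pos z₀.im_pos]
    calc |q.im| / z₀.im = |q.im| * (1 / z₀.im) := by ring
      _ ≤ (1 / (4 * L) + 1 / (4 * L)) * L := by
          apply mul_le_mul g2 i2 (by have := z₀.im_pos; positivity) (by positivity)
      _ = 1 / 2 := by field_simp; ring
  have e2 : |c * z₀.im| ≤ 1 / 4 := by
    rw [abs_mul, abs_of_pos z₀.im_pos]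
    calc |c| * z₀.im ≤ (1 / (4 * L)) * L := by
          apply mul_le_mul f1.le i1 z₀.im_pos.le (by positivity)
      _ = 1 / 4 := by field_simp
  have e3 : |c * q.re| ≤ 1 / 8 := by
    rw [abs_mul]
    have p1 : 1 / (4 * L) ≤ 1 / 4 := by
      apply one_div_le_one_div_of_le (by norm_num)
      linarith
    calc |c| * |q.re| ≤ (1 / 4) * (1 / 4 + 1 / 4) := by
          apply mul_le_mul (f1.le.trans p1) (g1.trans (add_le_add p1 p1)) (abs_nonneg _)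
            (by norm_num)
      _ = 1 / 8 := by norm_num
  have b0 : |(n : ℝ)| < 1 := by
    rw [← hn, abs_neg]
    have s1 : (q.im / z₀.im) ^ 2 ≤ 1 / 4 := by
      rw [← sq_abs]
      nlinarith [abs_nonneg (q.im / z₀.im)]
    have s2 : (c * z₀.im) ^ 2 ≤ 1 / 16 := by
      rw [← sq_abs]
      nlinarith [abs_nonneg (c * z₀.im)]
    have s3 := abs_le.mp e3
    rw [abs_lt]
    constructor <;> nlinarith [sq_nonneg (q.im / z₀.im), sq_nonneg (c * z₀.im)]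
  have b1 : |n| < 1 := by exact_mod_cast b0
  exact hn0 (Int.abs_lt_one_iff.1 b1)

/-- The constant for the trace. -/
def TT : ℝ := √(2 * (Real.cosh 2 + 1))

theorem TT_nonneg : 0 ≤ TT := Real.sqrt_nonneg _

theorem TT_sq : TT ^ 2 = 2 * (Real.cosh 2 + 1) :=
  Real.sq_sqrt (by have := Real.cosh_pos 2; positivity)

theorem tr_le (h1 : S_Geo) (h2 : S_Iso) {g : G2} {z₀ : ℍ} (hg : g ∈ Sb z₀ 2) :
    |(g : Mat).trace| ≤ TT * √(g : Mat).det := by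
  obtain ⟨hd, hdist⟩ := hg
  set h : G2 := ((z₀.toSL2R : SL(2, ℝ)) : G2) with hh
  have hhI : h • I = z₀ := toSL2R_smul_I z₀
  set g' : G2 := h⁻¹ * g * h with hg'
  have hm : (g' : Mat) = ((h⁻¹ : G2) : Mat) * (g : Mat) * (h : Mat) := rfl
  have hinv : ((h⁻¹ : G2) : Mat) * (h : Mat) = 1 := by
    rw [← Units.val_mul, inv_mul_cancel, Units.val_one]
  have hinv' : (h : Mat) * ((h⁻¹ : G2) : Mat) = 1 := by
    rw [← Units.val_mul, mul_inv_cancel, Units.val_one]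
  have htr : (g' : Mat).trace = (g : Mat).trace := by
    rw [hm, Matrix.trace_mul_comm, ← mul_assoc, hinv', one_mul]
  have hdet : (g' : Mat).det = (g : Mat).det := by
    rw [hm, Matrix.det_mul, Matrix.det_mul, mul_comm, ← mul_assoc, ← Matrix.det_mul, hinv',
      Matrix.det_one, one_mul]
  have hdist' : dist (g' • I) I = dist (g • z₀) z₀ := by
    rw [← h2 h, hhI, hg', mul_smul, mul_smul, hhI, smul_inv_smul]
  have h3 := (h1 g' (by rw [hdet]; exact hd)).2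
  rw [hdist', hdet, ← Matrix.trace_fin_two, htr] at h3
  have hc : Real.cosh (dist (g • z₀) z₀) ≤ Real.cosh 2 := by
    rw [Real.cosh_le_cosh, abs_of_nonneg dist_nonneg, abs_of_nonneg (by norm_num : (0 : ℝ) ≤ 2)]
    exact hdist
  apply abs_le_of_sq_le_sq _ (mul_nonneg TT_nonneg (Real.sqrt_nonneg _))
  rw [mul_pow, TT_sq, Real.sq_sqrt hd.le]
  have h4 : 2 * (g : Mat).det * (Real.cosh (dist (g • z₀) z₀) + 1) ≤
      2 * (g : Mat).det * (Real.cosh 2 + 1) :=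
    mul_le_mul_of_nonneg_left (by linarith) (by positivity)
  nlinarith [sq_nonneg ((g' : Mat) 0 1 - (g' : Mat) 1 0)]

/-- The interval for a component. -/
def Ji (K κ s : ℝ) : Finset ℤ := Finset.Icc ⌊-(K * (κ * s))⌋ ⌊K * (κ * s)⌋

theorem mem_Ji {K κ s t u : ℝ} (hK : 0 < K) (hκ : 0 ≤ κ) (hts : t ≤ s) (hu : |u| ≤ κ * t) :
    ⌊K * u⌋ ∈ Ji K κ s := by
  apply XC1b.floor_mem
  rw [abs_mul, abs_of_pos hK]
  apply mul_le_mul_of_nonneg_left _ hK.le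
  exact hu.trans (mul_le_mul_of_nonneg_left hts hκ)

theorem card_Ji {K κ s : ℝ} (hK : 0 < K) (hκ : 0 ≤ κ) (hs : 0 ≤ s) :
    ((Ji K κ s).card : ℝ) ≤ (2 * K + 2) * (1 + s * κ) := by
  have h0 : 0 ≤ s * κ := mul_nonneg hs hκ
  have h1 := XC1b.card_Icc_le (U := K * (κ * s)) (by positivity)
  refine h1.trans ?_
  nlinarith

/-- The box. -/
def Bo (K κ₁ κ₂ κ₃ s : ℝ) : Finset (ℤ × ℤ × ℤ) := Ji K κ₁ s ×ˢ (Ji K κ₂ s ×ˢ Ji K κ₃ s)

theorem mem_Bo {K κ₁ κ₂ κ₃ s : ℝ} {z₀ : ℍ} {v₀ : ℂ} (hK : 0 < K) (h1 : 0 ≤ κ₁) (h2 : 0 ≤ κ₂)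
    (h3 : 0 ≤ κ₃) {g : G2} (hg : g ∈ Bx z₀ v₀ κ₁ κ₂ κ₃) (hs : √(g : Mat).det ≤ s) :
    cl K z₀ v₀ (g : Mat) ∈ Bo K κ₁ κ₂ κ₃ s := by
  obtain ⟨-, b1, b2, b3⟩ := hg
  unfold Bo cl
  simp only [Finset.mem_product]
  exact ⟨mem_Ji hK h1 hs b1, mem_Ji hK h2 hs b2, mem_Ji hK h3 hs b3⟩

theorem card_Bo {K κ₁ κ₂ κ₃ s : ℝ} (hK : 0 < K) (h1 : 0 ≤ κ₁) (h2 : 0 ≤ κ₂)
    (h3 : 0 ≤ κ₃) (hs : 0 ≤ s) : ((Bo K κ₁ κ₂ κ₃ s).card : ℝ) ≤
      (2 * K + 2) ^ 3 * ((1 + s * κ₁) * (1 + s * κ₂) * (1 + s * κ₃)) := by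
  unfold Bo
  rw [Finset.card_product, Finset.card_product]
  push_cast
  have a1 := card_Ji hK h1 hs
  have a2 := card_Ji hK h2 hs
  have a3 := card_Ji hK h3 hs
  calc ((Ji K κ₁ s).card : ℝ) * (((Ji K κ₂ s).card : ℝ) * ((Ji K κ₃ s).card : ℝ)) ≤
      ((2 * K + 2) * (1 + s * κ₁)) * (((2 * K + 2) * (1 + s * κ₂)) *
        ((2 * K + 2) * (1 + s * κ₃))) := by gcongr
    _ = _ := by ring

theorem fibre {O : Subring Mat} (hO : QOrder O) (S : Set G2) (N : ℕ)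
    (hS : ∀ g ∈ S, (g : Mat) ∈ O ∧ X0 (g : Mat) ≠ 0 ∧ ∃ m : ℕ, (g : Mat).det = (m : ℝ) ^ 2)
    (hb : ∀ g ∈ S, ∀ g' ∈ S, X0 (g : Mat) = X0 (g' : Mat))
    (hN : ∀ g ∈ S, ∀ D : ℤ, (X0 (g : Mat)).det = D → 2 * D.natAbs.divisors.card ≤ N) :
    S.Finite ∧ S.ncard ≤ N := by
  rcases S.eq_empty_or_nonempty with rfl | ⟨g₀, hg₀⟩
  · simp
  obtain ⟨D, hD⟩ := hO.dt _ (X0_mem hO (hS g₀ hg₀).1)
  have hD0 : D ≠ 0 := by
    intro h0
    apply hO.ne _ (X0_mem hO (hS g₀ hg₀).1) (hS g₀ hg₀).2.1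
    rw [hD, h0]
    simp
  have hall : ∀ g ∈ S, X0 (g : Mat) = X0 (g₀ : Mat) := fun g hg => hb g hg g₀ hg₀
  have key : ∀ g ∈ S, ∃ (m : ℕ) (t : ℤ), (g : Mat).det = (m : ℝ) ^ 2 ∧ (g : Mat).trace = t ∧
      XC2b.uu g = 2 * m - t ∧ (2 * (m : ℤ) - t) * (2 * m + t) = D := by
    intro g hg
    obtain ⟨h1, h2, m, h3⟩ := hS g hg
    obtain ⟨t, ht⟩ := hO.tr _ h1
    refine ⟨m, t, h3, ht, ?_, ?_⟩
    · unfold XC2b.uu
      rw [h3, ht, Real.sqrt_sq (Nat.cast_nonneg m)]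
      have : (2 * (m : ℝ) - (t : ℝ)) = ((2 * (m : ℤ) - t : ℤ) : ℝ) := by push_cast; ring
      rw [this, Int.floor_intCast]
    · have h4 : (X0 (g : Mat)).det = D := by rw [hall g hg, hD]
      rw [XC2b.det_X0', h3, ht] at h4
      have h5 : (((2 * (m : ℤ) - t) * (2 * m + t) : ℤ) : ℝ) = (D : ℝ) := by
        push_cast
        rw [← h4]
        ring
      exact_mod_cast h5
  have hmap : ∀ g ∈ S, XC2b.uu g ∈ XC2b.sd D := by
    intro g hg
    obtain ⟨m, t, h1, h2, h3, h4⟩ := key g hg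
    rw [h3]
    exact XC2b.mem_sd hD0 ⟨_, h4.symm⟩
  have hinj : Set.InjOn XC2b.uu S := by
    intro g hg g' hg' he
    obtain ⟨m, t, h1, h2, h3, h4⟩ := key g hg
    obtain ⟨m', t', h1', h2', h3', h4'⟩ := key g' hg'
    rw [h3, h3'] at he
    have hu : 2 * (m : ℤ) - t ≠ 0 := by
      intro h0
      rw [h0, zero_mul] at h4
      exact hD0 h4.symm
    have h5 : 2 * (m : ℤ) + t = 2 * m' + t' := by
      apply mul_left_cancel₀ hu
      rw [h4, he, h4']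
    have h6 : t = t' := by linarith
    apply ext_G2
    apply recover
    · rw [hall g hg, hall g' hg']
    · rw [h2, h2', h6]
  obtain ⟨r1, r2⟩ := XC2b.inj_count S XC2b.uu (XC2b.sd D) hmap hinj
  exact ⟨r1, r2.trans ((XC2b.card_sd D).trans (hN g₀ hg₀ D hD))⟩

end XCB

open XCB
open XC2b (X0 X0_mem recover)

theorem prf_CB1 (h1 : S_Geo) (h2 : S_Iso) : S_CB1 := by
  intro M hM
  have hK := KK_pos M
  have hT := TT_nonneg
  refine ⟨(2 * TT + 2) * (2 * KK M + 2) ^ 3, by positivity, ?_⟩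
  intro O z₀ v₀ κ₁ κ₂ κ₃ X hO hz hv k1 k2 k3 hX
  set s : ℝ := √X with hs
  have hs1 : 1 ≤ s := Real.one_le_sqrt.mpr hX
  set S := C1 O (Bx z₀ v₀ κ₁ κ₂ κ₃) X with hS
  set B : Finset (ℤ × (ℤ × ℤ × ℤ)) :=
    Finset.Icc ⌊-(TT * s)⌋ ⌊TT * s⌋ ×ˢ Bo (KK M) κ₁ κ₂ κ₃ s with hB
  obtain ⟨f1, n1⟩ := XC2b.inj_count S
    (fun g : G2 => (⌊(g : Mat).trace⌋, cl (KK M) z₀ v₀ (g : Mat))) B (by
      rintro g ⟨hg, -, hd, hX'⟩
      have hsq : √(g : Mat).det ≤ s := Real.sqrt_le_sqrt hX'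
      rw [hB, Finset.mem_product]
      refine ⟨XC1b.floor_mem ((tr_le h1 h2 hg.1).trans ?_), mem_Bo hK k1 k2 k3 hg hsq⟩
      exact mul_le_mul_of_nonneg_left hsq hT) (by
      rintro g ⟨-, hg, -⟩ g' ⟨-, hg', -⟩ he
      simp only [Prod.mk.injEq] at he
      obtain ⟨e1, e2⟩ := he
      obtain ⟨t, ht⟩ := hO.tr _ hg
      obtain ⟨t', ht'⟩ := hO.tr _ hg'
      apply ext_G2
      apply recover (X0_eq hO (by linarith) hz hv hg hg' e2)
      rw [ht, ht', Int.floor_intCast, Int.floor_intCast] at e1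
      rw [ht, ht', e1])
  refine ⟨f1, ?_⟩
  have h3 : (S.ncard : ℝ) ≤ (B.card : ℝ) := by exact_mod_cast n1
  refine h3.trans ?_
  rw [hB, Finset.card_product]
  push_cast
  have h4 := XC1b.card_Icc_le (U := TT * s) (by positivity)
  have h5 : 2 * (TT * s) + 2 ≤ (2 * TT + 2) * s := by nlinarith
  have h6 := card_Bo hK k1 k2 k3 (by linarith : (0 : ℝ) ≤ s)
  calc ((Finset.Icc ⌊-(TT * s)⌋ ⌊TT * s⌋).card : ℝ) * ((Bo (KK M) κ₁ κ₂ κ₃ s).card : ℝ) ≤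
      ((2 * TT + 2) * s) * ((2 * KK M + 2) ^ 3 * ((1 + s * κ₁) * (1 + s * κ₂) * (1 + s * κ₃))) :=
        mul_le_mul (h4.trans h5) h6 (Nat.cast_nonneg _) (by positivity)
    _ = _ := by ring

theorem prf_CB2 (h1 : S_Geo) (h2 : S_Iso) (h3 : S_Dvb) : S_CB2 := by
  intro M ε hM hε
  obtain ⟨C₁, hC₁, hdv⟩ := h3 (ε / 2) (by positivity)
  have hK := KK_pos M
  have hT := TT_nonneg
  set A : ℝ := 4 + TT ^ 2 with hA
  set L : ℝ := 2 * C₁ * A ^ (ε / 2) with hL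
  have hA0 : 0 < A := by positivity
  have hL0 : 0 < L := by positivity
  refine ⟨L * (2 * KK M + 2) ^ 3 + 3, by positivity, ?_⟩
  intro O z₀ v₀ κ₁ κ₂ κ₃ Y hO hz hv k1 k2 k3 hY
  have hY0 : 0 < Y := by linarith
  set S := C2 O (Bx z₀ v₀ κ₁ κ₂ κ₃) Y with hS
  set S₀ : Set G2 := {g | g ∈ S ∧ X0 (g : Mat) = 0} with hS₀
  set S₁ : Set G2 := {g | g ∈ S ∧ X0 (g : Mat) ≠ 0} with hS₁
  obtain ⟨f0, n0⟩ := XC2b.scal (S := S₀) hY (by
    rintro g ⟨⟨-, -, m, -, hmY, hd⟩, h0⟩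
    exact ⟨h0, m, hmY, hd⟩)
  set B : Finset (ℤ × ℤ × ℤ) := Bo (KK M) κ₁ κ₂ κ₃ Y with hB
  set N : ℕ := ⌊L * Y ^ ε⌋₊ with hN
  have hYε : 0 < Y ^ ε := Real.rpow_pos_of_pos hY0 ε
  obtain ⟨f1, n1⟩ := XC2b.count S₁ (fun g : G2 => cl (KK M) z₀ v₀ (g : Mat)) B N (by
      rintro g ⟨⟨hg, -, m, -, hmY, hd⟩, -⟩
      apply mem_Bo hK k1 k2 k3 hg
      rw [hd, Real.sqrt_sq (Nat.cast_nonneg m)]
      exact hmY) (by
      intro b hbB
      apply fibre hO _ N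
      · rintro g ⟨⟨⟨-, hg, m, -, -, hd⟩, hx⟩, -⟩
        exact ⟨hg, hx, m, hd⟩
      · rintro g ⟨hg, hg1⟩ g' ⟨hg', hg1'⟩
        exact X0_eq hO (by linarith) hz hv hg.1.2.1 hg'.1.2.1 (hg1.trans hg1'.symm)
      · rintro g ⟨⟨hg, hx⟩, -⟩ D hD
        obtain ⟨hgB, hgO, m, hm1, hmY, hd⟩ := hg
        have hm0 : (0 : ℝ) ≤ m := Nat.cast_nonneg m
        have hD0 : D ≠ 0 := by
          intro h0
          apply hO.ne _ (X0_mem hO hgO) hx
          rw [hD, h0]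
          simp
        have hDn : 0 < D.natAbs := Int.natAbs_pos.mpr hD0
        have hb1 : ((D.natAbs : ℕ) : ℝ) ≤ A * Y ^ 2 := by
          have e1 : ((D.natAbs : ℕ) : ℝ) = |(D : ℝ)| := by
            rw [← Int.cast_abs, Int.abs_eq_natAbs]
            simp
          have e2 := tr_le h1 h2 hgB.1
          rw [hd, Real.sqrt_sq hm0] at e2
          have e3 : (g : Mat).trace ^ 2 ≤ (TT * m) ^ 2 := by
            rw [← sq_abs]
            exact pow_le_pow_left₀ (abs_nonneg _) e2 2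
          have e4 : (m : ℝ) ^ 2 ≤ Y ^ 2 := pow_le_pow_left₀ hm0 hmY 2
          have e5 : (TT * m) ^ 2 ≤ TT ^ 2 * Y ^ 2 := by
            rw [mul_pow]
            exact mul_le_mul_of_nonneg_left e4 (sq_nonneg _)
          rw [e1, ← hD, XC2b.det_X0', hd, hA, abs_le]
          have e6 : 0 ≤ TT ^ 2 * Y ^ 2 := by positivity
          have e7 := sq_nonneg (g : Mat).trace
          constructor <;> nlinarith [sq_nonneg (m : ℝ)]
        have hb2 := hdv D.natAbs hDn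
        rw [hN]
        apply Nat.le_floor
        push_cast
        have hb3 : ((D.natAbs : ℕ) : ℝ) ^ (ε / 2) ≤ A ^ (ε / 2) * Y ^ ε := by
          calc ((D.natAbs : ℕ) : ℝ) ^ (ε / 2) ≤ (A * Y ^ 2) ^ (ε / 2) :=
                Real.rpow_le_rpow (Nat.cast_nonneg _) hb1 (by positivity)
            _ = A ^ (ε / 2) * (Y ^ 2) ^ (ε / 2) :=
                Real.mul_rpow (by positivity) (by positivity)
            _ = A ^ (ε / 2) * Y ^ ε := by
                congr 1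
                rw [← Real.rpow_natCast Y 2, ← Real.rpow_mul hY0.le]
                congr 1
                push_cast
                ring
        calc 2 * (D.natAbs.divisors.card : ℝ) ≤ 2 * (C₁ * ((D.natAbs : ℕ) : ℝ) ^ (ε / 2)) := by
              linarith
          _ ≤ 2 * (C₁ * (A ^ (ε / 2) * Y ^ ε)) := by
              have := mul_le_mul_of_nonneg_left hb3 hC₁.le
              linarith
          _ = L * Y ^ ε := by rw [hL]; ring)
  have hSU : S = S₀ ∪ S₁ := by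
    ext g
    simp only [hS₀, hS₁, Set.mem_union, Set.mem_ofPred_eq]
    tauto
  refine ⟨hSU ▸ f0.union f1, ?_⟩
  have hcard : (S.ncard : ℝ) ≤ (S₀.ncard : ℝ) + (S₁.ncard : ℝ) := by
    have := Set.ncard_union_le S₀ S₁
    rw [← hSU] at this
    exact_mod_cast this
  set W : ℝ := (1 + Y * κ₁) * (1 + Y * κ₂) * (1 + Y * κ₃) with hW
  have hW0 : 0 ≤ W := by positivity
  have hn1 : (S₁.ncard : ℝ) ≤ (L * Y ^ ε) * ((2 * KK M + 2) ^ 3 * W) := by
    have h3 : (S₁.ncard : ℝ) ≤ (N : ℝ) * (B.card : ℝ) := by exact_mod_cast n1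
    refine h3.trans (mul_le_mul ?_ (card_Bo hK k1 k2 k3 hY0.le) (Nat.cast_nonneg _) (by positivity))
    exact Nat.floor_le (by positivity)
  have hKc : 0 < (2 * KK M + 2) ^ 3 := by positivity
  calc (S.ncard : ℝ) ≤ (S₀.ncard : ℝ) + (S₁.ncard : ℝ) := hcard
    _ ≤ 3 * Y + (L * Y ^ ε) * ((2 * KK M + 2) ^ 3 * W) := add_le_add n0 hn1
    _ ≤ (L * (2 * KK M + 2) ^ 3 + 3) * (Y ^ ε * W + Y) := by
        have q1 : 0 ≤ Y ^ ε * W := mul_nonneg hYε.le hW0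
        have q2 : 0 ≤ L * (2 * KK M + 2) ^ 3 * Y := by positivity
        nlinarith

end Pool.Agent.HoloQUE
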