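import Pool.Agent.Work.MP_d2a4bb_nt.CV.Stmts

/-!
# Item Cmp: comparison of the hyperbolic and the euclidean distance on an arc
-/

set_option autoImplicit false

open MeasureTheory UpperHalfPlane Matrix HQ Set
open scoped MatrixGroups ModularForm Manifold ENNReal Classical ComplexConjugate

noncomputable section

namespace Pool.Agent.HoloQUE

namespace XCmp

/-- Bounds for the imaginary part on a ball about `i`. -/
theorem im_bounds (R : ℝ) (z : ℍ) (hz : dist z I ≤ R) :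
    Real.exp (-R) ≤ z.im ∧ z.im ≤ Real.exp R := by
  have hI : (I : ℍ).im = 1 := UpperHalfPlane.I_im
  constructor
  · have h := UpperHalfPlane.im_div_exp_dist_le I z
    rw [hI, dist_comm] at h
    refine le_trans ?_ h
    rw [one_div, ← Real.exp_neg]
    exact Real.exp_le_exp.mpr (by linarith)
  · have h := UpperHalfPlane.im_div_exp_dist_le z I
    rw [hI, div_le_iff₀ (Real.exp_pos _), one_mul] at h
    exact h.trans (Real.exp_le_exp.mpr hz)

theorem exp_sub_one_le (x : ℝ) : Real.exp x - 1 ≤ x * Real.exp x := by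
  have h := Real.add_one_le_exp (-x)
  have hx := Real.exp_pos x
  have h2 : Real.exp (-x) * Real.exp x = 1 := by rw [← Real.exp_add]; simp
  nlinarith [mul_le_mul_of_nonneg_right h hx.le]

/-- The comparison of the distances on a ball about `i`. -/
theorem cmp (R : ℝ) (z w : ℍ) (hz : dist z I ≤ R) (hw : dist w I ≤ R) :
    dist (z : ℂ) w ≤ Real.exp (3 * R) * dist z w ∧ dist z w ≤ Real.exp R * dist (z : ℂ) w := by
  obtain ⟨z1, z2⟩ := im_bounds R z hz
  obtain ⟨w1, w2⟩ := im_bounds R w hw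
  have hd : dist z w ≤ 2 * R := by
    have h := dist_triangle_right z w I
    linarith
  constructor
  · have h := UpperHalfPlane.dist_coe_le z w
    have h1 : Real.exp (dist z w) - 1 ≤ dist z w * Real.exp (2 * R) :=
      (exp_sub_one_le _).trans (mul_le_mul_of_nonneg_left (Real.exp_le_exp.mpr hd) dist_nonneg)
    calc dist (z : ℂ) w ≤ w.im * (Real.exp (dist z w) - 1) := h
      _ ≤ w.im * (dist z w * Real.exp (2 * R)) := mul_le_mul_of_nonneg_left h1 w.im_pos.le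
      _ ≤ Real.exp R * (dist z w * Real.exp (2 * R)) :=
          mul_le_mul_of_nonneg_right w2 (mul_nonneg dist_nonneg (Real.exp_pos _).le)
      _ = Real.exp (3 * R) * dist z w := by
          rw [show 3 * R = R + 2 * R by ring, Real.exp_add]; ring
  · have h := UpperHalfPlane.dist_le_dist_coe_div_sqrt z w
    refine h.trans ?_
    have h2 : Real.exp (-R) ≤ √(z.im * w.im) := by
      apply Real.le_sqrt_of_sq_le
      rw [sq]
      exact mul_le_mul z1 w1 (Real.exp_pos _).le z.im_pos.le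
    have h3 : 0 < √(z.im * w.im) := lt_of_lt_of_le (Real.exp_pos _) h2
    rw [div_le_iff₀ h3]
    have h4 : Real.exp R * Real.exp (-R) = 1 := by rw [← Real.exp_add]; simp
    calc dist (z : ℂ) w = dist (z : ℂ) w * (Real.exp R * Real.exp (-R)) := by rw [h4, mul_one]
      _ ≤ dist (z : ℂ) w * (Real.exp R * √(z.im * w.im)) :=
          mul_le_mul_of_nonneg_left
            (mul_le_mul_of_nonneg_left h2 (Real.exp_pos _).le) dist_nonneg
      _ = _ := by ring

/-- The first mean value inequality. -/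
theorem lip {α M : ℝ} {γ : ℝ → ℍ} {γ' : ℝ → ℂ} (h : Arc α M γ γ') {s t : ℝ}
    (hs : s ∈ Icc (0 : ℝ) 1) (ht : t ∈ Icc (0 : ℝ) 1) :
    ‖((γ s : ℍ) : ℂ) - ((γ t : ℍ) : ℂ)‖ ≤ M * |s - t| :=
  Convex.norm_image_sub_le_of_norm_hasDerivWithin_le (f := fun s => ((γ s : ℍ) : ℂ)) (f' := γ')
    h.hd h.hi (convex_Icc 0 1) ht hs

/-- The second mean value inequality. -/
theorem mv {α M : ℝ} {γ : ℝ → ℍ} {γ' : ℝ → ℂ} (hM : 0 ≤ M) (hα : 0 < α) (h : Arc α M γ γ')
    {s₀ τ s t : ℝ} (h0 : 0 ≤ s₀) (h1 : s₀ + τ ≤ 1) (hs : s ∈ Icc s₀ (s₀ + τ))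
    (ht : t ∈ Icc s₀ (s₀ + τ)) :
    ‖((γ t : ℍ) : ℂ) - ((γ s : ℍ) : ℂ) - ((t - s : ℝ) : ℂ) * γ' s₀‖ ≤
      |t - s| * (M * τ ^ α) := by
  have hτ : 0 ≤ τ := by have := hs.1.trans hs.2; linarith
  have hsub : Icc s₀ (s₀ + τ) ⊆ Icc (0 : ℝ) 1 := Icc_subset_Icc h0 h1
  have hs0 : s₀ ∈ Icc (0 : ℝ) 1 := ⟨h0, by linarith⟩
  have hder : ∀ x ∈ Icc s₀ (s₀ + τ),
      HasDerivWithinAt (fun x : ℝ => ((γ x : ℍ) : ℂ) - (x : ℂ) * γ' s₀) (γ' x - γ' s₀)
        (Icc s₀ (s₀ + τ)) x := by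
    intro x hx
    have e1 := (h.hd x (hsub hx)).mono hsub
    have e2 : HasDerivWithinAt (fun x : ℝ => (x : ℂ) * γ' s₀) (1 * γ' s₀)
        (Icc s₀ (s₀ + τ)) x := by
      have e3 : HasDerivAt (fun x : ℝ => (x : ℂ)) 1 x := Complex.ofRealCLM.hasDerivAt (x := x)
      exact (e3.mul_const (γ' s₀)).hasDerivWithinAt
    rw [one_mul] at e2
    exact e1.sub e2
  have hb : ∀ x ∈ Icc s₀ (s₀ + τ), ‖γ' x - γ' s₀‖ ≤ M * τ ^ α := by
    intro x hx
    refine (h.hol x (hsub hx) s₀ hs0).trans (mul_le_mul_of_nonneg_left ?_ hM)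
    apply Real.rpow_le_rpow (abs_nonneg _) _ hα.le
    rw [abs_of_nonneg (by linarith [hx.1])]
    linarith [hx.2]
  have key := Convex.norm_image_sub_le_of_norm_hasDerivWithin_le hder hb
    (convex_Icc s₀ (s₀ + τ)) hs ht
  have e : ((γ t : ℍ) : ℂ) - ((γ s : ℍ) : ℂ) - ((t - s : ℝ) : ℂ) * γ' s₀ =
      (((γ t : ℍ) : ℂ) - (t : ℂ) * γ' s₀) - (((γ s : ℍ) : ℂ) - (s : ℂ) * γ' s₀) := by
    push_cast
    ring
  rw [e]
  refine key.trans (le_of_eq ?_)
  rw [Real.norm_eq_abs]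
  ring

end XCmp

open XCmp in
/-- Item Cmp. -/
theorem prf_Cmp : S_Cmp := by
  intro M hM
  have hR : 0 ≤ M + 1 := by linarith
  have e1 : 1 ≤ Real.exp (M + 1) := Real.one_le_exp hR
  have e3 : Real.exp (M + 1) ≤ Real.exp (3 * (M + 1)) := Real.exp_le_exp.mpr (by linarith)
  have e4 : Real.exp (3 * (M + 1)) ≤ M * Real.exp (3 * (M + 1)) :=
    le_mul_of_one_le_left (Real.exp_pos _).le hM
  refine ⟨M * Real.exp (3 * (M + 1)), by linarith, ?_, ?_⟩
  · intro z w hz hw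
    obtain ⟨c1, c2⟩ := cmp (M + 1) z w hz hw
    obtain ⟨z1, z2⟩ := im_bounds (M + 1) z hz
    refine ⟨c1.trans (mul_le_mul_of_nonneg_right e4 dist_nonneg),
      c2.trans (mul_le_mul_of_nonneg_right (e3.trans e4) dist_nonneg), ?_, z2.trans (e3.trans e4)⟩
    refine le_trans ?_ z1
    rw [Real.exp_neg, one_div]
    exact inv_anti₀ (Real.exp_pos _) (e3.trans e4)
  · intro α γ γ' hα h
    refine ⟨?_, fun s₀ τ s t h0 h1 hs ht => mv (by linarith) hα h h0 h1 hs ht⟩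
    intro s hs t ht
    have p1 : dist (γ s) I ≤ M + 1 := (h.pos s hs).trans (by linarith)
    have p2 : dist (γ t) I ≤ M + 1 := (h.pos t ht).trans (by linarith)
    have c2 := (cmp (M + 1) (γ s) (γ t) p1 p2).2
    have l := lip h hs ht
    rw [dist_eq_norm] at c2
    calc dist (γ s) (γ t) ≤ Real.exp (M + 1) * ‖((γ s : ℍ) : ℂ) - ((γ t : ℍ) : ℂ)‖ := c2
      _ ≤ Real.exp (M + 1) * (M * |s - t|) := mul_le_mul_of_nonneg_left l (Real.exp_pos _).le
      _ ≤ Real.exp (3 * (M + 1)) * (M * |s - t|) :=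
          mul_le_mul_of_nonneg_right e3 (mul_nonneg (by linarith) (abs_nonneg _))
      _ = _ := by ring

end Pool.Agent.HoloQUE
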