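import Pool.Agent.Work.MP_d2a4bb_nt.CV.Stmts

/-!
# Item Curve: the estimate for an arc
-/

set_option autoImplicit false

open MeasureTheory UpperHalfPlane Matrix HQ Set
open scoped MatrixGroups ModularForm Manifold ENNReal Classical ComplexConjugate

noncomputable section

namespace Pool.Agent.HoloQUE

namespace XCurve

/-- the mass of a set covered by finitely many sets -/
theorem ms_cover (F : ℍ → ℝ) (n : ℕ) (B : Set ℍ) (Q : ℕ → Set ℍ)
    (hB : ∀ z ∈ B, ∃ i < n, z ∈ Q i) (c : ℝ) (_hc : 0 ≤ c)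
    (hQ : ∀ i < n, ms F (Q i) ≤ ENNReal.ofReal c) :
    ms F B ≤ ENNReal.ofReal (n * c) := by
  have h1 : B ⊆ ⋃ i : Fin n, Q i := by
    intro z hz
    obtain ⟨i, hi, hzi⟩ := hB z hz
    exact mem_iUnion.2 ⟨⟨i, hi⟩, hzi⟩
  have h2 : ms F B ≤ ∑ i : Fin n, ms F (Q i) := by
    refine (lintegral_mono_set h1).trans ?_
    refine (lintegral_iUnion_le _ _).trans ?_
    rw [tsum_fintype]
    exact le_refl _
  refine h2.trans ?_
  refine (Finset.sum_le_sum fun (i : Fin n) _ => hQ i i.2).trans ?_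
  rw [Finset.sum_const, Finset.card_univ, Fintype.card_fin, nsmul_eq_mul,
    ENNReal.ofReal_mul (Nat.cast_nonneg n), ENNReal.ofReal_natCast]

/-- a point of the unit interval is in one of `n` pieces -/
theorem piece_mem (n : ℕ) (hn : 0 < n) (t : ℝ) (ht : t ∈ Icc (0 : ℝ) 1) :
    ∃ i < n, t ∈ Icc ((i : ℝ) / n) ((i : ℝ) / n + 1 / n) := by
  have hnr : (0 : ℝ) < n := by exact_mod_cast hn
  by_cases h1 : t = 1
  · refine ⟨n - 1, by omega, ?_⟩
    have h2 : ((n - 1 : ℕ) : ℝ) = (n : ℝ) - 1 := by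
      rw [Nat.cast_sub hn]
      simp
    rw [h1, h2, ← add_div, sub_add_cancel, div_self hnr.ne']
    refine ⟨?_, le_refl _⟩
    rw [div_le_one hnr]
    linarith
  · have ht1 : t < 1 := lt_of_le_of_ne ht.2 h1
    have h0 : 0 ≤ t * n := mul_nonneg ht.1 hnr.le
    refine ⟨⌊t * n⌋₊, ?_, ?_, ?_⟩
    · rw [Nat.floor_lt h0]
      nlinarith
    · rw [div_le_iff₀ hnr]
      exact Nat.floor_le h0
    · rw [← add_div, le_div_iff₀ hnr]
      exact (Nat.lt_floor_add_one _).le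

end XCurve

open XCurve

theorem prf_Curve (h1 : S_Piece) (h2 : S_BallP) (h3 : S_Cmp) (h4 : S_Iso) : S_Curve := by
  intro N₀ α M hα hα1 hM
  obtain ⟨C₁, τ₀, hC₁, hτ₀, hτ₁, hP⟩ := h1 N₀ α M hα hα1 hM
  obtain ⟨C₂, hC₂, hBall⟩ := h2 N₀ 0 (by norm_num)
  obtain ⟨K, hK, -, hKγ⟩ := h3 M hM
  set σ : ℝ := (2 * α - 1) / 6 with hσ
  set qe : ℝ := (2 * α - 1) / 1000 with hqe
  have hσ0 : 0 < σ := by rw [hσ]; linarith
  have hqe0 : 0 < qe := by rw [hqe]; linarith
  have hσ1 : σ ≤ 1 := by rw [hσ]; linarith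
  set T : ℝ := 1 / τ₀ + 1 with hT
  have hT0 : 0 < T := by positivity
  set r₀ : ℝ := (T ^ 152)⁻¹ with hr₀
  have hr₀0 : 0 < r₀ := by positivity
  obtain ⟨m, hm⟩ := exists_nat_gt K
  have hm0 : 0 < m := by
    have : (0 : ℝ) < m := by linarith
    exact_mod_cast this
  have hmr : (0 : ℝ) < m := by exact_mod_cast hm0
  refine ⟨C₁ * 2 + m * C₂ / r₀ ^ qe, by positivity, ?_⟩
  intro O P F D hO hPg hPl hF hD hms γ γ' h r hγ hh hr hr1
  have hrqe : 0 < r ^ qe := Real.rpow_pos_of_pos hr _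
  have hr₀qe : 0 < r₀ ^ qe := Real.rpow_pos_of_pos hr₀0 _
  by_cases hcase : r₀ ≤ r
  · -- large neighbourhoods
    have hcov : ∀ z ∈ {z : ℍ | ∃ t ∈ Icc (0 : ℝ) 1, dist z (h • γ t) ≤ r}, ∃ i < m,
        z ∈ Metric.closedBall (h • γ ((i : ℝ) / m)) 2 := by
      rintro z ⟨t, ht, hzt⟩
      obtain ⟨i, hi, hti⟩ := piece_mem m hm0 t ht
      refine ⟨i, hi, ?_⟩
      rw [Metric.mem_closedBall]
      have hi1 : (i : ℝ) / m ∈ Icc (0 : ℝ) 1 := ⟨by positivity, hti.1.trans ht.2⟩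
      have h5 := (hKγ α γ γ' (by linarith) hγ).1 t ht _ hi1
      have h6 : |t - (i : ℝ) / m| ≤ 1 / m := by
        rw [abs_le]
        constructor
        · have := hti.1
          have : (0 : ℝ) < 1 / m := by positivity
          linarith
        · linarith [hti.2]
      have h7 : dist (γ t) (γ ((i : ℝ) / m)) ≤ 1 := by
        refine h5.trans ((mul_le_mul_of_nonneg_left h6 (by linarith)).trans ?_)
        rw [mul_one_div, div_le_one hmr]
        exact hm.le
      calc dist z (h • γ ((i : ℝ) / m))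
          ≤ dist z (h • γ t) + dist (h • γ t) (h • γ ((i : ℝ) / m)) := dist_triangle _ _ _
        _ ≤ 1 + 1 := by
            rw [h4]
            exact add_le_add (hzt.trans hr1) h7
        _ = 2 := by norm_num
    have h8 := ms_cover F m _ _ hcov C₂ hC₂.le (fun i _ => by
      have h9 := hBall O P F D hO hPg hPl hF hD hms (h • γ ((i : ℝ) / m)) 2 (by norm_num)
        (by norm_num)
      rwa [Real.rpow_zero, mul_one] at h9)
    refine h8.trans (ENNReal.ofReal_le_ofReal ?_)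
    have h10 : r₀ ^ qe ≤ r ^ qe := Real.rpow_le_rpow hr₀0.le hcase hqe0.le
    have h11 : (m : ℝ) * C₂ ≤ m * C₂ / r₀ ^ qe * r ^ qe := by
      rw [div_mul_eq_mul_div, le_div_iff₀ hr₀qe]
      exact mul_le_mul_of_nonneg_left h10 (by positivity)
    have h12 : 0 ≤ C₁ * 2 * r ^ qe := by positivity
    rw [add_mul]
    linarith
  · -- small neighbourhoods
    push Not at hcase
    set x : ℝ := r ^ (-(1 / 152) : ℝ) with hx
    have hx0 : 0 < x := Real.rpow_pos_of_pos hr _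
    have hx152 : x ^ 152 = r⁻¹ := by
      rw [hx, ← Real.rpow_natCast, ← Real.rpow_mul hr.le]
      norm_num
      exact Real.rpow_neg_one r
    have hTx : T ≤ x := by
      by_contra hc
      push Not at hc
      have h5 : x ^ 152 < T ^ 152 := pow_lt_pow_left₀ hc hx0.le (by norm_num)
      rw [hx152] at h5
      have h6 : T ^ 152 < r⁻¹ := by
        rw [hr₀] at hcase
        exact (lt_inv_comm₀ hr (by positivity)).1 hcase
      linarith
    have h1τ : 1 ≤ 1 / τ₀ := by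
      rw [le_div_iff₀ hτ₀]
      linarith
    have hx2 : 2 ≤ x := by rw [hT] at hTx; linarith
    set n : ℕ := ⌊x⌋₊ with hn
    have hnx : (n : ℝ) ≤ x := Nat.floor_le hx0.le
    have hnx' : x < n + 1 := Nat.lt_floor_add_one x
    have hn1 : 1 / τ₀ ≤ n := by rw [hT] at hTx; linarith
    have hnr : (0 : ℝ) < n := by linarith
    have hn0 : 0 < n := by exact_mod_cast hnr
    have hτ : (1 : ℝ) / n ≤ τ₀ := by
      rw [div_le_iff₀ hnr]
      rw [div_le_iff₀ hτ₀] at hn1
      linarith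
    have hrτ : r ≤ (1 / (n : ℝ)) ^ 152 := by
      rw [one_div, inv_pow, le_inv_comm₀ hr (by positivity), ← hx152]
      exact pow_le_pow_left₀ hnr.le hnx 152
    have hcov : ∀ z ∈ {z : ℍ | ∃ t ∈ Icc (0 : ℝ) 1, dist z (h • γ t) ≤ r}, ∃ i < n,
        z ∈ {z : ℍ | h⁻¹ • z ∈ Nb γ ((i : ℝ) / n) (1 / n) r} := by
      rintro z ⟨t, ht, hzt⟩
      obtain ⟨i, hi, hti⟩ := piece_mem n hn0 t ht
      refine ⟨i, hi, t, hti, ?_⟩
      have h5 : dist (h⁻¹ • z) (γ t) = dist z (h • γ t) := by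
        rw [← h4 h (h⁻¹ • z) (γ t), smul_inv_smul]
      rw [h5]
      exact hzt
    have h8 := ms_cover F n _ _ hcov (C₁ * (1 / (n : ℝ)) ^ (1 + σ)) (by positivity)
      (fun i hi => by
        have hi' : (i : ℝ) + 1 ≤ n := by exact_mod_cast hi
        refine hP O P F D hO hPg hPl hF hD hms γ γ' h ((i : ℝ) / n) (1 / n) r hγ hh
          (by positivity) (by positivity) hτ ?_ hr hrτ
        rw [← add_div, div_le_one hnr]
        exact hi')
    refine h8.trans (ENNReal.ofReal_le_ofReal ?_)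
    have h9 : (n : ℝ) * (C₁ * (1 / (n : ℝ)) ^ (1 + σ)) = C₁ * (1 / (n : ℝ)) ^ σ := by
      rw [Real.rpow_add (by positivity), Real.rpow_one]
      field_simp
    rw [h9]
    have h10 : (1 / (n : ℝ)) ≤ 2 * r ^ (1 / 152 : ℝ) := by
      have h11 : x * r ^ (1 / 152 : ℝ) = 1 := by
        rw [hx, ← Real.rpow_add hr]
        norm_num
      have h12 : x ≤ 2 * n := by linarith
      rw [div_le_iff₀ hnr]
      calc (1 : ℝ) = x * r ^ (1 / 152 : ℝ) := h11.symm
        _ ≤ 2 * n * r ^ (1 / 152 : ℝ) :=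
            mul_le_mul_of_nonneg_right h12 (Real.rpow_nonneg hr.le _)
        _ = _ := by ring
    have h13 : (1 / (n : ℝ)) ^ σ ≤ 2 * r ^ qe := by
      refine (Real.rpow_le_rpow (by positivity) h10 hσ0.le).trans ?_
      rw [Real.mul_rpow (by norm_num) (Real.rpow_nonneg hr.le _), ← Real.rpow_mul hr.le]
      refine mul_le_mul ?_ ?_ (Real.rpow_nonneg hr.le _) (by norm_num)
      · calc (2 : ℝ) ^ σ ≤ 2 ^ (1 : ℝ) :=
              Real.rpow_le_rpow_of_exponent_le (by norm_num) hσ1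
          _ = 2 := Real.rpow_one 2
      · refine Real.rpow_le_rpow_of_exponent_ge hr hr1 ?_
        rw [hqe, hσ]
        linarith
    have h14 : 0 ≤ m * C₂ / r₀ ^ qe * r ^ qe := by positivity
    have h15 : C₁ * (1 / (n : ℝ)) ^ σ ≤ C₁ * (2 * r ^ qe) :=
      mul_le_mul_of_nonneg_left h13 hC₁.le
    rw [add_mul]
    linarith

end Pool.Agent.HoloQUE
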