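import Pool.Agent.Work.MP_d2a4bb_nt.CV.Stmts

/-!
# Item FinC: assembly of Theorem C (curves)
-/

set_option autoImplicit false

open MeasureTheory UpperHalfPlane Matrix HQ Set
open scoped MatrixGroups ModularForm Manifold ENNReal Classical Topology ComplexConjugate

noncomputable section

namespace Pool.Agent.HoloQUE

namespace XFinC

/-- The mass of a measurable set. -/
theorem ms_eq (k : ℕ) (f : ℍ → ℂ) (B : Set ℍ) (hB : MeasurableSet B) :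
    ms (fun z => ‖f z‖ * z.im ^ (((k : ℤ) : ℝ) / 2)) B = mu k f B := by
  rw [ms, mu, withDensity_apply _ hB]
  refine lintegral_congr fun z => ?_
  congr 1
  rw [mul_pow, ← Real.rpow_natCast (z.im ^ (((k : ℤ) : ℝ) / 2)) 2, ← Real.rpow_mul z.im_pos.le,
    ← Real.rpow_natCast z.im k]
  congr 2
  push_cast
  ring

/-- The primes of a good set are good for the order. -/
theorem good (h5 : S_BrB) (Q : QuatOrder) (P : Set ℕ) (N₀ : ℝ → ℕ) (hQ : GoodSet Q P N₀) :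
    ∀ p ∈ P, Good Q.O p := fun p hp =>
  h5 Q p (hQ.2 p hp).1 (hQ.2 p hp).2.1 (hQ.2 p hp).2.2

/-- A Hecke form is an amplified function. -/
theorem amp (h2 : S_AmpP) (h4 : S_BrA) (h5 : S_BrB) (h6 : S_BrCP) (Q : QuatOrder) (P : Set ℕ)
    (N₀ : ℝ → ℕ) (hQ : GoodSet Q P N₀) (k : ℕ) (f : ℍ → ℂ)
    (hf : HeckeP Q P k f) : AmpP Q.O P fun z => ‖f z‖ * z.im ^ (((k : ℤ) : ℝ) / 2) := by
  obtain ⟨hi, he⟩ := h6 Q P k f (h4 Q) hf.even hf.form (fun p hp => (hQ.2 p hp).1) hf.eigen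
  exact h2 Q.O P (k : ℤ) f (h4 Q) (good h5 Q P N₀ hQ) hf.form.1 hi he

theorem fin_cpt {Q : QuatOrder} {P : Set ℕ} {k : ℕ} {f : ℍ → ℂ} (hf : HeckeP Q P k f) :
    IsFiniteMeasureOnCompacts (mu k f) := by
  have h1 : Continuous f := hf.form.1.continuous
  have h2 : Continuous fun z : ℍ => ‖f z‖ ^ 2 * z.im ^ k :=
    (h1.norm.pow 2).mul (UpperHalfPlane.continuous_im.pow k)
  have h3 : IsLocallyFiniteMeasure (mu k f) := IsLocallyFiniteMeasure.withDensity_ofReal h2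
  exact isFiniteMeasureOnCompacts_of_isLocallyFiniteMeasure

theorem smul_coe (h : SL(2, ℝ)) (z : ℍ) : (h : G2) • z = h • z := rfl

/-- The image of the arc is compact. -/
theorem compact {α M : ℝ} {γ : ℝ → ℍ} {γ' : ℝ → ℂ} (hγ : Arc α M γ γ') (h : SL(2, ℝ)) :
    IsCompact ((fun t => h • γ t) '' Icc (0 : ℝ) 1) := by
  have h1 : ContinuousOn (fun s => ((γ s : ℍ) : ℂ)) (Icc 0 1) := fun t ht =>
    (hγ.hd t ht).continuousWithinAt
  have h2 : ContinuousOn γ (Icc 0 1) :=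
    (UpperHalfPlane.isOpenEmbedding_coe.isInducing.continuousOn_iff).mpr h1
  exact isCompact_Icc.image_of_continuousOn
    ((isometry_smul ℍ h).continuous.comp_continuousOn h2)

theorem nb_eq {α M : ℝ} {γ : ℝ → ℍ} {γ' : ℝ → ℂ} (hγ : Arc α M γ γ') (h : SL(2, ℝ)) (r : ℝ)
    (hr : 0 ≤ r) : {z : ℍ | ∃ t ∈ Icc (0 : ℝ) 1, dist z (h • γ t) ≤ r} =
      Metric.cthickening r ((fun t => h • γ t) '' Icc (0 : ℝ) 1) := by
  rw [(compact hγ h).cthickening_eq_biUnion_closedBall hr]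
  ext z
  simp only [mem_ofPred_eq, mem_iUnion, Metric.mem_closedBall, mem_image, exists_prop]
  constructor
  · rintro ⟨t, ht, hz⟩
    exact ⟨h • γ t, ⟨t, ht, rfl⟩, hz⟩
  · rintro ⟨w, ⟨t, ht, rfl⟩, hz⟩
    exact ⟨t, ht, hz⟩

/-- The estimate for one form. -/
theorem one (h2 : S_AmpP) (h4 : S_BrA) (h5 : S_BrB) (h6 : S_BrCP) (h7 : S_BrD) (N₀ : ℝ → ℕ)
    (α M C : ℝ)
    (hC : ∀ (O : Subring Mat) (P : Set ℕ) (F : ℍ → ℝ) (D : Set ℍ),
      QOrder O → (∀ p ∈ P, Good O p) → Plenty P N₀ → AmpP O P F →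
      IsFundamentalDomain (Gam O) D volume → ms F D = 1 →
      ∀ (γ : ℝ → ℍ) (γ' : ℝ → ℂ) (h : G2) (r : ℝ), Arc α M γ γ' → 0 < (h : Mat).det →
        0 < r → r ≤ 1 →
        ms F {z | ∃ t ∈ Icc (0 : ℝ) 1, dist z (h • γ t) ≤ r} ≤
          ENNReal.ofReal (C * r ^ ((2 * α - 1) / 1000)))
    (Q : QuatOrder) (P : Set ℕ) (hQ : GoodSet Q P N₀) (k : ℕ) (f : ℍ → ℂ) (hf : HeckeP Q P k f)
    (γ : ℝ → ℍ) (γ' : ℝ → ℂ) (h : SL(2, ℝ)) (r : ℝ) (hγ : Arc α M γ γ') (hr0 : 0 < r)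
    (hr1 : r ≤ 1) :
    mu k f {z | ∃ t ∈ Icc (0 : ℝ) 1, dist z (h • γ t) ≤ r} ≤
      ENNReal.ofReal (C * r ^ ((2 * α - 1) / 1000)) := by
  obtain ⟨D, hD, hD1⟩ := hf.norm
  have hm : MeasurableSet {z : ℍ | ∃ t ∈ Icc (0 : ℝ) 1, dist z (h • γ t) ≤ r} := by
    rw [nb_eq hγ h r hr0.le]
    exact Metric.isClosed_cthickening.measurableSet
  have hb := hC Q.O P _ D (h4 Q) (good h5 Q P N₀ hQ) hQ.1 (amp h2 h4 h5 h6 Q P N₀ hQ k f hf)
    (h7 Q D hD) (by rw [ms_eq k f D hD.1]; exact hD1) γ γ' (h : G2) r hγ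
    (by simp) hr0 hr1
  simp only [smul_coe] at hb
  rwa [ms_eq k f _ hm] at hb

/-- The limits give mass zero to arcs. -/
theorem arc (h1 : S_Curve) (h2 : S_AmpP) (h3 : S_Lim) (h4 : S_BrA) (h5 : S_BrB) (h6 : S_BrCP)
    (h7 : S_BrD) (h8 : S_ArcM) (N₀ : ℝ → ℕ) (Q : QuatOrder) (P : Set ℕ) (hQ : GoodSet Q P N₀)
    (k : ℕ → ℕ) (f : ℕ → ℍ → ℂ) (ν : Measure ℍ) (hf : ∀ j, HeckeP Q P (k j) (f j))
    (hν : WeakLim k f ν) (hloc : ∀ j, IsFiniteMeasureOnCompacts (mu (k j) (f j)))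
    (γ : ℝ → ℍ) (hγ : IsHArc γ) : ν (γ '' Icc 0 1) = 0 := by
  obtain ⟨α, M, γ', hα, hα1, hM, ha⟩ := h8 γ hγ
  obtain ⟨C, hC0, hC⟩ := h1 N₀ α M hα hα1 hM
  have hδ0 : 0 < (2 * α - 1) / 1000 := by
    apply div_pos _ (by norm_num)
    linarith
  have key := one h2 h4 h5 h6 h7 N₀ α M C hC Q P hQ
  have hK : IsCompact (γ '' Icc (0 : ℝ) 1) := by
    have := compact ha 1
    simpa only [one_smul] using this
  have lim : ∀ r : ℝ, 0 < r → r ≤ 1 → ν (Metric.thickening r (γ '' Icc (0 : ℝ) 1)) ≤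
      ENNReal.ofReal (C * r ^ ((2 * α - 1) / 1000)) := by
    intro r hr0 hr1
    refine h3 (fun j => mu (k j) (f j)) ν hloc hν.1 hν.2 _ _ Metric.isOpen_thickening
      (hK.isBounded.thickening) (mul_nonneg hC0.le (Real.rpow_nonneg hr0.le _)) fun j => ?_
    refine (measure_mono ?_).trans (key (k j) (f j) (hf j) γ γ' 1 r ha hr0 hr1)
    rw [nb_eq ha 1 r hr0.le]
    simp only [one_smul]
    exact Metric.thickening_subset_cthickening r _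
  have ht : Filter.Tendsto (fun r : ℝ => ENNReal.ofReal (C * r ^ ((2 * α - 1) / 1000))) (𝓝[>] 0)
      (𝓝 0) := by
    have hc : ContinuousAt (fun r : ℝ => C * r ^ ((2 * α - 1) / 1000)) 0 :=
      continuousAt_const.mul (Real.continuousAt_rpow_const 0 _ (Or.inr hδ0.le))
    have hc' := ENNReal.tendsto_ofReal (hc.tendsto.mono_left (nhdsWithin_le_nhds (s := Set.Ioi 0)))
    rw [Real.zero_rpow hδ0.ne', mul_zero, ENNReal.ofReal_zero] at hc'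
    exact hc'
  have hz : ν (γ '' Icc (0 : ℝ) 1) ≤ 0 := by
    refine ge_of_tendsto ht ?_
    filter_upwards [Ioc_mem_nhdsGT (zero_lt_one' ℝ)] with r hr
    exact (measure_mono (Metric.self_subset_thickening hr.1 _)).trans (lim r hr.1 hr.2)
  exact le_antisymm hz bot_le

end XFinC

open XFinC in
theorem prf_FinC (h1 : S_Curve) (h2 : S_AmpP) (h3 : S_Lim) (h4 : S_BrA) (h5 : S_BrB)
    (h6 : S_BrCP) (h7 : S_BrD) (h8 : S_ArcM) (h9 : S_ArcC) : FinalC := by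
  intro N₀ α M hα hα1 hM
  obtain ⟨C, hC0, hC⟩ := h1 N₀ α M hα hα1 hM
  refine ⟨C, hC0, fun Q P hQ => ⟨one h2 h4 h5 h6 h7 N₀ α M C hC Q P hQ, ?_⟩⟩
  intro k f ν hf hν
  have hloc : ∀ j, IsFiniteMeasureOnCompacts (mu (k j) (f j)) := fun j => fin_cpt (hf j)
  have hz := arc h1 h2 h3 h4 h5 h6 h7 h8 N₀ Q P hQ k f ν hf hν hloc
  refine ⟨hz, fun γ hγ hd => ?_⟩
  have hsub : range γ ⊆ ⋃ n : ℕ, (fun t => γ (-(n + 1 : ℝ) + ((n + 1 : ℝ) - (-(n + 1 : ℝ))) * t)) ''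
      Icc (0 : ℝ) 1 := by
    rintro _ ⟨s, rfl⟩
    obtain ⟨n, hn⟩ := exists_nat_ge |s|
    have hs := abs_le.mp hn
    rw [mem_iUnion]
    refine ⟨n, (s + (n + 1)) / (2 * (n + 1)), ⟨?_, ?_⟩, ?_⟩
    · apply div_nonneg <;> linarith [hs.1, (Nat.cast_nonneg n : (0 : ℝ) ≤ n)]
    · rw [div_le_one (by positivity)]
      linarith [hs.2]
    · show γ _ = γ s
      congr 1
      field_simp
      ring
  refine measure_mono_null hsub (measure_iUnion_null fun n => ?_)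
  exact hz _ (h9 γ (-(n + 1 : ℝ)) (n + 1) (by linarith [(Nat.cast_nonneg n : (0 : ℝ) ≤ n)]) hγ hd)

end Pool.Agent.HoloQUE
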