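import Pool.Agent.Work.MP_d2a4bb_nt.CV.Stmts
import Pool.Agent.Work.MP_d2a4bb_nt.NC.I_Tube
import Pool.Agent.Work.MP_d2a4bb_nt.NC.I_BallP

/-!
# Item Piece: the estimate for a short piece of a curve
-/

set_option autoImplicit false

open MeasureTheory UpperHalfPlane Matrix HQ Set
open scoped MatrixGroups ModularForm Manifold ENNReal Classical ComplexConjugate

noncomputable section

namespace Pool.Agent.HoloQUE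

namespace XPiece

open XTube

/-! ### Numerical lemmas -/

theorem pw {N τ e x : ℝ} (hτ : 0 < τ) (hN : 0 < N) (h1 : 1 ≤ N * τ ^ e) (h2 : N * τ ^ e ≤ 2)
    (hx : x ≤ 3) : N ^ x ≤ 8 * τ ^ (-(e * x)) := by
  have hte : 0 < τ ^ e := Real.rpow_pos_of_pos hτ _
  have e1 : (N * τ ^ e) ^ x = N ^ x * τ ^ (e * x) := by
    rw [Real.mul_rpow hN.le hte.le, ← Real.rpow_mul hτ.le]
  have e2 : (N * τ ^ e) ^ x ≤ 8 := by
    calc (N * τ ^ e) ^ x ≤ (N * τ ^ e) ^ (3 : ℝ) := Real.rpow_le_rpow_of_exponent_le h1 hx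
      _ ≤ 2 ^ (3 : ℝ) := Real.rpow_le_rpow (by positivity) h2 (by norm_num)
      _ = 8 := by norm_num
  have e3 : N ^ x = (N * τ ^ e) ^ x * τ ^ (-(e * x)) := by
    rw [e1, mul_assoc, ← Real.rpow_add hτ]
    simp
  rw [e3]
  exact mul_le_mul_of_nonneg_right e2 (by positivity)

/-- a term `N ^ x τ ^ y` -/
theorem tm {N τ e x y z : ℝ} (hτ : 0 < τ) (hτ1 : τ ≤ 1) (hN : 0 < N) (h1 : 1 ≤ N * τ ^ e)
    (h2 : N * τ ^ e ≤ 2) (hx : x ≤ 3) (hz : z ≤ y - e * x) : N ^ x * τ ^ y ≤ 8 * τ ^ z := by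
  calc N ^ x * τ ^ y ≤ (8 * τ ^ (-(e * x))) * τ ^ y :=
        mul_le_mul_of_nonneg_right (pw hτ hN h1 h2 hx) (by positivity)
    _ = 8 * τ ^ (y - e * x) := by
        rw [mul_assoc, ← Real.rpow_add hτ]
        congr 2
        ring
    _ ≤ 8 * τ ^ z := by
        refine mul_le_mul_of_nonneg_left ?_ (by norm_num)
        exact Real.rpow_le_rpow_of_exponent_ge hτ hτ1 hz

theorem wsq {N w u : ℝ} (hN : 0 < N) (hw : 0 ≤ w) (hw1 : w ≤ 4 * N ^ (-u)) :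
    w ^ 2 ≤ 16 * N ^ (-(2 * u)) := by
  have : (4 * N ^ (-u)) ^ 2 = 16 * N ^ (-(2 * u)) := by
    rw [mul_pow, ← Real.rpow_natCast (N ^ (-u)) 2, ← Real.rpow_mul hN.le]
    norm_num
    ring_nf
  rw [← this]
  exact pow_le_pow_left₀ hw hw1 2

theorem wfour {N w u : ℝ} (hN : 1 ≤ N) (hw1 : w ≤ 4 * N ^ (-u)) (hu : 0 ≤ u) : w ≤ 4 := by
  refine hw1.trans ?_
  have : N ^ (-u) ≤ 1 := Real.rpow_le_one_of_one_le_of_nonpos hN (by linarith)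
  linarith

theorem numX {K2 c b CB N τ z : ℝ} (hτ : 0 < τ) (hτ1 : τ ≤ 1) (hN : 1 ≤ N) (hNs : N * τ ^ 2 ≤ 2)
    (hK : K2 ≤ b * N ^ 8) (hb : 0 ≤ b) (hCB : 0 ≤ CB) (hc : c = CB * τ ^ 75) (hz : z ≤ 29) :
    √(K2 * c) ≤ √(256 * b * CB) * τ ^ z := by
  have h1 : K2 * c ≤ (256 * b * CB) * (τ ^ 29) ^ 2 := by
    rw [hc]
    have e1 : (N * τ ^ 2) ^ 8 ≤ 256 := by
      calc (N * τ ^ 2) ^ 8 ≤ 2 ^ 8 := pow_le_pow_left₀ (by positivity) hNs 8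
        _ = 256 := by norm_num
    have e2 : τ ^ 59 ≤ τ ^ 58 := pow_le_pow_of_le_one hτ.le hτ1 (by norm_num)
    calc K2 * (CB * τ ^ 75) ≤ (b * N ^ 8) * (CB * τ ^ 75) :=
          mul_le_mul_of_nonneg_right hK (by positivity)
      _ = (b * CB * τ ^ 59) * (N * τ ^ 2) ^ 8 := by ring
      _ ≤ (b * CB * τ ^ 58) * 256 := by
          refine mul_le_mul ?_ e1 (by positivity) (by positivity)
          exact mul_le_mul_of_nonneg_left e2 (by positivity)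
      _ = (256 * b * CB) * (τ ^ 29) ^ 2 := by ring
  calc √(K2 * c) ≤ √((256 * b * CB) * (τ ^ 29) ^ 2) := Real.sqrt_le_sqrt h1
    _ = √(256 * b * CB) * τ ^ 29 := by
        rw [Real.sqrt_mul (by positivity), Real.sqrt_sq (by positivity)]
    _ ≤ √(256 * b * CB) * τ ^ z := by
        refine mul_le_mul_of_nonneg_left ?_ (Real.sqrt_nonneg _)
        rw [← Real.rpow_natCast τ 29]
        exact Real.rpow_le_rpow_of_exponent_ge hτ hτ1 (by norm_num; exact hz)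

/-- the box factors -/
theorem bf {cB m κ : ℝ} (hcB : 0 ≤ cB) (h1 : 1 ≤ m * κ) {q : ℝ} (hq : q ≤ 9) :
    1 + q * m * (cB * κ) ≤ (1 + 9 * cB) * (m * κ) := by
  have h2 : 0 ≤ (9 - q) * (cB * (m * κ)) :=
    mul_nonneg (by linarith) (mul_nonneg hcB (by linarith))
  nlinarith

theorem bf' {cB m κ : ℝ} (hcB : 0 ≤ cB) (h0 : 0 ≤ m * κ) (h1 : m * κ ≤ 2) {q : ℝ}
    (hq : q ≤ 3) : 1 + q * m * (cB * κ) ≤ 1 + 9 * cB := by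
  have h2 : 0 ≤ (3 - q) * (cB * (m * κ)) :=
    mul_nonneg (by linarith) (mul_nonneg hcB h0)
  have h3 : 0 ≤ cB * (2 - m * κ) := mul_nonneg hcB (by linarith)
  nlinarith

theorem one_le_tsq {N : ℝ} (hN : 1 ≤ N) : 1 ≤ (3 * N) ^ 2 := by nlinarith

theorem q625 {N : ℝ} (hN : 1 ≤ N) : (1 + 3 * N * 8) ^ 2 ≤ 625 * N ^ 2 := by nlinarith

theorem q73 {N : ℝ} (hN : 1 ≤ N) : 1 + (3 * N) ^ 2 * 8 ≤ 73 * N ^ 2 := by nlinarith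

theorem le_N2 {N x : ℝ} (hN : 1 ≤ N) (hx : 0 ≤ x) : N * x ≤ N ^ 2 * x :=
  mul_le_mul_of_nonneg_right (by nlinarith) hx

theorem one_le_mm {x : ℝ} (h : 1 ≤ x) : 1 ≤ x * x := by nlinarith

theorem fin {w K1 s m A B Z q : ℝ} (m1 : w ^ 2 * K1 ≤ m * A * Z) (m4 : w * s ≤ 4 * (B * Z))
    (hq : q = 4 * m) : 4 * w ^ 2 * K1 + 2 * w * s ≤ (q * A + 8 * B) * Z := by
  have e1 : 4 * w ^ 2 * K1 = 4 * (w ^ 2 * K1) := by ring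
  have e2 : 2 * w * s = 2 * (w * s) := by ring
  have e3 : (q * A + 8 * B) * Z = 4 * (m * A * Z) + 2 * (4 * (B * Z)) := by rw [hq]; ring
  rw [e1, e2, e3]
  exact add_le_add (mul_le_mul_of_nonneg_left m1 (by norm_num))
    (mul_le_mul_of_nonneg_left m4 (by norm_num))

/-- The parameters. -/
structure Par (α e σ ε τ : ℝ) (N : ℕ) : Prop where
  hα : 1 / 2 < α
  hα1 : α ≤ 1
  he : e = (2 + 2 * α) / 3
  hσ : σ = (2 * α - 1) / 6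
  hε : ε = σ / 8
  hτ : 0 < τ
  hτ1 : τ ≤ 1
  hN : 1 ≤ N
  h1 : 1 ≤ (N : ℝ) * τ ^ e
  h2 : (N : ℝ) * τ ^ e ≤ 2

namespace Par

variable {α e σ ε τ : ℝ} {N : ℕ}

theorem N1 (p : Par α e σ ε τ N) : (1 : ℝ) ≤ N := by exact_mod_cast p.hN

theorem N0 (p : Par α e σ ε τ N) : (0 : ℝ) < N := by linarith [p.N1]

theorem mono (p : Par α e σ ε τ N) {x : ℝ} (hx : x ≤ e) : 1 ≤ (N : ℝ) * τ ^ x :=
  p.h1.trans (mul_le_mul_of_nonneg_left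
    (Real.rpow_le_rpow_of_exponent_ge p.hτ p.hτ1 hx) p.N0.le)

theorem mono' (p : Par α e σ ε τ N) {x : ℝ} (hx : e ≤ x) : (N : ℝ) * τ ^ x ≤ 2 :=
  (mul_le_mul_of_nonneg_left
    (Real.rpow_le_rpow_of_exponent_ge p.hτ p.hτ1 hx) p.N0.le).trans p.h2

theorem a1 (p : Par α e σ ε τ N) : 1 ≤ (N : ℝ) * τ ^ α :=
  p.mono (by have := p.he; have := p.hα1; linarith)

theorem a2 (p : Par α e σ ε τ N) : 1 ≤ (N : ℝ) * τ := by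
  have := p.mono (x := 1) (by have := p.he; have := p.hα; linarith)
  rwa [Real.rpow_one] at this

theorem a3 (p : Par α e σ ε τ N) : (N : ℝ) * τ ^ (1 + α) ≤ 2 :=
  p.mono' (by have := p.he; have := p.hα; linarith)

theorem a3' (p : Par α e σ ε τ N) : 0 ≤ (N : ℝ) * τ ^ (1 + α) := by
  have := p.hτ
  positivity

theorem a4 (p : Par α e σ ε τ N) : (N : ℝ) * τ ^ 2 ≤ 2 := by
  have := p.mono' (x := 2) (by have := p.he; have := p.hα1; linarith)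
  rwa [Real.rpow_two] at this

theorem b1 (p : Par α e σ ε τ N) : 1 ≤ (N : ℝ) ^ 2 * τ ^ α := by
  have h := p.N1
  calc (1 : ℝ) ≤ N * τ ^ α := p.a1
    _ ≤ (N : ℝ) ^ 2 * τ ^ α := le_N2 h (Real.rpow_nonneg p.hτ.le _)

theorem b2 (p : Par α e σ ε τ N) : 1 ≤ (N : ℝ) ^ 2 * τ := by
  have h := p.N1
  calc (1 : ℝ) ≤ N * τ := p.a2
    _ ≤ (N : ℝ) ^ 2 * τ := le_N2 h p.hτ.le

theorem b3 (p : Par α e σ ε τ N) : 1 ≤ (N : ℝ) ^ 2 * τ ^ (1 + α) := by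
  have h := p.N1
  calc (1 : ℝ) ≤ (N * τ ^ e) * (N * τ ^ e) := one_le_mm p.h1
    _ = (N : ℝ) ^ 2 * τ ^ (e + e) := by
        rw [Real.rpow_add p.hτ]
        ring
    _ ≤ (N : ℝ) ^ 2 * τ ^ (1 + α) := by
        refine mul_le_mul_of_nonneg_left ?_ (by positivity)
        exact Real.rpow_le_rpow_of_exponent_ge p.hτ p.hτ1
          (by have := p.he; have := p.hα; linarith)

theorem ε0 (p : Par α e σ ε τ N) : 0 < ε := by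
  have := p.hε; have := p.hσ; have := p.hα; linarith

theorem ε1 (p : Par α e σ ε τ N) : ε ≤ 1 / 48 := by
  have := p.hε; have := p.hσ; have := p.hα1; linarith

/-- the exponent of the main term -/
theorem ex (p : Par α e σ ε τ N) : 1 + σ ≤ e - 4 * e * ε := by
  have h1 := p.hε; have h2 := p.hσ; have h3 := p.hα; have h4 := p.hα1; have h5 := p.he
  have h6 : 0 < ε := p.ε0
  have h7 : e ≤ 4 / 3 := by linarith
  have h8 : e = 1 + 2 * σ := by linarith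
  have h9 : e * ε ≤ 4 / 3 * ε := mul_le_mul_of_nonneg_right h7 h6.le
  nlinarith

theorem e0 (p : Par α e σ ε τ N) : 0 < e := by
  have := p.he; have := p.hα; linarith

theorem eε (p : Par α e σ ε τ N) : 0 < e * ε := mul_pos p.e0 p.ε0

theorem main1 (p : Par α e σ ε τ N) {w K1 a : ℝ} (ha : 0 ≤ a) (hw : 0 ≤ w)
    (hw1 : w ≤ 4 * (N : ℝ) ^ (-(3 / 2 - ε)))
    (hK : K1 ≤ a * ((N : ℝ) ^ (3 : ℝ) * τ ^ (1 + α) + (N : ℝ) ^ (2 : ℝ))) :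
    w ^ 2 * K1 ≤ 256 * a * τ ^ (1 + σ) := by
  have hw2 := wsq p.N0 hw hw1
  have hN0 := p.N0
  have hτ := p.hτ
  have h1 := p.ex
  have h2 := p.eε
  have h3 := p.he
  have h4 := p.hα
  have t1 : (N : ℝ) ^ (2 * ε) * τ ^ (1 + α) ≤ 8 * τ ^ (1 + σ) :=
    tm hτ p.hτ1 hN0 p.h1 p.h2 (by have := p.ε1; linarith) (by nlinarith)
  have t2 : (N : ℝ) ^ (-1 + 2 * ε) * τ ^ (0 : ℝ) ≤ 8 * τ ^ (1 + σ) :=
    tm hτ p.hτ1 hN0 p.h1 p.h2 (by have := p.ε1; linarith) (by nlinarith)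
  rw [Real.rpow_zero, mul_one] at t2
  have e1 : (N : ℝ) ^ (-(2 * (3 / 2 - ε))) * (N : ℝ) ^ (3 : ℝ) = (N : ℝ) ^ (2 * ε) := by
    rw [← Real.rpow_add hN0]
    congr 1
    ring
  have e2 : (N : ℝ) ^ (-(2 * (3 / 2 - ε))) * (N : ℝ) ^ (2 : ℝ) = (N : ℝ) ^ (-1 + 2 * ε) := by
    rw [← Real.rpow_add hN0]
    congr 1
    ring
  calc w ^ 2 * K1 ≤ w ^ 2 * (a * ((N : ℝ) ^ (3 : ℝ) * τ ^ (1 + α) + (N : ℝ) ^ (2 : ℝ))) :=
        mul_le_mul_of_nonneg_left hK (sq_nonneg w)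
    _ ≤ (16 * (N : ℝ) ^ (-(2 * (3 / 2 - ε)))) *
          (a * ((N : ℝ) ^ (3 : ℝ) * τ ^ (1 + α) + (N : ℝ) ^ (2 : ℝ))) :=
        mul_le_mul_of_nonneg_right hw2 (by positivity)
    _ = 16 * a * (((N : ℝ) ^ (-(2 * (3 / 2 - ε))) * (N : ℝ) ^ (3 : ℝ)) * τ ^ (1 + α) +
          (N : ℝ) ^ (-(2 * (3 / 2 - ε))) * (N : ℝ) ^ (2 : ℝ)) := by ring
    _ = 16 * a * ((N : ℝ) ^ (2 * ε) * τ ^ (1 + α) + (N : ℝ) ^ (-1 + 2 * ε)) := by rw [e1, e2]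
    _ ≤ 16 * a * (8 * τ ^ (1 + σ) + 8 * τ ^ (1 + σ)) :=
        mul_le_mul_of_nonneg_left (add_le_add t1 t2) (by positivity)
    _ = 256 * a * τ ^ (1 + σ) := by ring

theorem main2 (p : Par α e σ ε τ N) {w K1 a : ℝ} (ha : 0 ≤ a) (hw : 0 ≤ w)
    (hw1 : w ≤ 4 * (N : ℝ) ^ (-(2 - ε)))
    (hK : K1 ≤ a * ((N : ℝ) ^ (6 + 2 * ε) * τ ^ (2 + 2 * α) +
      (N : ℝ) ^ (3 + ε) * τ ^ (1 + α) + (N : ℝ) ^ (3 : ℝ))) :
    w ^ 2 * K1 ≤ 384 * a * τ ^ (1 + σ) := by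
  have hw2 := wsq p.N0 hw hw1
  have hN0 := p.N0
  have hτ := p.hτ
  have h1 := p.ex
  have h2 := p.eε
  have h3 := p.he
  have h4 := p.hα
  have t1 : (N : ℝ) ^ (2 + 4 * ε) * τ ^ (2 + 2 * α) ≤ 8 * τ ^ (1 + σ) :=
    tm hτ p.hτ1 hN0 p.h1 p.h2 (by have := p.ε1; linarith) (by nlinarith)
  have t2 : (N : ℝ) ^ (-1 + 3 * ε) * τ ^ (1 + α) ≤ 8 * τ ^ (1 + σ) :=
    tm hτ p.hτ1 hN0 p.h1 p.h2 (by have := p.ε1; linarith) (by nlinarith)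
  have t3 : (N : ℝ) ^ (-1 + 2 * ε) * τ ^ (0 : ℝ) ≤ 8 * τ ^ (1 + σ) :=
    tm hτ p.hτ1 hN0 p.h1 p.h2 (by have := p.ε1; linarith) (by nlinarith)
  rw [Real.rpow_zero, mul_one] at t3
  have e1 : (N : ℝ) ^ (-(2 * (2 - ε))) * (N : ℝ) ^ (6 + 2 * ε) = (N : ℝ) ^ (2 + 4 * ε) := by
    rw [← Real.rpow_add hN0]
    congr 1
    ring
  have e2 : (N : ℝ) ^ (-(2 * (2 - ε))) * (N : ℝ) ^ (3 + ε) = (N : ℝ) ^ (-1 + 3 * ε) := by
    rw [← Real.rpow_add hN0]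
    congr 1
    ring
  have e3 : (N : ℝ) ^ (-(2 * (2 - ε))) * (N : ℝ) ^ (3 : ℝ) = (N : ℝ) ^ (-1 + 2 * ε) := by
    rw [← Real.rpow_add hN0]
    congr 1
    ring
  calc w ^ 2 * K1 ≤ w ^ 2 * (a * ((N : ℝ) ^ (6 + 2 * ε) * τ ^ (2 + 2 * α) +
          (N : ℝ) ^ (3 + ε) * τ ^ (1 + α) + (N : ℝ) ^ (3 : ℝ))) :=
        mul_le_mul_of_nonneg_left hK (sq_nonneg w)
    _ ≤ (16 * (N : ℝ) ^ (-(2 * (2 - ε)))) * (a * ((N : ℝ) ^ (6 + 2 * ε) * τ ^ (2 + 2 * α) +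
          (N : ℝ) ^ (3 + ε) * τ ^ (1 + α) + (N : ℝ) ^ (3 : ℝ))) :=
        mul_le_mul_of_nonneg_right hw2 (by positivity)
    _ = 16 * a * (((N : ℝ) ^ (-(2 * (2 - ε))) * (N : ℝ) ^ (6 + 2 * ε)) * τ ^ (2 + 2 * α) +
          ((N : ℝ) ^ (-(2 * (2 - ε))) * (N : ℝ) ^ (3 + ε)) * τ ^ (1 + α) +
          (N : ℝ) ^ (-(2 * (2 - ε))) * (N : ℝ) ^ (3 : ℝ)) := by ring
    _ = 16 * a * ((N : ℝ) ^ (2 + 4 * ε) * τ ^ (2 + 2 * α) +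
          (N : ℝ) ^ (-1 + 3 * ε) * τ ^ (1 + α) + (N : ℝ) ^ (-1 + 2 * ε)) := by rw [e1, e2, e3]
    _ ≤ 16 * a * (8 * τ ^ (1 + σ) + 8 * τ ^ (1 + σ) + 8 * τ ^ (1 + σ)) :=
        mul_le_mul_of_nonneg_left (add_le_add (add_le_add t1 t2) t3) (by positivity)
    _ = 384 * a * τ ^ (1 + σ) := by ring

end Par

/-! ### The two types -/

theorem one_le_L {cB κ : ℝ} (hcB : 0 ≤ cB) (h0 : 0 ≤ κ) (h1 : κ ≤ 1) :
    1 + 1 * (cB * κ) ≤ 1 + 9 * cB := by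
  have : cB * κ ≤ cB * 1 := mul_le_mul_of_nonneg_left h1 hcB
  linarith

theorem typeA (h1 : S_Ma) (h11 : S_TTp) {O : Subring Mat} {F : ℍ → ℝ} {D B : Set ℍ}
    {P : Finset ℕ} {N : ℕ} {A : ℕ → Finset G2} {α e σ ε τ c CB cB c1 k1 : ℝ} {h : G2}
    {S₁ S₂ : Set G2} (q : Par α e σ ε τ N)
    (hO : QOrder O) (hFc : Continuous F) (hF : ∀ z, 0 ≤ F z)
    (hFi : ∀ g ∈ normOne O, ∀ z, F (g • z) = F z)
    (hD : IsFundamentalDomain (Gam O) D volume) (hm : ms F D = 1)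
    (hB1 : MeasurableSet B) (hB2 : Bornology.IsBounded B) (hh : 0 < (h : Mat).det)
    (hS1 : ScInv S₁) (hS2 : ScInv S₂)
    (hP : ∀ p ∈ P, Good O p ∧ N < p ∧ p ≤ 3 * N ∧ Reps O p (A p) ∧ (A p).card = p + 1)
    (hPn : (N : ℝ) ^ (1 - ε) ≤ 2 * P.card) (hPc : P.card ≤ 3 * N)
    (hA : ∀ p ∈ P, ∀ z, F z ≤ 2 / √(p : ℝ) * ∑ x ∈ A p, F (x • z))
    (hc : c = CB * τ ^ 75) (hCB : 0 ≤ CB) (hcB : 0 ≤ cB) (hc1 : 0 ≤ c1) (hk1 : 0 ≤ k1)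
    (hS₂ : ∀ g : G2, 0 < (g : Mat).det → ∀ z ∈ B, g • z ∈ B → g ∈ S₂)
    (hS₁ : ∀ g : G2, 0 < (g : Mat).det → g ∉ S₁ →
      ms F {z ∈ B | g • z ∈ B ∧ Or (h⁻¹ * g * h) (h⁻¹ • z)} ≤ ENNReal.ofReal c)
    (f1 : ∀ X : ℝ, 1 ≤ X → (C1 O S₁ X).Finite ∧ ((C1 O S₁ X).ncard : ℝ) ≤
      c1 * √X * ((1 + √X * (cB * τ ^ α)) * (1 + √X * (cB * τ)) *
        (1 + √X * (cB * τ ^ (1 + α)))))
    (f2 : ∀ X : ℝ, 1 ≤ X → (C1 O S₂ X).Finite ∧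
      ((C1 O S₂ X).ncard : ℝ) ≤ k1 * X * (1 + √X * 8) ^ 2) :
    ms F B ≤ ENNReal.ofReal
      ((1024 * (12 * c1 * (1 + 9 * cB) ^ 3) + 8 * √(256 * (20000 * k1) * CB)) *
        τ ^ (1 + σ)) := by
  have hN1 := q.N1
  have hN0 := q.N0
  have hτ := q.hτ
  have hτ1 := q.hτ1
  have hPc' : (P.card : ℝ) ≤ 3 * N := by exact_mod_cast hPc
  have hm0 : (0 : ℝ) < P.card := by
    have := Real.rpow_pos_of_pos hN0 (1 - ε)
    linarith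
  have hm0' : 0 < P.card := by exact_mod_cast hm0
  have hR1 : ((3 * N : ℕ) : ℝ) = 3 * N := by push_cast; ring
  have hX1 : (1 : ℝ) ≤ ((3 * N : ℕ) : ℝ) ^ 2 := by
    rw [hR1]
    exact one_le_tsq hN1
  have hP' : ∀ p ∈ P, Good O p ∧ p ≤ 3 * N ∧ Reps O p (A p) ∧ (A p).card = p + 1 :=
    fun p hp => ⟨(hP p hp).1, (hP p hp).2.2.1, (hP p hp).2.2.2⟩
  obtain ⟨K1, hK1, hK1'⟩ := triA h1 hO hS1 hP' (f1 _ hX1).1 (f1 _ hX1).2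
    (f1 1 le_rfl).1 (f1 1 le_rfl).2
  obtain ⟨K2, hK2, hK2'⟩ := triA h1 hO hS2 hP' (f2 _ hX1).1 (f2 _ hX1).2
    (f2 1 le_rfl).1 (f2 1 le_rfl).2
  rw [hR1] at hK1' hK2'
  rw [Real.sqrt_sq (by positivity), Real.sqrt_one] at hK1' hK2'
  have hR3 : (P.card : ℝ) * (3 * N + 1) ≤ 12 * (N : ℝ) ^ 2 := by
    calc (P.card : ℝ) * (3 * N + 1) ≤ (3 * N) * (4 * N) :=
          mul_le_mul hPc' (by linarith) (by positivity) (by positivity)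
      _ = 12 * (N : ℝ) ^ 2 := by ring
  have hτα : τ ^ α ≤ 1 := Real.rpow_le_one hτ.le hτ1 (by linarith [q.hα])
  have hτα1 : τ ^ (1 + α) ≤ 1 := Real.rpow_le_one hτ.le hτ1 (by linarith [q.hα])
  have hτα0 : 0 ≤ τ ^ α := Real.rpow_nonneg hτ.le _
  have hτα10 : 0 ≤ τ ^ (1 + α) := Real.rpow_nonneg hτ.le _
  have hL : 0 ≤ 1 + 9 * cB := by linarith
  have hpow : τ ^ (1 + α) = τ * τ ^ α := by rw [Real.rpow_add hτ, Real.rpow_one]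
  have hK12 : (K1 : ℝ) ≤ (12 * c1 * (1 + 9 * cB) ^ 3) *
      ((N : ℝ) ^ (3 : ℝ) * τ ^ (1 + α) + (N : ℝ) ^ (2 : ℝ)) := by
    have r3 : (N : ℝ) ^ (3 : ℝ) = (N : ℝ) ^ 3 := by exact_mod_cast Real.rpow_natCast (N : ℝ) 3
    have r2 : (N : ℝ) ^ (2 : ℝ) = (N : ℝ) ^ 2 := by exact_mod_cast Real.rpow_natCast (N : ℝ) 2
    have t1 : c1 * (3 * N) * ((1 + 3 * N * (cB * τ ^ α)) * (1 + 3 * N * (cB * τ)) *
        (1 + 3 * N * (cB * τ ^ (1 + α)))) ≤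
        c1 * (3 * N) * (((1 + 9 * cB) * (N * τ ^ α)) * ((1 + 9 * cB) * (N * τ)) *
        (1 + 9 * cB)) := by
      have b1 := bf hcB q.a1 (q := 3) (by norm_num)
      have b2 := bf hcB q.a2 (q := 3) (by norm_num)
      have b3 := bf' hcB q.a3' q.a3 (q := 3) (by norm_num)
      gcongr
    have t2 : c1 * 1 * ((1 + 1 * (cB * τ ^ α)) * (1 + 1 * (cB * τ)) *
        (1 + 1 * (cB * τ ^ (1 + α)))) ≤
        c1 * 1 * ((1 + 9 * cB) * (1 + 9 * cB) * (1 + 9 * cB)) := by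
      have b1 := one_le_L hcB hτα0 hτα
      have b2 := one_le_L hcB hτ.le hτ1
      have b3 := one_le_L hcB hτα10 hτα1
      gcongr
    have hz : (0 : ℝ) ≤ c1 * 1 * ((1 + 9 * cB) * (1 + 9 * cB) * (1 + 9 * cB)) := by positivity
    rw [r3, r2]
    calc (K1 : ℝ) ≤ 2 * (c1 * (3 * N) * ((1 + 3 * N * (cB * τ ^ α)) *
            (1 + 3 * N * (cB * τ)) * (1 + 3 * N * (cB * τ ^ (1 + α))))) +
          P.card * (3 * N + 1) * (c1 * 1 * ((1 + 1 * (cB * τ ^ α)) * (1 + 1 * (cB * τ)) *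
            (1 + 1 * (cB * τ ^ (1 + α))))) := hK1'
      _ ≤ 2 * (c1 * (3 * N) * (((1 + 9 * cB) * (N * τ ^ α)) * ((1 + 9 * cB) * (N * τ)) *
            (1 + 9 * cB))) +
          (12 * (N : ℝ) ^ 2) * (c1 * 1 * ((1 + 9 * cB) * (1 + 9 * cB) * (1 + 9 * cB))) := by
          refine add_le_add (mul_le_mul_of_nonneg_left t1 (by norm_num)) ?_
          exact mul_le_mul hR3 t2 (by positivity) (by positivity)
      _ = c1 * (1 + 9 * cB) ^ 3 * (6 * ((N : ℝ) ^ 3 * (τ * τ ^ α)) + 12 * (N : ℝ) ^ 2) := by ring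
      _ ≤ c1 * (1 + 9 * cB) ^ 3 * (12 * ((N : ℝ) ^ 3 * (τ * τ ^ α)) + 12 * (N : ℝ) ^ 2) := by
          refine mul_le_mul_of_nonneg_left ?_ (by positivity)
          have : 0 ≤ (N : ℝ) ^ 3 * (τ * τ ^ α) := by positivity
          linarith
      _ = (12 * c1 * (1 + 9 * cB) ^ 3) * ((N : ℝ) ^ 3 * τ ^ (1 + α) + (N : ℝ) ^ 2) := by
          rw [hpow]
          ring
  have hK22 : (K2 : ℝ) ≤ 20000 * k1 * (N : ℝ) ^ 8 := by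
    have e1 : (1 + 3 * (N : ℝ) * 8) ^ 2 ≤ 625 * (N : ℝ) ^ 2 := q625 hN1
    have e2 : (N : ℝ) ^ 4 ≤ (N : ℝ) ^ 8 := pow_le_pow_right₀ hN1 (by norm_num)
    have e3 : (N : ℝ) ^ 2 ≤ (N : ℝ) ^ 8 := pow_le_pow_right₀ hN1 (by norm_num)
    calc (K2 : ℝ) ≤ 2 * (k1 * (3 * N) ^ 2 * (1 + 3 * N * 8) ^ 2) +
          P.card * (3 * N + 1) * (k1 * 1 * (1 + 1 * 8) ^ 2) := hK2'
      _ ≤ 2 * (k1 * (3 * N) ^ 2 * (625 * (N : ℝ) ^ 2)) +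
          (12 * (N : ℝ) ^ 2) * (k1 * 1 * (1 + 1 * 8) ^ 2) := by
          gcongr
      _ = k1 * (11250 * (N : ℝ) ^ 4 + 972 * (N : ℝ) ^ 2) := by ring
      _ ≤ k1 * (20000 * (N : ℝ) ^ 8) := by
          refine mul_le_mul_of_nonneg_left ?_ hk1
          linarith
      _ = 20000 * k1 * (N : ℝ) ^ 8 := by ring
  have hdet : ∀ x ∈ P.biUnion A, 0 < (x : Mat).det := by
    intro x hx
    obtain ⟨p, hp, hx⟩ := Finset.mem_biUnion.1 hx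
    rw [((hP p hp).2.2.2.1.mem x hx).2]
    exact_mod_cast lt_of_le_of_lt (Nat.zero_le _) (hP p hp).2.1
  set w : ℝ := 2 / (√(N : ℝ) * P.card) with hw
  have hw0 : 0 ≤ w := by positivity
  have hc0 : 0 ≤ c := by rw [hc]; positivity
  have key := h11 O F D B (P.biUnion A) w h S₁ S₂ K1 K2 c hO
    hFc hF hFi hD hm hB1 hw0 hh
    (fun z _ => avgA q.hN hF (fun p hp => (hP p hp).2.1) (fun p hp => (hP p hp).2.2.2.1) hm0' hA z)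
    hB2 hdet hc0 hS₂ hS₁ hK1 hK2
  have hw1 : w ≤ 4 * (N : ℝ) ^ (-(3 / 2 - ε)) := by
    rw [hw, Real.rpow_neg hN0.le, div_le_iff₀ (by positivity)]
    have e1 : √(N : ℝ) * (N : ℝ) ^ (1 - ε) = (N : ℝ) ^ (3 / 2 - ε) := by
      rw [Real.sqrt_eq_rpow, ← Real.rpow_add hN0]
      congr 1
      ring
    have e2 : (N : ℝ) ^ (3 / 2 - ε) ≤ √(N : ℝ) * (2 * P.card) := by
      rw [← e1]
      exact mul_le_mul_of_nonneg_left hPn (Real.sqrt_nonneg _)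
    have e3 : 0 < (N : ℝ) ^ (3 / 2 - ε) := Real.rpow_pos_of_pos hN0 _
    calc (2 : ℝ) = 2 * (((N : ℝ) ^ (3 / 2 - ε))⁻¹ * (N : ℝ) ^ (3 / 2 - ε)) := by
          rw [inv_mul_cancel₀ e3.ne', mul_one]
      _ ≤ 2 * (((N : ℝ) ^ (3 / 2 - ε))⁻¹ * (√(N : ℝ) * (2 * P.card))) := by gcongr
      _ = _ := by ring
  refine key.trans (ENNReal.ofReal_le_ofReal ?_)
  have m1 := q.main1 (by positivity) hw0 hw1 hK12
  have m2 : √(K2 * c) ≤ √(256 * (20000 * k1) * CB) * τ ^ (1 + σ) :=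
    numX hτ hτ1 hN1 q.a4 hK22 (by positivity) hCB hc (by have := q.hσ; have := q.hα1; linarith)
  have m3 : w ≤ 4 := wfour hN1 hw1 (by have := q.ε1; linarith)
  have m4 : w * √(K2 * c) ≤ 4 * (√(256 * (20000 * k1) * CB) * τ ^ (1 + σ)) :=
    mul_le_mul m3 m2 (Real.sqrt_nonneg _) (by norm_num)
  exact fin m1 m4 (by norm_num)

theorem typeB (h2 : S_Mb) (h11 : S_TTp) (h12 : S_NBi) {O : Subring Mat} {F : ℍ → ℝ} {D B : Set ℍ}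
    {P : Finset ℕ} {N : ℕ} {A : ℕ → Finset G2} {α e σ ε τ c CB cB c2 k2 : ℝ} {h : G2}
    {S₁ S₂ : Set G2} (q : Par α e σ ε τ N)
    (hO : QOrder O) (hFc : Continuous F) (hF : ∀ z, 0 ≤ F z)
    (hFi : ∀ g ∈ normOne O, ∀ z, F (g • z) = F z)
    (hD : IsFundamentalDomain (Gam O) D volume) (hm : ms F D = 1)
    (hB1 : MeasurableSet B) (hB2 : Bornology.IsBounded B) (hh : 0 < (h : Mat).det)
    (hS1 : ScInv S₁) (hS2 : ScInv S₂)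
    (hP : ∀ p ∈ P, Good O p ∧ N < p ∧ p ≤ 3 * N ∧ Reps O p (A p) ∧ (A p).card = p + 1)
    (hPn : (N : ℝ) ^ (1 - ε) ≤ 2 * P.card) (hPc : P.card ≤ 3 * N)
    (hA : ∀ p ∈ P, ∀ z, F z ≤ 4 / (3 * (p : ℝ)) * ∑ x ∈ NB O p (A p), F (x • z))
    (hc : c = CB * τ ^ 75) (hCB : 0 ≤ CB) (hcB : 0 ≤ cB) (hc2 : 0 ≤ c2) (hk2 : 0 ≤ k2)
    (hS₂ : ∀ g : G2, 0 < (g : Mat).det → ∀ z ∈ B, g • z ∈ B → g ∈ S₂)
    (hS₁ : ∀ g : G2, 0 < (g : Mat).det → g ∉ S₁ →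
      ms F {z ∈ B | g • z ∈ B ∧ Or (h⁻¹ * g * h) (h⁻¹ • z)} ≤ ENNReal.ofReal c)
    (f1 : ∀ Y : ℝ, 1 ≤ Y → (C2 O S₁ Y).Finite ∧ ((C2 O S₁ Y).ncard : ℝ) ≤
      c2 * (Y ^ ε * ((1 + Y * (cB * τ ^ α)) * (1 + Y * (cB * τ)) *
        (1 + Y * (cB * τ ^ (1 + α)))) + Y))
    (f2 : ∀ Y : ℝ, 1 ≤ Y → (C2 O S₂ Y).Finite ∧
      ((C2 O S₂ Y).ncard : ℝ) ≤ k2 * Y ^ (1 + 1 : ℝ) * (1 + Y * 8) ^ 2) :
    ms F B ≤ ENNReal.ofReal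
      ((1536 * (126 * c2 * (1 + 9 * cB) ^ 3) + 8 * √(256 * (900000 * k2) * CB)) *
        τ ^ (1 + σ)) := by
  have hN1 := q.N1
  have hN0 := q.N0
  have hτ := q.hτ
  have hτ1 := q.hτ1
  have hε0 := q.ε0
  have hε1 := q.ε1
  have hPc' : (P.card : ℝ) ≤ 3 * N := by exact_mod_cast hPc
  have hm0 : (0 : ℝ) < P.card := by
    have := Real.rpow_pos_of_pos hN0 (1 - ε)
    linarith
  have hm0' : 0 < P.card := by exact_mod_cast hm0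
  have hR1 : ((3 * N : ℕ) : ℝ) = 3 * N := by push_cast; ring
  have hY1 : (1 : ℝ) ≤ ((3 * N : ℕ) : ℝ) := by
    rw [hR1]
    linarith
  have hX1 : (1 : ℝ) ≤ ((3 * N : ℕ) : ℝ) ^ 2 := by
    rw [hR1]
    exact one_le_tsq hN1
  have hP' : ∀ p ∈ P, Good O p ∧ p ≤ 3 * N ∧ Reps O p (A p) ∧ (A p).card = p + 1 :=
    fun p hp => ⟨(hP p hp).1, (hP p hp).2.2.1, (hP p hp).2.2.2⟩
  obtain ⟨K1, hK1, hK1'⟩ := triB h2 hO hS1 hP' (f1 _ hX1).1 (f1 _ hX1).2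
    (f1 _ hY1).1 (f1 _ hY1).2 (f1 1 le_rfl).1 (f1 1 le_rfl).2
  obtain ⟨K2, hK2, hK2'⟩ := triB h2 hO hS2 hP' (f2 _ hX1).1 (f2 _ hX1).2
    (f2 _ hY1).1 (f2 _ hY1).2 (f2 1 le_rfl).1 (f2 1 le_rfl).2
  rw [hR1] at hK1' hK2'
  have hR3 : (P.card : ℝ) * (3 * N + 1) ^ 2 ≤ 48 * (N : ℝ) ^ 3 := by
    calc (P.card : ℝ) * (3 * N + 1) ^ 2 ≤ (3 * N) * (4 * N) ^ 2 :=
          mul_le_mul hPc' (pow_le_pow_left₀ (by positivity) (by linarith) 2) (by positivity)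
            (by positivity)
      _ = 48 * (N : ℝ) ^ 3 := by ring
  have hτα : τ ^ α ≤ 1 := Real.rpow_le_one hτ.le hτ1 (by linarith [q.hα])
  have hτα1 : τ ^ (1 + α) ≤ 1 := Real.rpow_le_one hτ.le hτ1 (by linarith [q.hα])
  have hτα0 : 0 ≤ τ ^ α := Real.rpow_nonneg hτ.le _
  have hτα10 : 0 ≤ τ ^ (1 + α) := Real.rpow_nonneg hτ.le _
  have hL : 0 ≤ 1 + 9 * cB := by linarith
  have hL1 : 1 ≤ (1 + 9 * cB) ^ 3 := one_le_pow₀ (by linarith)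
  have hpow : τ ^ (1 + α) = τ * τ ^ α := by rw [Real.rpow_add hτ, Real.rpow_one]
  have hpow2 : τ ^ (2 + 2 * α) = τ ^ α * τ * τ ^ (1 + α) := by
    rw [show 2 + 2 * α = α + 1 + (1 + α) by ring, Real.rpow_add hτ, Real.rpow_add hτ α 1,
      Real.rpow_one]
  have hK12 : (K1 : ℝ) ≤ (126 * c2 * (1 + 9 * cB) ^ 3) *
      ((N : ℝ) ^ (6 + 2 * ε) * τ ^ (2 + 2 * α) +
      (N : ℝ) ^ (3 + ε) * τ ^ (1 + α) + (N : ℝ) ^ (3 : ℝ)) := by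
    have r3 : (N : ℝ) ^ (3 : ℝ) = (N : ℝ) ^ 3 := by exact_mod_cast Real.rpow_natCast (N : ℝ) 3
    have r6 : (N : ℝ) ^ (6 + 2 * ε) = (N : ℝ) ^ 6 * (N : ℝ) ^ (2 * ε) := by
      rw [Real.rpow_add hN0]
      congr 1
      exact_mod_cast Real.rpow_natCast (N : ℝ) 6
    have r4 : (N : ℝ) ^ (3 + ε) = (N : ℝ) ^ 3 * (N : ℝ) ^ ε := by
      rw [Real.rpow_add hN0, r3]
    have y1 : (3 * (N : ℝ)) ^ ε ≤ 3 * (N : ℝ) ^ ε := by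
      rw [Real.mul_rpow (by norm_num) hN0.le]
      refine mul_le_mul_of_nonneg_right ?_ (by positivity)
      calc (3 : ℝ) ^ ε ≤ (3 : ℝ) ^ (1 : ℝ) :=
            Real.rpow_le_rpow_of_exponent_le (by norm_num) (by linarith)
        _ = 3 := Real.rpow_one _
    have y2 : ((3 * (N : ℝ)) ^ 2) ^ ε ≤ 9 * (N : ℝ) ^ (2 * ε) := by
      have e3 : ((3 * (N : ℝ)) ^ 2) ^ ε = ((3 * (N : ℝ)) ^ ε) ^ 2 := by
        rw [← Real.rpow_natCast (3 * (N : ℝ)) 2, ← Real.rpow_mul (by positivity),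
          ← Real.rpow_natCast ((3 * (N : ℝ)) ^ ε) 2, ← Real.rpow_mul (by positivity)]
        congr 1
        ring
      have e4 : ((N : ℝ) ^ ε) ^ 2 = (N : ℝ) ^ (2 * ε) := by
        rw [← Real.rpow_natCast ((N : ℝ) ^ ε) 2, ← Real.rpow_mul (by positivity)]
        congr 1
        push_cast
        ring
      rw [e3]
      calc ((3 * (N : ℝ)) ^ ε) ^ 2 ≤ (3 * (N : ℝ) ^ ε) ^ 2 :=
            pow_le_pow_left₀ (by positivity) y1 2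
        _ = 9 * ((N : ℝ) ^ ε) ^ 2 := by ring
        _ = _ := by rw [e4]
    have u1 : 1 + (3 * (N : ℝ)) ^ 2 * (cB * τ ^ α) ≤ (1 + 9 * cB) * ((N : ℝ) ^ 2 * τ ^ α) := by
      have := bf hcB q.b1 (q := 9) le_rfl
      calc 1 + (3 * (N : ℝ)) ^ 2 * (cB * τ ^ α) = 1 + 9 * (N : ℝ) ^ 2 * (cB * τ ^ α) := by ring
        _ ≤ _ := this
    have u2 : 1 + (3 * (N : ℝ)) ^ 2 * (cB * τ) ≤ (1 + 9 * cB) * ((N : ℝ) ^ 2 * τ) := by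
      have := bf hcB q.b2 (q := 9) le_rfl
      calc 1 + (3 * (N : ℝ)) ^ 2 * (cB * τ) = 1 + 9 * (N : ℝ) ^ 2 * (cB * τ) := by ring
        _ ≤ _ := this
    have u3 : 1 + (3 * (N : ℝ)) ^ 2 * (cB * τ ^ (1 + α)) ≤
        (1 + 9 * cB) * ((N : ℝ) ^ 2 * τ ^ (1 + α)) := by
      have := bf hcB q.b3 (q := 9) le_rfl
      calc 1 + (3 * (N : ℝ)) ^ 2 * (cB * τ ^ (1 + α)) =
            1 + 9 * (N : ℝ) ^ 2 * (cB * τ ^ (1 + α)) := by ring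
        _ ≤ _ := this
    have t1 : c2 * (((3 * (N : ℝ)) ^ 2) ^ ε * ((1 + (3 * (N : ℝ)) ^ 2 * (cB * τ ^ α)) *
        (1 + (3 * (N : ℝ)) ^ 2 * (cB * τ)) * (1 + (3 * (N : ℝ)) ^ 2 * (cB * τ ^ (1 + α)))) +
        (3 * (N : ℝ)) ^ 2) ≤
        c2 * ((9 * (N : ℝ) ^ (2 * ε)) * (((1 + 9 * cB) * ((N : ℝ) ^ 2 * τ ^ α)) *
        ((1 + 9 * cB) * ((N : ℝ) ^ 2 * τ)) * ((1 + 9 * cB) * ((N : ℝ) ^ 2 * τ ^ (1 + α)))) +
        (3 * (N : ℝ)) ^ 2) := by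
      gcongr
    have t2 : c2 * ((3 * (N : ℝ)) ^ ε * ((1 + 3 * (N : ℝ) * (cB * τ ^ α)) *
        (1 + 3 * (N : ℝ) * (cB * τ)) * (1 + 3 * (N : ℝ) * (cB * τ ^ (1 + α)))) +
        3 * (N : ℝ)) ≤
        c2 * ((3 * (N : ℝ) ^ ε) * (((1 + 9 * cB) * (N * τ ^ α)) * ((1 + 9 * cB) * (N * τ)) *
        (1 + 9 * cB)) + 3 * (N : ℝ)) := by
      have b1 := bf hcB q.a1 (q := 3) (by norm_num)
      have b2 := bf hcB q.a2 (q := 3) (by norm_num)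
      have b3 := bf' hcB q.a3' q.a3 (q := 3) (by norm_num)
      gcongr
    have t3 : c2 * ((1 : ℝ) ^ ε * ((1 + 1 * (cB * τ ^ α)) * (1 + 1 * (cB * τ)) *
        (1 + 1 * (cB * τ ^ (1 + α)))) + 1) ≤
        c2 * (1 * ((1 + 9 * cB) * (1 + 9 * cB) * (1 + 9 * cB)) + 1) := by
      have b1 := one_le_L hcB hτα0 hτα
      have b2 := one_le_L hcB hτ.le hτ1
      have b3 := one_le_L hcB hτα10 hτα1
      rw [Real.one_rpow]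
      gcongr
    have v1 : (N : ℝ) ^ 2 ≤ (N : ℝ) ^ 3 := pow_le_pow_right₀ hN1 (by norm_num)
    have v2 : (0 : ℝ) ≤ (N : ℝ) ^ 3 := by positivity
    have v3 : (N : ℝ) ^ 3 ≤ (1 + 9 * cB) ^ 3 * (N : ℝ) ^ 3 := le_mul_of_one_le_left v2 hL1
    have v4 : (N : ℝ) ^ 2 ≤ (1 + 9 * cB) ^ 3 * (N : ℝ) ^ 3 := v1.trans v3
    set L3 : ℝ := (1 + 9 * cB) ^ 3 with hL3
    set U : ℝ := (N : ℝ) ^ (2 * ε) * (N : ℝ) ^ 6 * (τ ^ α * τ * τ ^ (1 + α)) with hU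
    set V : ℝ := (N : ℝ) ^ ε * (N : ℝ) ^ 3 * (τ * τ ^ α) with hV
    have hU0 : 0 ≤ U := by positivity
    have hV0 : 0 ≤ V := by positivity
    have hLU : 0 ≤ L3 * U := mul_nonneg (by linarith) hU0
    have hLV : 0 ≤ L3 * V := mul_nonneg (by linarith) hV0
    calc (K1 : ℝ) ≤ 2 * (c2 * (((3 * (N : ℝ)) ^ 2) ^ ε * ((1 + (3 * (N : ℝ)) ^ 2 * (cB * τ ^ α)) *
            (1 + (3 * (N : ℝ)) ^ 2 * (cB * τ)) * (1 + (3 * (N : ℝ)) ^ 2 * (cB * τ ^ (1 + α)))) +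
            (3 * (N : ℝ)) ^ 2)) +
          (3 * N + 1) * (c2 * ((3 * (N : ℝ)) ^ ε * ((1 + 3 * (N : ℝ) * (cB * τ ^ α)) *
            (1 + 3 * (N : ℝ) * (cB * τ)) * (1 + 3 * (N : ℝ) * (cB * τ ^ (1 + α)))) +
            3 * (N : ℝ))) +
          P.card * (3 * N + 1) ^ 2 * (c2 * ((1 : ℝ) ^ ε * ((1 + 1 * (cB * τ ^ α)) *
            (1 + 1 * (cB * τ)) * (1 + 1 * (cB * τ ^ (1 + α)))) + 1)) := hK1'
      _ ≤ 2 * (c2 * ((9 * (N : ℝ) ^ (2 * ε)) * (((1 + 9 * cB) * ((N : ℝ) ^ 2 * τ ^ α)) *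
            ((1 + 9 * cB) * ((N : ℝ) ^ 2 * τ)) * ((1 + 9 * cB) * ((N : ℝ) ^ 2 * τ ^ (1 + α)))) +
            (3 * (N : ℝ)) ^ 2)) +
          (4 * N) * (c2 * ((3 * (N : ℝ) ^ ε) * (((1 + 9 * cB) * (N * τ ^ α)) *
            ((1 + 9 * cB) * (N * τ)) * (1 + 9 * cB)) + 3 * (N : ℝ))) +
          (48 * (N : ℝ) ^ 3) * (c2 * (1 * ((1 + 9 * cB) * (1 + 9 * cB) * (1 + 9 * cB)) + 1)) := by
          refine add_le_add (add_le_add (mul_le_mul_of_nonneg_left t1 (by norm_num)) ?_) ?_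
          · exact mul_le_mul (by linarith) t2 (by positivity) (by positivity)
          · exact mul_le_mul hR3 t3 (by positivity) (by positivity)
      _ = c2 * (18 * (L3 * U) + 18 * (N : ℝ) ^ 2 + 12 * (L3 * V) + 12 * (N : ℝ) ^ 2 +
            48 * (L3 * (N : ℝ) ^ 3) + 48 * (N : ℝ) ^ 3) := by
          rw [hU, hV, hL3]
          ring
      _ ≤ c2 * (126 * (L3 * U) + 126 * (L3 * V) + 126 * (L3 * (N : ℝ) ^ 3)) := by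
          refine mul_le_mul_of_nonneg_left ?_ hc2
          linarith
      _ = (126 * c2 * L3) * ((N : ℝ) ^ (6 + 2 * ε) * τ ^ (2 + 2 * α) +
            (N : ℝ) ^ (3 + ε) * τ ^ (1 + α) + (N : ℝ) ^ (3 : ℝ)) := by
          rw [r6, r4, r3, hpow2, hU, hV, hpow]
          ring
  have hK22 : (K2 : ℝ) ≤ 900000 * k2 * (N : ℝ) ^ 8 := by
    have e0 : ∀ y : ℝ, y ^ (1 + 1 : ℝ) = y ^ 2 := by
      intro y
      rw [← Real.rpow_natCast y 2]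
      norm_num
    rw [e0, e0, e0] at hK2'
    have e1 : (1 + 3 * (N : ℝ) * 8) ^ 2 ≤ 625 * (N : ℝ) ^ 2 := q625 hN1
    have e2 : (1 + (3 * (N : ℝ)) ^ 2 * 8) ^ 2 ≤ 5329 * (N : ℝ) ^ 4 := by
      have : 1 + (3 * (N : ℝ)) ^ 2 * 8 ≤ 73 * (N : ℝ) ^ 2 := q73 hN1
      calc (1 + (3 * (N : ℝ)) ^ 2 * 8) ^ 2 ≤ (73 * (N : ℝ) ^ 2) ^ 2 :=
            pow_le_pow_left₀ (by positivity) this 2
        _ = _ := by ring
    have e3 : (N : ℝ) ^ 5 ≤ (N : ℝ) ^ 8 := pow_le_pow_right₀ hN1 (by norm_num)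
    have e4 : (N : ℝ) ^ 3 ≤ (N : ℝ) ^ 8 := pow_le_pow_right₀ hN1 (by norm_num)
    calc (K2 : ℝ) ≤ 2 * (k2 * ((3 * N) ^ 2) ^ 2 * (1 + (3 * N) ^ 2 * 8) ^ 2) +
          (3 * N + 1) * (k2 * (3 * N) ^ 2 * (1 + 3 * N * 8) ^ 2) +
          P.card * (3 * N + 1) ^ 2 * (k2 * 1 ^ 2 * (1 + 1 * 8) ^ 2) := hK2'
      _ ≤ 2 * (k2 * ((3 * N) ^ 2) ^ 2 * (5329 * (N : ℝ) ^ 4)) +
          (4 * N) * (k2 * (3 * N) ^ 2 * (625 * (N : ℝ) ^ 2)) +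
          (48 * (N : ℝ) ^ 3) * (k2 * 1 ^ 2 * (1 + 1 * 8) ^ 2) := by
          gcongr
          linarith
      _ = k2 * (863298 * (N : ℝ) ^ 8 + 22500 * (N : ℝ) ^ 5 + 3888 * (N : ℝ) ^ 3) := by ring
      _ ≤ k2 * (900000 * (N : ℝ) ^ 8) := by
          refine mul_le_mul_of_nonneg_left ?_ hk2
          linarith [pow_pos hN0 8]
      _ = 900000 * k2 * (N : ℝ) ^ 8 := by ring
  have hdet : ∀ x ∈ P.biUnion (fun p => NB O p (A p)), 0 < (x : Mat).det := by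
    intro x hx
    obtain ⟨p, hp, hx⟩ := Finset.mem_biUnion.1 hx
    rw [((h12 O p (A p) hO (hP p hp).1 (hP p hp).2.2.2.1).1 x hx).2]
    have : 0 < p := lt_of_le_of_lt (Nat.zero_le _) (hP p hp).2.1
    positivity
  set w : ℝ := 4 / (3 * (N : ℝ) * P.card) with hw
  have hw0 : 0 ≤ w := by positivity
  have hc0 : 0 ≤ c := by rw [hc]; positivity
  have key := h11 O F D B (P.biUnion fun p => NB O p (A p)) w h S₁ S₂ K1 K2 c hO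
    hFc hF hFi hD hm hB1 hw0 hh
    (fun z _ => avgB h12 hO q.hN hF (fun p hp => (hP p hp).2.1) (fun p hp => (hP p hp).1)
      (fun p hp => (hP p hp).2.2.2.1) hm0' hA z)
    hB2 hdet hc0 hS₂ hS₁ hK1 hK2
  have hw1 : w ≤ 4 * (N : ℝ) ^ (-(2 - ε)) := by
    rw [hw, Real.rpow_neg hN0.le, div_le_iff₀ (by positivity)]
    have e1 : (N : ℝ) * (N : ℝ) ^ (1 - ε) = (N : ℝ) ^ (2 - ε) := by
      nth_rewrite 1 [← Real.rpow_one (N : ℝ)]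
      rw [← Real.rpow_add hN0]
      congr 1
      ring
    have e2 : (N : ℝ) ^ (2 - ε) ≤ (N : ℝ) * (2 * P.card) := by
      rw [← e1]
      exact mul_le_mul_of_nonneg_left hPn hN0.le
    have e3 : 0 < (N : ℝ) ^ (2 - ε) := Real.rpow_pos_of_pos hN0 _
    calc (4 : ℝ) ≤ 6 * (((N : ℝ) ^ (2 - ε))⁻¹ * (N : ℝ) ^ (2 - ε)) := by
          rw [inv_mul_cancel₀ e3.ne']
          norm_num
      _ ≤ 6 * (((N : ℝ) ^ (2 - ε))⁻¹ * ((N : ℝ) * (2 * P.card))) := by gcongr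
      _ = _ := by ring
  refine key.trans (ENNReal.ofReal_le_ofReal ?_)
  have m1 := q.main2 (by positivity) hw0 hw1 hK12
  have m2 : √(K2 * c) ≤ √(256 * (900000 * k2) * CB) * τ ^ (1 + σ) :=
    numX hτ hτ1 hN1 q.a4 hK22 (by positivity) hCB hc (by have := q.hσ; have := q.hα1; linarith)
  have m3 : w ≤ 4 := wfour hN1 hw1 (by linarith)
  have m4 : w * √(K2 * c) ≤ 4 * (√(256 * (900000 * k2) * CB) * τ ^ (1 + σ)) :=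
    mul_le_mul m3 m2 (Real.sqrt_nonneg _) (by norm_num)
  exact fin m1 m4 (by norm_num)

/-! ### The neighbourhood -/

theorem closed_Nb {γ : ℝ → ℍ} {s₀ τ r : ℝ} (hr : 0 ≤ r)
    (hγ : ContinuousOn γ (Icc s₀ (s₀ + τ))) : IsClosed (Nb γ s₀ τ r) := by
  have hK : IsCompact (γ '' Icc s₀ (s₀ + τ)) := isCompact_Icc.image_of_continuousOn hγ
  have e : Nb γ s₀ τ r = Metric.cthickening r (γ '' Icc s₀ (s₀ + τ)) := by
    rw [hK.cthickening_eq_biUnion_closedBall hr]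
    ext z
    constructor
    · rintro ⟨s, hs, h⟩
      exact mem_iUnion₂.2 ⟨γ s, ⟨s, hs, rfl⟩, h⟩
    · intro h
      obtain ⟨x, ⟨s, hs, rfl⟩, hx⟩ := mem_iUnion₂.1 h
      exact ⟨s, hs, hx⟩
  rw [e]
  exact Metric.isClosed_cthickening

theorem off {V : Set ℍ} {T : Set G2} {F : ℍ → ℝ} {CB ρ : ℝ} (h10 : S_Iso) (hρ : 0 < ρ)
    (hρ8 : ρ ≤ 8)
    (hbx : ∀ (g : G2) (z₁ z₂ : ℍ), 0 < (g : Mat).det → z₁ ∈ V → z₂ ∈ V → g • z₁ ∈ V →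
      g • z₂ ∈ V → ρ ≤ dist z₁ z₂ → Or g z₁ → g ∈ T)
    (hBall : ∀ (z : ℍ) (r : ℝ), 0 < r → r ≤ 8 →
      ms F (Metric.closedBall z r) ≤ ENNReal.ofReal (CB * r ^ (1 / 2 : ℝ)))
    (h g : G2) (hg : 0 < (g : Mat).det) (hgS : g ∉ cs h T) :
    ms F {z ∈ {z : ℍ | h⁻¹ • z ∈ V} | g • z ∈ {z : ℍ | h⁻¹ • z ∈ V} ∧
      Or (h⁻¹ * g * h) (h⁻¹ • z)} ≤ ENNReal.ofReal (CB * ρ ^ (1 / 2 : ℝ)) := by
  have hd : ∀ z₁ z₂ : ℍ, z₁ ∈ {z ∈ {z : ℍ | h⁻¹ • z ∈ V} | g • z ∈ {z : ℍ | h⁻¹ • z ∈ V} ∧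
      Or (h⁻¹ * g * h) (h⁻¹ • z)} →
      z₂ ∈ {z ∈ {z : ℍ | h⁻¹ • z ∈ V} | g • z ∈ {z : ℍ | h⁻¹ • z ∈ V} ∧
      Or (h⁻¹ * g * h) (h⁻¹ • z)} → dist z₁ z₂ < ρ := by
    rintro z₁ z₂ ⟨h1, h1', h1''⟩ ⟨h2, h2', h2''⟩
    by_contra hcon
    rw [not_lt] at hcon
    have e : ∀ z : ℍ, (h⁻¹ * g * h : G2) • (h⁻¹ • z) = h⁻¹ • (g • z) := by
      intro z
      rw [← mul_smul, ← mul_smul, mul_assoc, mul_inv_cancel, mul_one]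
    exact hgS (hbx (h⁻¹ * g * h) (h⁻¹ • z₁) (h⁻¹ • z₂) (by rw [det_cj]; exact hg)
      h1 h2 (by rw [e]; exact h1') (by rw [e]; exact h2') (by rw [h10]; exact hcon) h1'')
  by_cases hne : ({z ∈ {z : ℍ | h⁻¹ • z ∈ V} | g • z ∈ {z : ℍ | h⁻¹ • z ∈ V} ∧
      Or (h⁻¹ * g * h) (h⁻¹ • z)} : Set ℍ).Nonempty
  · obtain ⟨z₁, hz₁⟩ := hne
    refine (ms_mono fun z hz => ?_).trans (hBall z₁ ρ hρ hρ8)
    rw [Metric.mem_closedBall]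
    exact (hd z z₁ hz hz₁).le
  · rw [Set.not_nonempty_iff_eq_empty] at hne
    rw [hne]
    simp [ms]

end XPiece

theorem prf_Piece (h1 : S_Ma) (h2 : S_Mb) (h3 : S_C1b) (h4 : S_C2b) (h5 : S_CB1) (h6 : S_CB2)
    (h7 : S_Cj) (h8 : S_Sc) (h9 : S_Scx) (h10 : S_Iso) (h11 : S_TTp) (h12 : S_NBi) (h13 : S_Cmp)
    (h14 : S_BoxG) (h15 : S_BallP) : S_Piece := by
  intro N₀ α M hα hα1 hM
  obtain ⟨CB, hCB, hBall⟩ := h15 N₀ (1 / 2) (by norm_num)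
  obtain ⟨cB, τ₁, hcB, hτ₁, hτ₁1, hBox⟩ := h14 α M hα.le hα1 hM
  obtain ⟨K, hK, -, hCmp⟩ := h13 M hM
  obtain ⟨k1, hk1, hC1⟩ := h3
  obtain ⟨k2, hk2, hC2⟩ := h4 1 one_pos
  obtain ⟨c1, hc1, hCB1⟩ := h5 M hM
  obtain ⟨σ, hσ⟩ : ∃ σ : ℝ, σ = (2 * α - 1) / 6 := ⟨_, rfl⟩
  obtain ⟨ε, hε⟩ : ∃ ε : ℝ, ε = σ / 8 := ⟨_, rfl⟩
  obtain ⟨e, he⟩ : ∃ e : ℝ, e = (2 + 2 * α) / 3 := ⟨_, rfl⟩
  have hε0 : 0 < ε := by linarith
  obtain ⟨c2, hc2, hCB2⟩ := h6 M ε hM hε0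
  obtain ⟨N₁, hN₁, halt⟩ := XBallP.altP N₀ ε hε0
  have hN₁' : (1 : ℝ) ≤ N₁ := by exact_mod_cast hN₁
  have hK0 : 0 < K := by linarith
  set T1 : ℝ := 1024 * (12 * c1 * (1 + 9 * cB) ^ 3) + 8 * √(256 * (20000 * k1) * CB) with hT1
  set T2 : ℝ := 1536 * (126 * c2 * (1 + 9 * cB) ^ 3) + 8 * √(256 * (900000 * k2) * CB) with hT2
  have hT1' : 0 < T1 := by positivity
  have hT2' : 0 < T2 := by positivity
  refine ⟨T1 + T2, min τ₁ (min (1 / (2 * K)) (1 / N₁)), by positivity, ?_, ?_, ?_⟩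
  · refine lt_min hτ₁ (lt_min ?_ ?_) <;> positivity
  · exact (min_le_left _ _).trans hτ₁1
  intro O PP F D hO hGood hPP hF hD hm γ γ' h s₀ τ r hArc hh hs₀ hτ hττ hs₀τ hr hrτ
  have hB := hBall O PP F D hO hGood hPP hF hD hm
  have hτa : τ ≤ τ₁ := hττ.trans (min_le_left _ _)
  have hτb : τ ≤ 1 / (2 * K) := hττ.trans ((min_le_right _ _).trans (min_le_left _ _))
  have hτc : τ ≤ 1 / N₁ := hττ.trans ((min_le_right _ _).trans (min_le_right _ _))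
  have hτ1 : τ ≤ 1 := hτa.trans hτ₁1
  have hKτ : K * τ ≤ 1 / 2 := by
    rw [le_div_iff₀ (by positivity)] at hτb
    linarith
  have hτ2 : τ ≤ 1 / 2 := (le_mul_of_one_le_left hτ.le hK).trans hKτ
  have hr2 : r ≤ 1 / 2 := by
    refine hrτ.trans (le_trans ?_ hτ2)
    calc τ ^ 152 ≤ τ ^ 1 := pow_le_pow_of_le_one hτ.le hτ1 (by norm_num)
      _ = τ := pow_one τ
  -- the parameter `N`
  have hte : 0 < τ ^ e := Real.rpow_pos_of_pos hτ _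
  have hte1 : τ ^ e ≤ 1 := Real.rpow_le_one hτ.le hτ1 (by linarith)
  obtain ⟨N, hNa, hNb⟩ : ∃ N : ℕ, 1 / τ ^ e ≤ N ∧ (N : ℝ) < 1 / τ ^ e + 1 :=
    ⟨⌈1 / τ ^ e⌉₊, Nat.le_ceil _, Nat.ceil_lt_add_one (by positivity)⟩
  have hN1 : 1 ≤ (N : ℝ) * τ ^ e := by
    rwa [div_le_iff₀ hte] at hNa
  have hN2 : (N : ℝ) * τ ^ e ≤ 2 := by
    have h1 : (N : ℝ) * τ ^ e < (1 / τ ^ e + 1) * τ ^ e := mul_lt_mul_of_pos_right hNb hte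
    have h2 : (1 / τ ^ e + 1) * τ ^ e = 1 + τ ^ e := by field_simp
    linarith
  have hNN₁ : N₁ ≤ N := by
    have h1 : τ ^ e ≤ τ := by
      calc τ ^ e ≤ τ ^ (1 : ℝ) := Real.rpow_le_rpow_of_exponent_ge hτ hτ1 (by linarith)
        _ = τ := Real.rpow_one τ
    have h2 : (N₁ : ℝ) ≤ N := by
      refine le_trans ?_ hNa
      rw [le_div_iff₀ hte]
      rw [le_div_iff₀ (by positivity)] at hτc
      calc (N₁ : ℝ) * τ ^ e ≤ N₁ * τ := mul_le_mul_of_nonneg_left h1 (by linarith)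
        _ = τ * N₁ := mul_comm _ _
        _ ≤ 1 := hτc
    exact_mod_cast h2
  have hNone : 1 ≤ N := hN₁.trans hNN₁
  have q : XPiece.Par α e σ ε τ N := ⟨hα, hα1, he, hσ, hε, hτ, hτ1, hNone, hN1, hN2⟩
  -- the curve
  have hs₀1 : s₀ ∈ Icc (0 : ℝ) 1 := ⟨hs₀, by linarith⟩
  have hsub : Icc s₀ (s₀ + τ) ⊆ Icc (0 : ℝ) 1 := Icc_subset_Icc hs₀ hs₀τ
  have hLip := (hCmp α γ γ' (by linarith) hArc).1
  have hcont : ContinuousOn γ (Icc s₀ (s₀ + τ)) := by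
    have : LipschitzOnWith ⟨K, hK0.le⟩ γ (Icc (0 : ℝ) 1) := by
      refine LipschitzOnWith.of_dist_le_mul fun s hs t ht => ?_
      rw [Real.dist_eq]
      exact hLip s hs t ht
    exact this.continuousOn.mono hsub
  have hnorm : 0 < ‖γ' s₀‖ := lt_of_lt_of_le (by positivity) (hArc.lo s₀ hs₀1)
  have hv : ‖γ' s₀ / (‖γ' s₀‖ : ℂ)‖ = 1 := by
    rw [norm_div, Complex.norm_real, norm_norm, div_self hnorm.ne']
  have hpos : dist (γ s₀) I ≤ M := hArc.pos s₀ hs₀1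
  -- the neighbourhood
  have hVc : IsClosed (Nb γ s₀ τ r) := XPiece.closed_Nb hr.le hcont
  have hBm : MeasurableSet {z : ℍ | h⁻¹ • z ∈ Nb γ s₀ τ r} :=
    (hVc.preimage (XTube.cont_smul h10 h⁻¹)).measurableSet
  have hBball : {z : ℍ | h⁻¹ • z ∈ Nb γ s₀ τ r} ⊆ Metric.closedBall (h • γ s₀) 1 := by
    rintro z ⟨s, hs, hz⟩
    rw [Metric.mem_closedBall, ← XTube.dist_inv h10]
    have h1 := hLip s (hsub hs) s₀ hs₀1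
    have h2 : |s - s₀| ≤ τ := by
      rw [abs_of_nonneg (by linarith [hs.1])]
      linarith [hs.2]
    have h3 : K * |s - s₀| ≤ K * τ := mul_le_mul_of_nonneg_left h2 hK0.le
    linarith [dist_triangle (h⁻¹ • z) (γ s) (γ s₀)]
  have hBb : Bornology.IsBounded {z : ℍ | h⁻¹ • z ∈ Nb γ s₀ τ r} :=
    Metric.isBounded_closedBall.subset hBball
  -- the sets of matrices
  obtain ⟨h', hh'⟩ := MulAction.exists_smul_eq G2 I (h • γ s₀)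
  obtain ⟨hOj, hj1, hj2, -⟩ := h7 O h hO
  obtain ⟨hOj', hj1', hj2', hj3'⟩ := h7 O h' hO
  obtain ⟨hScb, -, -, hSccs⟩ := h8
  have hS₂ : ∀ g : G2, 0 < (g : Mat).det → ∀ z ∈ {z : ℍ | h⁻¹ • z ∈ Nb γ s₀ τ r},
      g • z ∈ {z : ℍ | h⁻¹ • z ∈ Nb γ s₀ τ r} → g ∈ cs h' (Sb I 8) := by
    intro g hg z hz hgz
    rw [hj3', hh']
    refine ⟨hg, ?_⟩
    have h1 := hBball hz
    have h2 := hBball hgz
    rw [Metric.mem_closedBall] at h1 h2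
    calc dist (g • h • γ s₀) (h • γ s₀) ≤
          dist (g • h • γ s₀) (g • z) + dist (g • z) (h • γ s₀) := dist_triangle _ _ _
      _ = dist z (h • γ s₀) + dist (g • z) (h • γ s₀) := by
          rw [h10, dist_comm (h • γ s₀) z]
      _ ≤ 8 := by linarith
  have hρ : 0 < τ ^ 150 := by positivity
  have hρ8 : τ ^ 150 ≤ 8 := (pow_le_one₀ hτ.le hτ1).trans (by norm_num)
  have hρτ : τ ^ 150 ≤ τ := by
    calc τ ^ 150 ≤ τ ^ 1 := pow_le_pow_of_le_one hτ.le hτ1 (by norm_num)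
      _ = τ := pow_one τ
  have hrρ : r ≤ τ ^ 150 * τ ^ α := by
    refine hrτ.trans ?_
    calc τ ^ 152 = τ ^ 150 * τ ^ (2 : ℝ) := by
          rw [Real.rpow_two]
          ring
      _ ≤ τ ^ 150 * τ ^ α := by
          refine mul_le_mul_of_nonneg_left ?_ hρ.le
          exact Real.rpow_le_rpow_of_exponent_ge hτ hτ1 (by linarith)
  have hρc : (τ ^ 150) ^ (1 / 2 : ℝ) = τ ^ 75 := by
    rw [← Real.rpow_natCast τ 150, ← Real.rpow_mul hτ.le, ← Real.rpow_natCast τ 75]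
    norm_num
  set T : Set G2 := Bx (γ s₀) (γ' s₀ / (‖γ' s₀‖ : ℂ)) (cB * τ ^ α) (cB * τ)
    (cB * τ ^ (1 + α)) with hT
  have hS₁ : ∀ g : G2, 0 < (g : Mat).det → g ∉ cs h T →
      ms F {z ∈ {z : ℍ | h⁻¹ • z ∈ Nb γ s₀ τ r} | g • z ∈ {z : ℍ | h⁻¹ • z ∈ Nb γ s₀ τ r} ∧
        Or (h⁻¹ * g * h) (h⁻¹ • z)} ≤ ENNReal.ofReal (CB * τ ^ 75) := by
    intro g hg hgS
    have := XPiece.off (V := Nb γ s₀ τ r) (T := T) h10 hρ hρ8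
      (fun g z₁ z₂ hg a b c d e f => hBox γ γ' s₀ τ r (τ ^ 150) g z₁ z₂ hArc hs₀ hτ hτa hs₀τ hr hρ
        hρτ hrρ hg a b c d e f) hB h g hg hgS
    rwa [hρc] at this
  have hκ1 : 0 ≤ cB * τ ^ α := by positivity
  have hκ2 : 0 ≤ cB * τ := by positivity
  have hκ3 : 0 ≤ cB * τ ^ (1 + α) := by positivity
  have hSc1 := hSccs h _ (h9 (γ s₀) (γ' s₀ / (‖γ' s₀‖ : ℂ)) (cB * τ ^ α) (cB * τ)
    (cB * τ ^ (1 + α)))
  rw [← hT] at hSc1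
  have hSc2 := hSccs h' _ (hScb I 8)
  obtain ⟨A, P, hP, hPn, hPc, hcase⟩ := halt O PP F hGood hPP hF N hNN₁
  rw [← hσ]
  have hpos35 : 0 ≤ τ ^ (1 + σ) := by positivity
  rcases hcase with hA | hA
  · have key := XPiece.typeA (c := CB * τ ^ 75) h1 h11 q hO hF.cont hF.nn hF.inv hD hm hBm hBb hh
      hSc1 hSc2 hP hPn hPc hA rfl hCB.le hcB.le hc1.le hk1.le hS₂ hS₁
      (fun X hX => XTube.trf (hj1 _ _) (hCB1 _ _ _ _ _ _ X hOj hpos hv hκ1 hκ2 hκ3 hX))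
      (fun X hX => XTube.trf (hj1' _ _) (hC1 _ 8 X hOj' (by norm_num) (by norm_num) hX))
    refine key.trans (ENNReal.ofReal_le_ofReal ?_)
    exact mul_le_mul_of_nonneg_right (by linarith) hpos35
  · have key := XPiece.typeB (c := CB * τ ^ 75) h2 h11 h12 q hO hF.cont hF.nn hF.inv hD hm hBm hBb hh
      hSc1 hSc2 hP hPn hPc hA rfl hCB.le hcB.le hc2.le hk2.le hS₂ hS₁
      (fun Y hY => XTube.trf (hj2 _ _) (hCB2 _ _ _ _ _ _ Y hOj hpos hv hκ1 hκ2 hκ3 hY))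
      (fun Y hY => XTube.trf (hj2' _ _) (hC2 _ 8 Y hOj' (by norm_num) (by norm_num) hY))
    refine key.trans (ENNReal.ofReal_le_ofReal ?_)
    exact mul_le_mul_of_nonneg_right (by linarith) hpos35

end Pool.Agent.HoloQUE
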