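import Pool.Agent.Work.MP_d2a4bb_nt.CV.Stmts
import Pool.Agent.Work.MP_d2a4bb_nt.NC.I_TT

/-!
# Item TTo: the duality inequality with an orientation
-/

set_option autoImplicit false

open MeasureTheory UpperHalfPlane Matrix
open scoped MatrixGroups ModularForm Manifold ENNReal Classical ComplexConjugate

noncomputable section

namespace Pool.Agent.HoloQUE

namespace XTTo

open XTT

/-! ### Sums with classes -/

theorem sq_card {S : Type*} [Fintype S] (A : S → ℝ≥0∞) :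
    (∑ c, A c) ^ 2 ≤ Fintype.card S * ∑ c, A c ^ 2 := by
  have h2 : 2 * (∑ c, A c) ^ 2 ≤ 2 * (Fintype.card S * ∑ c, A c ^ 2) := by
    calc 2 * (∑ c, A c) ^ 2 = ∑ c, ∑ d, 2 * (A c * A d) := by
          rw [sq, Finset.sum_mul_sum, Finset.mul_sum]
          refine Finset.sum_congr rfl fun c _ => ?_
          rw [Finset.mul_sum]
      _ ≤ ∑ c, ∑ d, (A c ^ 2 + A d ^ 2) := by
          exact Finset.sum_le_sum fun c _ => Finset.sum_le_sum fun d _ => two_ab _ _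
      _ = 2 * (Fintype.card S * ∑ c, A c ^ 2) := by
          simp only [Finset.sum_add_distrib, Finset.sum_const, Finset.card_univ, nsmul_eq_mul]
          rw [← Finset.mul_sum]
          ring
  exact (ENNReal.mul_le_mul_iff_right (by norm_num) (by norm_num)).1 h2

theorem cls {I S : Type*} [Fintype S] (a : I → ℝ≥0∞) (s : I → S) (R : I → I → Prop)
    (h : ∀ i j, s i = s j → R i j) :
    (∑' i, a i) ^ 2 ≤ Fintype.card S * ∑' i, ∑' j, if R i j then a i * a j else 0 := by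
  have e0 : ∑' i, a i = ∑ c, ∑' i, if s i = c then a i else 0 := by
    rw [← tsum_fintype (L := .unconditional _), ENNReal.tsum_comm]
    refine tsum_congr fun i => ?_
    rw [tsum_fintype, Finset.sum_ite_eq]
    simp
  rw [e0]
  refine (sq_card _).trans ?_
  gcongr
  calc ∑ c, (∑' i, if s i = c then a i else 0) ^ 2
      = ∑ c, ∑' i, ∑' j, (if s i = c then a i else 0) * (if s j = c then a j else 0) := by
        refine Finset.sum_congr rfl fun c _ => ?_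
        rw [sq, ← ENNReal.tsum_mul_right]
        refine tsum_congr fun i => ?_
        rw [← ENNReal.tsum_mul_left]
    _ = ∑' i, ∑' j, ∑ c, (if s i = c then a i else 0) * (if s j = c then a j else 0) := by
        rw [← tsum_fintype (L := .unconditional _), ENNReal.tsum_comm]
        refine tsum_congr fun i => ?_
        rw [ENNReal.tsum_comm]
        refine tsum_congr fun j => ?_
        rw [tsum_fintype]
    _ ≤ ∑' i, ∑' j, if R i j then a i * a j else 0 := by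
        refine ENNReal.tsum_le_tsum fun i => ENNReal.tsum_le_tsum fun j => ?_
        rw [Finset.sum_eq_single (s i)]
        · by_cases hij : s j = s i
          · rw [if_pos rfl, if_pos hij, if_pos (h i j hij.symm)]
          · simp [hij]
        · intro c _ hc
          simp [hc.symm]
        · intro hc
          exact absurd (Finset.mem_univ _) hc

section abs

variable {P α : Type*} [Group P] [MulAction P α] [MeasurableSpace α] {μ : Measure α}
  [MeasurableConstSMul P α] [SMulInvariantMeasure P α μ]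
variable (Γ : Subgroup P) [Countable Γ] {D B : Set α} {ι : Type*} (E : Finset ι) (e : ι → P)
  (OO : P → α → Prop)

/-- `∫_{z ∈ B, g z ∈ B, OO g z} f²`. -/
def Ko (μ : Measure α) (B : Set α) (f : α → ℝ≥0∞) (g : P) : ℝ≥0∞ :=
  ∫⁻ z in {z | z ∈ B ∧ g • z ∈ B ∧ OO g z}, f z ^ 2 ∂μ

/-- `∫_{OO g z} h_B (g z) h_B(z)`. -/
def Jo (μ : Measure α) (B : Set α) (f : α → ℝ≥0∞) (g : P) : ℝ≥0∞ :=
  ∫⁻ z, (if OO g z then B.indicator f (g • z) * B.indicator f z else 0) ∂μ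

omit [SMulInvariantMeasure P α μ] in
theorem meas_seto {B : Set α} (hB : MeasurableSet B) (hO : ∀ g, MeasurableSet {z | OO g z})
    (g : P) : MeasurableSet {z | z ∈ B ∧ g • z ∈ B ∧ OO g z} :=
  hB.inter (((measurable_const_smul g) hB).inter (hO g))

theorem JKo {B : Set α} (hB : MeasurableSet B) (hO : ∀ g, MeasurableSet {z | OO g z})
    (hO2 : ∀ g z, OO g z → OO g⁻¹ (g • z)) {f : α → ℝ≥0∞} (hf : Measurable f) (g : P) :
    2 * Jo OO μ B f g ≤ Ko OO μ B f g + Ko OO μ B f g⁻¹ := by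
  have e1 : Ko OO μ B f g =
      ∫⁻ z, {z | z ∈ B ∧ g • z ∈ B ∧ OO g z}.indicator (fun z => f z ^ 2) z ∂μ := by
    rw [Ko, lintegral_indicator (meas_seto OO hB hO g)]
  have e2 : Ko OO μ B f g⁻¹ =
      ∫⁻ z, {z | z ∈ B ∧ g • z ∈ B ∧ OO g⁻¹ (g • z)}.indicator (fun z => f (g • z) ^ 2) z ∂μ := by
    rw [Ko, ← lintegral_indicator (meas_seto OO hB hO g⁻¹), ← inv_int g]
    refine lintegral_congr fun z => ?_
    simp only [Set.indicator_apply, Set.mem_ofPred_eq, inv_smul_smul]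
    by_cases h1 : z ∈ B <;> by_cases h2 : g • z ∈ B <;> simp [h1, h2]
  have hm : Measurable fun z =>
      {z | z ∈ B ∧ g • z ∈ B ∧ OO g z}.indicator (fun z => f z ^ 2) z :=
    (hf.pow_const 2).indicator (meas_seto OO hB hO g)
  have hi : Measurable (B.indicator f) := hf.indicator hB
  rw [e1, e2, Jo, ← lintegral_add_left hm, ← lintegral_const_mul]
  · refine lintegral_mono fun z => ?_
    simp only [Set.indicator_apply, Set.mem_ofPred_eq]
    by_cases h3 : OO g z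
    · have h4 := hO2 g z h3
      by_cases h1 : z ∈ B <;> by_cases h2 : g • z ∈ B <;> simp [h1, h2, h3, h4]
      have := two_ab (f (g • z)) (f z)
      rwa [add_comm (f (g • z) ^ 2)] at this
    · simp [h3]
  · exact Measurable.ite (hO g) ((hi.comp (measurable_const_smul g)).mul hi) measurable_const

/-- The summands. -/
def aa (B : Set α) (f : α → ℝ≥0∞) (i : Γ × E) (z : α) : ℝ≥0∞ :=
  B.indicator f (((e i.2)⁻¹ * (i.1 : P)) • z)

omit [MeasurableConstSMul P α] [SMulInvariantMeasure P α μ] [Countable Γ] [MeasurableSpace α] in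
theorem HH_eq (f : α → ℝ≥0∞) (z : α) : HH Γ E e B f z = ∑' i : Γ × E, aa Γ E e B f i z := by
  rw [HH, ENNReal.tsum_prod']
  refine tsum_congr fun γ => ?_
  rw [h1, tsum_fintype, ← Finset.sum_coe_sort E]
  refine Finset.sum_congr rfl fun x _ => ?_
  rw [aa, mul_smul]
  rfl

/-- The function which is unfolded. -/
def GG (B : Set α) (f : α → ℝ≥0∞) (z : α) : ℝ≥0∞ :=
  ∑' i : Γ × E, ∑' y : E,
    if OO ((e i.2)⁻¹ * (i.1 : P) * e y) ((e y)⁻¹ • z) then
      B.indicator f (((e i.2)⁻¹ * (i.1 : P)) • z) * B.indicator f ((e y)⁻¹ • z) else 0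

omit [MeasurableConstSMul P α] [SMulInvariantMeasure P α μ] [Countable Γ] [MeasurableSpace α] in
theorem GG_sum (f : α → ℝ≥0∞) (z : α) :
    (∑' i : Γ × E, ∑' j : Γ × E,
      if OO (((e i.2)⁻¹ * (i.1 : P)) * ((e j.2)⁻¹ * (j.1 : P))⁻¹) (((e j.2)⁻¹ * (j.1 : P)) • z)
        then aa Γ E e B f i z * aa Γ E e B f j z else 0) = ∑' δ : Γ, GG Γ E e OO B f (δ • z) := by
  have h1 : ∀ i : Γ × E, (∑' j : Γ × E,
      if OO (((e i.2)⁻¹ * (i.1 : P)) * ((e j.2)⁻¹ * (j.1 : P))⁻¹) (((e j.2)⁻¹ * (j.1 : P)) • z)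
        then aa Γ E e B f i z * aa Γ E e B f j z else 0) = ∑' δ : Γ, ∑' y : E,
      if OO (((e i.2)⁻¹ * (i.1 : P)) * ((e y)⁻¹ * (δ : P))⁻¹) (((e y)⁻¹ * (δ : P)) • z)
        then aa Γ E e B f i z * aa Γ E e B f (δ, y) z else 0 := by
    intro i
    rw [ENNReal.tsum_prod']
  simp only [h1]
  rw [ENNReal.tsum_comm]
  refine tsum_congr fun δ => ?_
  rw [GG, ← ((Equiv.mulRight δ).prodCongr (Equiv.refl E)).tsum_eq]
  refine tsum_congr fun i => tsum_congr fun y => ?_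
  simp only [aa, Equiv.prodCongr_apply, Prod.map_fst, Prod.map_snd, Equiv.coe_mulRight,
    Equiv.coe_refl, id_eq, Subgroup.coe_mul]
  have e1 : (e i.2)⁻¹ * ((i.1 : P) * (δ : P)) * ((e y)⁻¹ * (δ : P))⁻¹ =
      (e i.2)⁻¹ * (i.1 : P) * e y := by
    group
  have e2 : (e i.2)⁻¹ * ((i.1 : P) * (δ : P)) = ((e i.2)⁻¹ * (i.1 : P)) * (δ : P) := by
    group
  rw [e1, e2, mul_smul ((e i.2)⁻¹ * (i.1 : P)) (δ : P) z, mul_smul (e y)⁻¹ (δ : P) z]
  rfl

omit [SMulInvariantMeasure P α μ] [Countable Γ] in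
theorem meas_term (hB : MeasurableSet B) (hO : ∀ g, MeasurableSet {z | OO g z})
    {f : α → ℝ≥0∞} (hf : Measurable f) (i : Γ × E) (y : E) : Measurable fun z : α =>
    if OO ((e i.2)⁻¹ * (i.1 : P) * e y) ((e y)⁻¹ • z) then
      B.indicator f (((e i.2)⁻¹ * (i.1 : P)) • z) * B.indicator f ((e y)⁻¹ • z) else 0 := by
  have hi : Measurable (B.indicator f) := hf.indicator hB
  refine Measurable.ite ?_ ?_ measurable_const
  · exact (measurable_const_smul (e y)⁻¹) (hO ((e i.2)⁻¹ * (i.1 : P) * e y))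
  · exact (hi.comp (measurable_const_smul ((e i.2)⁻¹ * (i.1 : P)))).mul
      (hi.comp (measurable_const_smul (e y)⁻¹))

omit [SMulInvariantMeasure P α μ] in
theorem meas_GG (hB : MeasurableSet B) (hO : ∀ g, MeasurableSet {z | OO g z})
    {f : α → ℝ≥0∞} (hf : Measurable f) : Measurable (GG Γ E e OO B f) := by
  unfold GG
  exact Measurable.tsum fun i => Measurable.tsum fun y => meas_term Γ E e OO hB hO hf i y

theorem int_GG (hB : MeasurableSet B) (hO : ∀ g, MeasurableSet {z | OO g z})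
    {f : α → ℝ≥0∞} (hf : Measurable f) :
    ∫⁻ z, GG Γ E e OO B f z ∂μ =
      ∑' γ : Γ, ∑ x ∈ E, ∑ y ∈ E, Jo OO μ B f ((e x)⁻¹ * γ * e y) := by
  unfold GG
  rw [lintegral_tsum fun i => (Measurable.tsum fun y =>
    meas_term Γ E e OO hB hO hf i y).aemeasurable, ENNReal.tsum_prod']
  refine tsum_congr fun γ => ?_
  rw [tsum_fintype, ← Finset.sum_coe_sort E]
  refine Finset.sum_congr rfl fun x _ => ?_
  rw [lintegral_tsum fun y => (meas_term Γ E e OO hB hO hf (γ, x) y).aemeasurable, tsum_fintype,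
    ← Finset.sum_coe_sort E]
  refine Finset.sum_congr rfl fun y _ => ?_
  rw [← inv_int (e y), Jo]
  refine lintegral_congr fun z => ?_
  simp only [inv_smul_smul]
  rw [mul_smul ((e x)⁻¹ * (γ : P)) (e y) z]

omit [Countable Γ] in
theorem stepEo (hB : MeasurableSet B) (hO : ∀ g, MeasurableSet {z | OO g z})
    (hO2 : ∀ g z, OO g z → OO g⁻¹ (g • z)) {f : α → ℝ≥0∞} (hf : Measurable f) :
    ∑' γ : Γ, ∑ x ∈ E, ∑ y ∈ E, Jo OO μ B f ((e x)⁻¹ * γ * e y) ≤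
      ∑' γ : Γ, ∑ x ∈ E, ∑ y ∈ E, Ko OO μ B f ((e x)⁻¹ * γ * e y) := by
  have hs : ∑' γ : Γ, ∑ x ∈ E, ∑ y ∈ E, Ko OO μ B f ((e x)⁻¹ * γ * e y)⁻¹ =
      ∑' γ : Γ, ∑ x ∈ E, ∑ y ∈ E, Ko OO μ B f ((e x)⁻¹ * γ * e y) := by
    rw [← (Equiv.inv Γ).tsum_eq]
    refine tsum_congr fun γ => ?_
    rw [Finset.sum_comm]
    refine Finset.sum_congr rfl fun x _ => Finset.sum_congr rfl fun y _ => ?_
    congr 1
    simp [mul_assoc]
  have h2 : 2 * (∑' γ : Γ, ∑ x ∈ E, ∑ y ∈ E, Jo OO μ B f ((e x)⁻¹ * γ * e y)) ≤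
      2 * ∑' γ : Γ, ∑ x ∈ E, ∑ y ∈ E, Ko OO μ B f ((e x)⁻¹ * γ * e y) := by
    rw [two_mul (∑' γ : Γ, ∑ x ∈ E, ∑ y ∈ E, Ko OO μ B f ((e x)⁻¹ * γ * e y))]
    nth_rewrite 2 [← hs]
    rw [← ENNReal.tsum_add, ← ENNReal.tsum_mul_left]
    refine ENNReal.tsum_le_tsum fun γ => ?_
    rw [← Finset.sum_add_distrib, Finset.mul_sum]
    refine Finset.sum_le_sum fun x _ => ?_
    rw [← Finset.sum_add_distrib, Finset.mul_sum]
    refine Finset.sum_le_sum fun y _ => ?_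
    exact JKo OO hB hO hO2 hf _
  exact (ENNReal.mul_le_mul_iff_right (by norm_num) (by norm_num)).1 h2

theorem abs_TTo {S : Type*} [Fintype S] (s : P → α → S)
    (hD : IsFundamentalDomain Γ D μ) (hB : MeasurableSet B)
    (hO : ∀ g, MeasurableSet {z | OO g z})
    (hO1 : ∀ p q z, s p z = s q z → OO (p * q⁻¹) (q • z))
    (hO2 : ∀ g z, OO g z → OO g⁻¹ (g • z)) {f : α → ℝ≥0∞}
    (hf : Measurable f) (hΓ : ∀ (g : Γ) (z : α), f (g • z) = f z) {W : ℝ≥0∞}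
    (hW : ∀ z ∈ B, f z ≤ W * ∑ x ∈ E, f (e x • z)) :
    (∫⁻ z in B, f z ^ 2 ∂μ) ^ 2 ≤ Fintype.card S * W ^ 2 * (∫⁻ z in D, f z ^ 2 ∂μ) *
      ∑' γ : Γ, ∑ x ∈ E, ∑ y ∈ E, Ko OO μ B f ((e x)⁻¹ * γ * e y) := by
  have hA := stepA (μ := μ) E e hB hf hW
  rw [stepB Γ E e hD hB hf hΓ] at hA
  have hC := csi (ν := μ.restrict D) (meas_HH Γ E e hB hf) hf
  have hP : ∀ z, HH Γ E e B f z ^ 2 ≤
      Fintype.card S * ∑' δ : Γ, GG Γ E e OO B f (δ • z) := by
    intro z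
    rw [HH_eq, ← GG_sum]
    exact cls (fun i => aa Γ E e B f i z) (fun i => s ((e i.2)⁻¹ * (i.1 : P)) z)
      (fun i j => OO (((e i.2)⁻¹ * (i.1 : P)) * ((e j.2)⁻¹ * (j.1 : P))⁻¹)
        (((e j.2)⁻¹ * (j.1 : P)) • z)) fun i j hij => hO1 _ _ _ hij
  have hG : ∫⁻ z in D, HH Γ E e B f z ^ 2 ∂μ ≤
      Fintype.card S * ∑' γ : Γ, ∑ x ∈ E, ∑ y ∈ E, Ko OO μ B f ((e x)⁻¹ * γ * e y) := by
    calc ∫⁻ z in D, HH Γ E e B f z ^ 2 ∂μ
        ≤ ∫⁻ z in D, Fintype.card S * ∑' δ : Γ, GG Γ E e OO B f (δ • z) ∂μ :=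
          lintegral_mono fun z => hP z
      _ = Fintype.card S * ∫⁻ z in D, ∑' δ : Γ, GG Γ E e OO B f (δ • z) ∂μ := by
          rw [lintegral_const_mul]
          exact Measurable.tsum fun δ =>
            (meas_GG Γ E e OO hB hO hf).comp (measurable_const_smul δ)
      _ = Fintype.card S * ∫⁻ z, GG Γ E e OO B f z ∂μ := by
          rw [hD.lintegral_eq_tsum'' fun z => GG Γ E e OO B f z, ← lintegral_tsum]
          intro δ
          exact ((meas_GG Γ E e OO hB hO hf).comp (measurable_const_smul δ)).aemeasurable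
      _ ≤ _ := by
          rw [int_GG Γ E e OO hB hO hf]
          exact mul_le_mul_right (stepEo (μ := μ) Γ E e OO hB hO hO2 hf) _
  calc (∫⁻ z in B, f z ^ 2 ∂μ) ^ 2 ≤ (W * ∫⁻ z in D, HH Γ E e B f z * f z ∂μ) ^ 2 := by gcongr
    _ = W ^ 2 * (∫⁻ z in D, HH Γ E e B f z * f z ∂μ) ^ 2 := mul_pow _ _ _
    _ ≤ W ^ 2 * ((∫⁻ z in D, HH Γ E e B f z ^ 2 ∂μ) * ∫⁻ z in D, f z ^ 2 ∂μ) := by gcongr
    _ ≤ W ^ 2 * ((Fintype.card S * ∑' γ : Γ, ∑ x ∈ E, ∑ y ∈ E,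
          Ko OO μ B f ((e x)⁻¹ * γ * e y)) * ∫⁻ z in D, f z ^ 2 ∂μ) := by gcongr
    _ = _ := by ring

end abs

/-! ### The orientation -/

/-- The square of the automorphy factor. -/
def ze (g : G2) (u : ℍ) : ℂ := (denom g u) ^ 2

theorem ze_ne (g : G2) (u : ℍ) : ze g u ≠ 0 := pow_ne_zero _ (denom_ne_zero g u)

theorem ze_coc (g h : G2) (z : ℍ) : ze (g * h) z = σ h (ze g (h • z)) * ze h z := by
  unfold ze
  rw [denom_cocycle_σ, mul_pow, map_pow]

theorem re_σ (g : G2) (z : ℂ) : (σ g z).re = z.re := by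
  simp only [σ]
  split_ifs <;> simp

/-- The class of a complex number. -/
def cl (z : ℂ) : Bool × Bool := (decide (0 ≤ z.re), decide (0 ≤ z.im))

theorem cl_eq {z w : ℂ} (h : cl z = cl w) : 0 ≤ (z / w).re := by
  have h1 : (0 ≤ z.re ↔ 0 ≤ w.re) ∧ (0 ≤ z.im ↔ 0 ≤ w.im) := by
    simpa [cl, Prod.ext_iff] using h
  rw [Complex.div_re, ← add_div]
  refine div_nonneg ?_ (Complex.normSq_nonneg _)
  have m : ∀ a b : ℝ, (0 ≤ a ↔ 0 ≤ b) → 0 ≤ a * b := by
    intro a b hab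
    by_cases ha : 0 ≤ a
    · exact mul_nonneg ha (hab.1 ha)
    · have hb : ¬ 0 ≤ b := fun hb => ha (hab.2 hb)
      exact mul_nonneg_of_nonpos_of_nonpos (not_le.1 ha).le (not_le.1 hb).le
  exact add_nonneg (m _ _ h1.1) (m _ _ h1.2)

theorem Or_div (p q : G2) (z : ℍ) (h : cl (ze p z) = cl (ze q z)) : Or (p * q⁻¹) (q • z) := by
  have e1 : ze (p * q⁻¹ * q) z = σ q (ze (p * q⁻¹) (q • z)) * ze q z := ze_coc _ _ _
  rw [inv_mul_cancel_right] at e1
  have e2 : σ q (ze (p * q⁻¹) (q • z)) = ze p z / ze q z := by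
    rw [e1, mul_div_cancel_right₀ _ (ze_ne q z)]
  have e3 := cl_eq h
  rw [← e2, re_σ] at e3
  exact e3

theorem Or_inv (g : G2) (z : ℍ) (h : Or g z) : Or g⁻¹ (g • z) := by
  have e1 : ze (g⁻¹ * g) z = σ g (ze g⁻¹ (g • z)) * ze g z := ze_coc _ _ _
  have e0 : ze (g⁻¹ * g) z = 1 := by
    rw [inv_mul_cancel, ze, denom_one, one_pow]
  rw [e0] at e1
  have e2 : σ g (ze g⁻¹ (g • z)) = 1 / ze g z := by
    rw [e1, mul_div_cancel_right₀ _ (ze_ne g z)]
  have e3 : 0 ≤ (1 / ze g z).re := by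
    rw [one_div, Complex.inv_re]
    exact div_nonneg h (Complex.normSq_nonneg _)
  rw [← e2, re_σ] at e3
  exact e3

theorem ze_scalar (g : G2) (a : ℝˣ) (z : ℍ) :
    ze (g * Matrix.GeneralLinearGroup.scalar (Fin 2) a) z = ((a : ℝ) : ℂ) ^ 2 * ze g z := by
  unfold ze denom
  simp [Matrix.mul_apply, Fin.sum_univ_two]
  ring

/-- The orientation condition on `PGL(2, ℝ)`. -/
def OOp (h : G2) (p : PGL(2, ℝ)) (z : ℍ) : Prop :=
  ∃ g : G2, ProjGenLinGroup.mk g = p ∧ Or (h⁻¹ * g * h) (h⁻¹ • z)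

theorem Or_scalar (g h : G2) (a : ℝˣ) (z : ℍ) :
    Or (h⁻¹ * (g * Matrix.GeneralLinearGroup.scalar (Fin 2) a) * h) z ↔ Or (h⁻¹ * g * h) z := by
  have e1 : h⁻¹ * (g * Matrix.GeneralLinearGroup.scalar (Fin 2) a) * h =
      (h⁻¹ * g * h) * Matrix.GeneralLinearGroup.scalar (Fin 2) a := by
    have : Matrix.GeneralLinearGroup.scalar (Fin 2) a * h =
        h * Matrix.GeneralLinearGroup.scalar (Fin 2) a := by
      first
        | exact scalar_comm a h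
        | exact (scalar_comm a h).symm
    simp only [mul_assoc, this]
  have e2 := ze_scalar (h⁻¹ * g * h) a z
  rw [e1]
  change 0 ≤ (ze _ z).re ↔ 0 ≤ (ze _ z).re
  rw [e2, ← Complex.ofReal_pow, Complex.re_ofReal_mul]
  have ha : 0 < (a : ℝ) ^ 2 := by
    have := a.ne_zero
    positivity
  exact mul_nonneg_iff_of_pos_left ha

theorem OOp_mk (h g : G2) (z : ℍ) :
    OOp h (ProjGenLinGroup.mk g) z ↔ Or (h⁻¹ * g * h) (h⁻¹ • z) := by
  constructor
  · rintro ⟨g', hg, hO⟩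
    obtain ⟨u, hu⟩ := ProjGenLinGroup.mk_eq_mk_iff.1 hg
    rw [← hu, Or_scalar]
    exact hO
  · intro hO
    exact ⟨g, rfl, hO⟩

theorem meas_OOp (h : G2) (p : PGL(2, ℝ)) : MeasurableSet {z | OOp h p z} := by
  obtain ⟨g, rfl⟩ := ProjGenLinGroup.mk_surjective p
  simp only [OOp_mk]
  have hc : Continuous fun z : ℍ => ((denom (h⁻¹ * g * h) ((h⁻¹ • z : ℍ) : ℂ)) ^ 2).re := by
    have h1 : Continuous fun z : ℍ => ((h⁻¹ • z : ℍ) : ℂ) :=
      UpperHalfPlane.continuous_coe.comp (continuous_const_smul h⁻¹)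
    have h2 : Continuous fun z : ℍ => denom (h⁻¹ * g * h) ((h⁻¹ • z : ℍ) : ℂ) := by
      unfold denom
      fun_prop
    exact Complex.continuous_re.comp (h2.pow 2)
  exact (isClosed_le continuous_const hc).measurableSet

/-- A lift. -/
def lft (p : PGL(2, ℝ)) : G2 := (ProjGenLinGroup.mk_surjective p).choose

theorem mk_lft (p : PGL(2, ℝ)) : ProjGenLinGroup.mk (lft p) = p :=
  (ProjGenLinGroup.mk_surjective p).choose_spec

/-- The sign class. -/
def ss (h : G2) (p : PGL(2, ℝ)) (z : ℍ) : Bool × Bool := cl (ze (h⁻¹ * lft p) z)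

theorem OOp_1 (h : G2) (p q : PGL(2, ℝ)) (z : ℍ) (hs : ss h p z = ss h q z) :
    OOp h (p * q⁻¹) (q • z) := by
  have e1 : p * q⁻¹ = ProjGenLinGroup.mk (lft p * (lft q)⁻¹) := by
    rw [map_mul, map_inv, mk_lft, mk_lft]
  have e2 : q • z = lft q • z := by
    rw [← pglMk_smul, mk_lft]
  rw [e1, e2, OOp_mk]
  have e3 := Or_div _ _ z hs
  have e4 : h⁻¹ * lft p * (h⁻¹ * lft q)⁻¹ = h⁻¹ * (lft p * (lft q)⁻¹) * h := by group
  rw [e4, mul_smul] at e3
  exact e3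

theorem OOp_2 (h : G2) (g : PGL(2, ℝ)) (z : ℍ) (hg : OOp h g z) : OOp h g⁻¹ (g • z) := by
  obtain ⟨g, rfl⟩ := ProjGenLinGroup.mk_surjective g
  rw [OOp_mk] at hg
  rw [← map_inv, OOp_mk, pglMk_smul]
  have e3 := Or_inv _ _ hg
  have e4 : (h⁻¹ * g * h)⁻¹ = h⁻¹ * g⁻¹ * h := by group
  have e5 : (h⁻¹ * g * h) • h⁻¹ • z = h⁻¹ • g • z := by
    rw [smul_smul, smul_smul]
    congr 1
    group
  rw [e4, e5] at e3
  exact e3

end XTTo

open XTT XTTo in
theorem prf_TTo (h1 : S_Cnt) : S_TTo := by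
  intro O F D B E w h hO hFc hF0 hFi hD hB hw hh hE hW
  have : Countable (Gam O) := cnt_Gam (h1 O hO)
  set f : ℍ → ℝ≥0∞ := fun z => ENNReal.ofReal (F z) with hfdef
  have hf : Measurable f := ENNReal.measurable_ofReal.comp hFc.measurable
  have hms : ∀ s : Set ℍ, ms F s = ∫⁻ z in s, f z ^ 2 := by
    intro s
    unfold ms
    refine lintegral_congr fun z => ?_
    rw [hfdef, ENNReal.ofReal_pow (hF0 z)]
  have hlift : ∀ γ : Gam O, ∃ g : normOne O, ProjGenLinGroup.mk (g : G2) = (γ : PGL(2, ℝ)) := by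
    rintro ⟨γ, g, hg, rfl⟩
    exact ⟨⟨g, hg⟩, rfl⟩
  choose σ hσ using hlift
  have hΓ : ∀ (g : Gam O) (z : ℍ), f (g • z) = f z := by
    intro g z
    have e1 : g • z = ((σ g : G2)) • z := by
      rw [← pglMk_smul, hσ]
      rfl
    rw [hfdef, e1]
    simp only
    rw [hFi _ (σ g).2]
  have hW' : ∀ z ∈ B, f z ≤ ENNReal.ofReal w * ∑ x ∈ E, f (ProjGenLinGroup.mk x • z) := by
    intro z hz
    have e2 : ∀ x : G2, f (ProjGenLinGroup.mk x • z) = ENNReal.ofReal (F (x • z)) := by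
      intro x
      rw [pglMk_smul]
    simp only [e2]
    rw [← ENNReal.ofReal_sum_of_nonneg fun x _ => hF0 _, ← ENNReal.ofReal_mul hw]
    exact ENNReal.ofReal_le_ofReal (hW z hz)
  have key := abs_TTo (μ := (volume : Measure ℍ)) (Gam O) E (fun x => ProjGenLinGroup.mk x)
    (OOp h) (ss h) hD hB (meas_OOp h) (OOp_1 h) (OOp_2 h) hf hΓ hW'
  have h4 : ((Fintype.card (Bool × Bool) : ℕ) : ℝ≥0∞) = ENNReal.ofReal 4 := by
    simp
  rw [hms, hms D, ENNReal.ofReal_mul (by norm_num), ENNReal.ofReal_pow hw, ← h4]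
  refine key.trans ?_
  gcongr
  have hKK : ∀ (γ : Gam O) (x y : G2), Ko (OOp h) volume B f
      ((ProjGenLinGroup.mk x)⁻¹ * (γ : PGL(2, ℝ)) * ProjGenLinGroup.mk y) =
      ms F {z ∈ B | (x⁻¹ * (σ γ : G2) * y) • z ∈ B ∧
        Or (h⁻¹ * (x⁻¹ * (σ γ : G2) * y) * h) (h⁻¹ • z)} := by
    intro γ x y
    rw [Ko, hms, ← hσ, ← map_inv, ← map_mul, ← map_mul]
    simp only [pglMk_smul, OOp_mk]
  simp only [hKK]
  calc ∑' γ : Gam O, ∑ x ∈ E, ∑ y ∈ E, ms F {z ∈ B | (x⁻¹ * (σ γ : G2) * y) • z ∈ B ∧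
        Or (h⁻¹ * (x⁻¹ * (σ γ : G2) * y) * h) (h⁻¹ • z)}
      = ∑' γ : Gam O, ∑' x : E, ∑' y : E,
          ms F {z ∈ B | ((x : G2)⁻¹ * (σ γ : G2) * (y : G2)) • z ∈ B ∧
            Or (h⁻¹ * ((x : G2)⁻¹ * (σ γ : G2) * (y : G2)) * h) (h⁻¹ • z)} := by
        refine tsum_congr fun γ => ?_
        rw [tsum_fintype, ← Finset.sum_coe_sort E]
        refine Finset.sum_congr rfl fun x _ => ?_
        rw [tsum_fintype, ← Finset.sum_coe_sort E]
    _ = ∑' t : Gam O × E × E,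
          ms F {z ∈ B | ((t.2.1 : G2)⁻¹ * (σ t.1 : G2) * (t.2.2 : G2)) • z ∈ B ∧
            Or (h⁻¹ * ((t.2.1 : G2)⁻¹ * (σ t.1 : G2) * (t.2.2 : G2)) * h) (h⁻¹ • z)} := by
        rw [ENNReal.tsum_prod']
        refine tsum_congr fun γ => ?_
        rw [ENNReal.tsum_prod']
    _ ≤ ∑' t : Tri O E Set.univ, ms F {z ∈ B | (t.1.1⁻¹ * t.1.2.2 * t.1.2.1) • z ∈ B ∧
          Or (h⁻¹ * (t.1.1⁻¹ * t.1.2.2 * t.1.2.1) * h) (h⁻¹ • z)} := by
        refine ENNReal.tsum_comp_le_tsum_of_injective (f := fun t : Gam O × E × E =>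
          (⟨((t.2.1 : G2), (t.2.2 : G2), (σ t.1 : G2)),
            t.2.1.2, t.2.2.2, (σ t.1).2, Set.mem_univ _⟩ : Tri O E Set.univ)) ?_
          (fun t : Tri O E Set.univ => ms F {z ∈ B | (t.1.1⁻¹ * t.1.2.2 * t.1.2.1) • z ∈ B ∧
            Or (h⁻¹ * (t.1.1⁻¹ * t.1.2.2 * t.1.2.1) * h) (h⁻¹ • z)})
        rintro ⟨γ, x, y⟩ ⟨γ', x', y'⟩ h
        have h' := congrArg Subtype.val h
        simp only [Prod.mk.injEq] at h'
        obtain ⟨hx, hy, hg⟩ := h'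
        have hγ : γ = γ' := by
          apply Subtype.ext
          rw [← hσ, ← hσ, hg]
        rw [hγ, Subtype.ext hx, Subtype.ext hy]

end Pool.Agent.HoloQUE
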