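import Pool.Agent.Work.MP_d2a4bb_nt.CV.Stmts
import Pool.Agent.Work.MP_d2a4bb_nt.NC.I_TTs

/-!
# Item TTp: the split form of the duality inequality with an orientation
-/

set_option autoImplicit false

open MeasureTheory UpperHalfPlane Matrix HQ Set
open scoped MatrixGroups ModularForm Manifold ENNReal Classical ComplexConjugate

noncomputable section

namespace Pool.Agent.HoloQUE

theorem prf_TTp (h1 : S_TTo) : S_TTp := by
  intro O F D B E w h S₁ S₂ K₁ K₂ c hO hF hF0 hFi hD hD1 hB hw hh hFB hBb hdet hc hS2 hS1 hK1 hK2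
  have hT := h1 O F D B E w h hO hF hF0 hFi hD hB hw hh hdet hFB
  rw [hD1, mul_one] at hT
  have hfin := XTTs.ms_lt_top F hF B hBb
  have hsum := XTTs.sum_le O E S₁ S₂
    (fun g => ms F {z ∈ B | g • z ∈ B ∧ Or (h⁻¹ * g * h) (h⁻¹ • z)}) (ms F B)
    (ENNReal.ofReal c) K₁ K₂ hdet
    (fun g _ => XTTs.ms_mono F (fun z hz => hz.1)) hS1
    (fun g hg hgs => by
      have : {z ∈ B | g • z ∈ B ∧ Or (h⁻¹ * g * h) (h⁻¹ • z)} = ∅ := by
        ext z
        simp only [Set.mem_empty_iff_false, iff_false]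
        intro hz
        exact hgs (hS2 g hg z hz.1 hz.2.1)
      simp only [this]
      simp [ms]) hK1 hK2
  have h2 : ms F B ^ 2 ≤ ENNReal.ofReal (4 * w ^ 2) *
      (K₁ * ms F B + K₂ * ENNReal.ofReal c) :=
    hT.trans (mul_le_mul_right hsum _)
  set m : ℝ := (ms F B).toReal
  have hm0 : 0 ≤ m := ENNReal.toReal_nonneg
  have hmE : ms F B = ENNReal.ofReal m := (ENNReal.ofReal_toReal hfin.ne).symm
  rw [hmE] at h2 ⊢
  have h3 : ENNReal.ofReal (m ^ 2) ≤ ENNReal.ofReal (4 * w ^ 2 * (K₁ * m + K₂ * c)) := by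
    rw [ENNReal.ofReal_pow hm0, ENNReal.ofReal_mul (p := 4 * w ^ 2) (by positivity),
      ENNReal.ofReal_add (by positivity) (by positivity),
      ENNReal.ofReal_mul (p := (K₁ : ℝ)) (by positivity),
      ENNReal.ofReal_mul (p := (K₂ : ℝ)) (by positivity), ENNReal.ofReal_natCast,
      ENNReal.ofReal_natCast]
    exact h2
  have h4 : m ^ 2 ≤ (2 * w) ^ 2 * (K₁ * m + K₂ * c) := by
    have := (ENNReal.ofReal_le_ofReal_iff (by positivity)).1 h3
    calc m ^ 2 ≤ 4 * w ^ 2 * (K₁ * m + K₂ * c) := this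
      _ = (2 * w) ^ 2 * (K₁ * m + K₂ * c) := by ring
  have h5 := XTTs.real_ineq m (2 * w) K₁ (K₂ * c) hm0 (by positivity) (by positivity)
    (by positivity) h4
  refine ENNReal.ofReal_le_ofReal (h5.trans (le_of_eq ?_))
  ring

end Pool.Agent.HoloQUE
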