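import Pool.Agent.Work.MP_d2a4bb_nt.NC.All
import Pool.Agent.Work.MP_d2a4bb_nt.CV.I_ArcC
import Pool.Agent.Work.MP_d2a4bb_nt.CV.I_ArcM
import Pool.Agent.Work.MP_d2a4bb_nt.CV.I_BoxG
import Pool.Agent.Work.MP_d2a4bb_nt.CV.I_CB
import Pool.Agent.Work.MP_d2a4bb_nt.CV.I_Cmp
import Pool.Agent.Work.MP_d2a4bb_nt.CV.I_Curve
import Pool.Agent.Work.MP_d2a4bb_nt.CV.I_FinC
import Pool.Agent.Work.MP_d2a4bb_nt.CV.I_Piece
import Pool.Agent.Work.MP_d2a4bb_nt.CV.I_Scx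
import Pool.Agent.Work.MP_d2a4bb_nt.CV.I_TTo
import Pool.Agent.Work.MP_d2a4bb_nt.CV.I_TTp

/-!
# Block [d2a4bb CV]: the items without hypotheses
-/

set_option autoImplicit false

namespace Pool.Agent.HoloQUE

theorem all_TTp : S_TTp := prf_TTp (prf_TTo all_Cnt)

theorem all_Piece : S_Piece :=
  prf_Piece all_Ma all_Mb all_C1b all_C2b (prf_CB1 all_Geo all_Iso) (prf_CB2 all_Geo all_Iso all_Dvb)
    all_Cj all_Sc (prf_Scx all_Sc) all_Iso all_TTp all_NBi prf_Cmp (prf_BoxG all_Iso prf_Cmp)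
    all_BallP

theorem all_Curve : S_Curve := prf_Curve all_Piece all_BallP prf_Cmp all_Iso

theorem all_FinC : FinalC :=
  prf_FinC all_Curve all_AmpP all_Lim all_BrA all_BrB all_BrCP all_BrD prf_ArcM prf_ArcC

end Pool.Agent.HoloQUE
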