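import Pool.Agent.Work.MP_d2a4bb_nt.CV.Stmts
import Pool.Agent.Work.MP_d2a4bb_nt.NC.I_Sc

/-!
# Item Scx: the boxes are invariant under scalars
-/

set_option autoImplicit false

open MeasureTheory UpperHalfPlane Matrix HQ Set
open scoped MatrixGroups ModularForm Manifold ENNReal Classical ComplexConjugate

noncomputable section

namespace Pool.Agent.HoloQUE

namespace XScx

theorem qf (a : ℝˣ) (g : G2) (z : ℂ) :
    Qf ((GeneralLinearGroup.scalar (Fin 2) a * g : G2) : Mat) z = ((a : ℝ) : ℂ) * Qf (g : Mat) z := by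
  unfold Qf
  simp only [XSc.apply_mul]
  push_cast
  ring

theorem bound (a : ℝˣ) (g : G2) (κ x y : ℝ) (hxy : y = (a : ℝ) * x)
    (h : |x| ≤ κ * √(g : Mat).det) :
    |y| ≤ κ * √((GeneralLinearGroup.scalar (Fin 2) a * g : G2) : Mat).det := by
  rw [hxy, XSc.sqrt_det, abs_mul]
  calc |(a : ℝ)| * |x| ≤ |(a : ℝ)| * (κ * √(g : Mat).det) :=
        mul_le_mul_of_nonneg_left h (abs_nonneg _)
    _ = κ * (|(a : ℝ)| * √(g : Mat).det) := by ring

end XScx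

theorem prf_Scx (h1 : S_Sc) : S_Scx := by
  rintro z₀ v₀ κ₁ κ₂ κ₃ a g ⟨hs, hc, hr, hi⟩
  have hm : Qf ((GeneralLinearGroup.scalar (Fin 2) a * g : G2) : Mat) z₀ * conj v₀ =
      ((a : ℝ) : ℂ) * (Qf (g : Mat) z₀ * conj v₀) := by
    rw [XScx.qf, mul_assoc]
  refine ⟨h1.1 z₀ 2 a g hs, XScx.bound a g κ₁ _ _ (XSc.apply_mul a g 1 0) hc,
    XScx.bound a g κ₂ _ _ ?_ hr, XScx.bound a g κ₃ _ _ ?_ hi⟩
  · rw [hm, Complex.re_ofReal_mul]
  · rw [hm, Complex.im_ofReal_mul]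

end Pool.Agent.HoloQUE
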